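import Mathlib

set_option autoImplicit false

/-!
Weighted sums over tuples of natural numbers: the combinatorial half of the theorem on direct powers
of a group of subexponential growth.
-/

namespace MP799c44

open Finset

/-- tuples of natural numbers with a given total -/
def T (d n : ℕ) : Finset (Fin d → ℕ) :=
  (Fintype.piFinset fun _ : Fin d => Finset.range (n + 1)).filter fun l => ∑ i, l i = n

/-- tuples of natural numbers with total at most `n` -/
def Tle (d n : ℕ) : Finset (Fin d → ℕ) :=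
  (Fintype.piFinset fun _ : Fin d => Finset.range (n + 1)).filter fun l => ∑ i, l i ≤ n

lemma le_sum {d : ℕ} (l : Fin d → ℕ) (i : Fin d) : l i ≤ ∑ j, l j :=
  Finset.single_le_sum (fun j _ => Nat.zero_le (l j)) (Finset.mem_univ i)

lemma mem_T {d n : ℕ} {l : Fin d → ℕ} : l ∈ T d n ↔ ∑ i, l i = n := by
  unfold T
  rw [Finset.mem_filter, Fintype.mem_piFinset]
  constructor
  · exact fun h => h.2
  · intro h
    refine ⟨fun i => ?_, h⟩
    rw [Finset.mem_range]
    have := le_sum l i
    omega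

lemma mem_Tle {d n : ℕ} {l : Fin d → ℕ} : l ∈ Tle d n ↔ ∑ i, l i ≤ n := by
  unfold Tle
  rw [Finset.mem_filter, Fintype.mem_piFinset]
  constructor
  · exact fun h => h.2
  · intro h
    refine ⟨fun i => ?_, h⟩
    rw [Finset.mem_range]
    have := le_sum l i
    omega

/-- the weight of a tuple -/
noncomputable def W {d : ℕ} (s : ℕ → ℝ) (l : Fin d → ℕ) : ℝ := ∏ i, s (l i)

noncomputable def c (s : ℕ → ℝ) (d n : ℕ) : ℝ := ∑ l ∈ T d n, W s l

noncomputable def C (s : ℕ → ℝ) (d n : ℕ) : ℝ := ∑ l ∈ Tle d n, W s l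

lemma W_nonneg {d : ℕ} {s : ℕ → ℝ} (hs : ∀ n, 0 ≤ s n) (l : Fin d → ℕ) : 0 ≤ W s l :=
  Finset.prod_nonneg fun _ _ => hs _

lemma C_nonneg {d : ℕ} {s : ℕ → ℝ} (hs : ∀ n, 0 ≤ s n) (n : ℕ) : 0 ≤ C s d n :=
  Finset.sum_nonneg fun l _ => W_nonneg hs l

lemma W_split {d : ℕ} (s : ℕ → ℝ) (l : Fin d → ℕ) (i : Fin d) :
    W s l = s (l i) * ∏ j ∈ Finset.univ.erase i, s (l j) := by
  unfold W
  rw [Finset.mul_prod_erase _ (fun j => s (l j)) (Finset.mem_univ i)]

lemma W_update {d : ℕ} (s : ℕ → ℝ) (l : Fin d → ℕ) (i : Fin d) (x : ℕ) :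
    W s (Function.update l i x) = s x * ∏ j ∈ Finset.univ.erase i, s (l j) := by
  rw [W_split s _ i, Function.update_self]
  congr 1
  refine Finset.prod_congr rfl fun j hj => ?_
  rw [Function.update_of_ne (Finset.ne_of_mem_erase hj)]

lemma sum_split {d : ℕ} (l : Fin d → ℕ) (i : Fin d) :
    ∑ j, l j = l i + ∑ j ∈ Finset.univ.erase i, l j :=
  (Finset.add_sum_erase _ (fun j => l j) (Finset.mem_univ i)).symm

lemma sum_update {d : ℕ} (l : Fin d → ℕ) (i : Fin d) (x : ℕ) :
    ∑ j, Function.update l i x j = x + ∑ j ∈ Finset.univ.erase i, l j := by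
  rw [sum_split _ i, Function.update_self]
  congr 1
  refine Finset.sum_congr rfl fun j hj => ?_
  rw [Function.update_of_ne (Finset.ne_of_mem_erase hj)]

/-- comparison of sums along an injection -/
lemma sum_le_of_inj {α β : Type*} [DecidableEq β] (A : Finset α) (B : Finset β) (p : α → β)
    (f : α → ℝ) (g : β → ℝ) (hp : ∀ a ∈ A, p a ∈ B)
    (hinj : ∀ a ∈ A, ∀ a' ∈ A, p a = p a' → a = a')
    (hfg : ∀ a ∈ A, f a ≤ g (p a)) (hg : ∀ b ∈ B, 0 ≤ g b) :
    ∑ a ∈ A, f a ≤ ∑ b ∈ B, g b := by
  calc ∑ a ∈ A, f a ≤ ∑ a ∈ A, g (p a) := Finset.sum_le_sum hfg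
    _ = ∑ b ∈ A.image p, g b := (Finset.sum_image (fun a ha a' ha' h => hinj a ha a' ha' h)).symm
    _ ≤ ∑ b ∈ B, g b := by
        refine Finset.sum_le_sum_of_subset_of_nonneg ?_ (fun b hb _ => hg b hb)
        intro b hb
        obtain ⟨a, ha, rfl⟩ := Finset.mem_image.1 hb
        exact hp a ha

/-- a sum over a union of a family is at most the double sum -/
lemma sum_biUnion_le {α β : Type*} [DecidableEq α] [DecidableEq β] (A : Finset α) (t : α → Finset β)
    (g : β → ℝ) (hg : ∀ b, 0 ≤ g b) :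
    ∑ b ∈ A.biUnion t, g b ≤ ∑ a ∈ A, ∑ b ∈ t a, g b := by
  induction A using Finset.induction_on with
  | empty => simp
  | insert a A ha ih =>
    rw [Finset.biUnion_insert, Finset.sum_insert ha]
    calc ∑ b ∈ t a ∪ A.biUnion t, g b ≤ ∑ b ∈ t a, g b + ∑ b ∈ A.biUnion t, g b := by
          rw [← Finset.sum_union_inter]
          exact le_add_of_nonneg_right (Finset.sum_nonneg fun l _ => hg l)
      _ ≤ _ := by gcongr

/-- lowering one coordinate -/
lemma C_add_le {d : ℕ} {s : ℕ → ℝ} (hs : ∀ n, 0 ≤ s n) (hmul : ∀ i j, s (i + j) ≤ s i * s j)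
    {n k : ℕ} (hn : d * k ≤ n) : C s d (n + k) ≤ (1 + d * s k) * C s d n := by
  classical
  have hsub : Tle d (n + k) ⊆ Tle d n ∪
      Finset.univ.biUnion (fun i : Fin d => (Tle d (n + k)).filter fun l => k ≤ l i) := by
    intro l hl
    rw [Finset.mem_union]
    by_cases h : ∑ i, l i ≤ n
    · exact Or.inl (mem_Tle.2 h)
    · right
      rw [Finset.mem_biUnion]
      by_contra hcon
      push Not at hcon
      have hlt : ∀ i : Fin d, l i ≤ k := by
        intro i
        by_contra hi
        exact hcon i (Finset.mem_univ i) (Finset.mem_filter.2 ⟨hl, by omega⟩)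
      have : ∑ i, l i ≤ ∑ _i : Fin d, k := Finset.sum_le_sum fun i _ => hlt i
      rw [Finset.sum_const, Finset.card_univ, Fintype.card_fin, smul_eq_mul] at this
      omega
  have h1 : C s d (n + k) ≤ C s d n +
      ∑ i : Fin d, ∑ l ∈ (Tle d (n + k)).filter (fun l => k ≤ l i), W s l := by
    unfold C
    calc ∑ l ∈ Tle d (n + k), W s l ≤ ∑ l ∈ Tle d n ∪
          Finset.univ.biUnion (fun i : Fin d => (Tle d (n + k)).filter fun l => k ≤ l i), W s l :=
          Finset.sum_le_sum_of_subset_of_nonneg hsub fun l _ _ => W_nonneg hs l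
      _ ≤ ∑ l ∈ Tle d n, W s l + ∑ l ∈ Finset.univ.biUnion
          (fun i : Fin d => (Tle d (n + k)).filter fun l => k ≤ l i), W s l := by
          rw [← Finset.sum_union_inter]
          exact le_add_of_nonneg_right (Finset.sum_nonneg fun l _ => W_nonneg hs l)
      _ ≤ _ := by
          gcongr
          exact sum_biUnion_le _ _ _ (W_nonneg hs)
  have h2 : ∀ i : Fin d, ∑ l ∈ (Tle d (n + k)).filter (fun l => k ≤ l i), W s l
      ≤ s k * C s d n := by
    intro i
    unfold C
    rw [Finset.mul_sum]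
    refine sum_le_of_inj _ _ (fun l => Function.update l i (l i - k)) _ _ ?_ ?_ ?_ ?_
    · intro l hl
      obtain ⟨hl1, hl2⟩ := Finset.mem_filter.1 hl
      rw [mem_Tle] at hl1 ⊢
      rw [sum_update]
      rw [sum_split l i] at hl1
      omega
    · intro l hl l' hl' h
      obtain ⟨hl1, hl2⟩ := Finset.mem_filter.1 hl
      obtain ⟨hl1', hl2'⟩ := Finset.mem_filter.1 hl'
      funext j
      have hj := congrFun h j
      by_cases hji : j = i
      · subst hji
        simp only [Function.update_self] at hj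
        omega
      · simpa only [Function.update_of_ne hji] using hj
    · intro l hl
      obtain ⟨hl1, hl2⟩ := Finset.mem_filter.1 hl
      rw [W_update, W_split s l i, ← mul_assoc]
      refine mul_le_mul_of_nonneg_right ?_ (Finset.prod_nonneg fun j _ => hs _)
      have := hmul k (l i - k)
      rwa [Nat.add_sub_cancel' hl2] at this
    · intro l _
      exact mul_nonneg (hs k) (W_nonneg hs l)
  calc C s d (n + k) ≤ C s d n +
      ∑ i : Fin d, ∑ l ∈ (Tle d (n + k)).filter (fun l => k ≤ l i), W s l := h1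
    _ ≤ C s d n + ∑ _i : Fin d, s k * C s d n := by
        gcongr with i _
        exact h2 i
    _ = (1 + d * s k) * C s d n := by
        rw [Finset.sum_const, Finset.card_univ, Fintype.card_fin, nsmul_eq_mul]
        ring

end MP799c44
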