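import Mathlib
import Pool.Agent.Lib.MP_799c44_al.Seq

set_option autoImplicit false

/-!
The three estimates behind the theorem on direct powers.
-/

namespace MP799c44

open Finset

/-- shifting one coordinate down by `m` -/
lemma shift_le {d : ℕ} {s : ℕ → ℝ} (hs : ∀ n, 0 ≤ s n) (n m : ℕ) (i : Fin d) :
    ∑ l ∈ (T d (n + m)).filter (fun l => m ≤ l i), W s l ≤
      ∑ l ∈ T d n, W s (Function.update l i (l i + m)) := by
  classical
  refine sum_le_of_inj _ _ (fun l => Function.update l i (l i - m)) _ _ ?_ ?_ ?_ ?_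
  · intro l hl
    obtain ⟨hl1, hl2⟩ := Finset.mem_filter.1 hl
    rw [mem_T] at hl1 ⊢
    rw [sum_update]
    rw [sum_split l i] at hl1
    omega
  · intro l hl l' hl' h
    obtain ⟨hl1, hl2⟩ := Finset.mem_filter.1 hl
    obtain ⟨hl1', hl2'⟩ := Finset.mem_filter.1 hl'
    funext j
    have hj := congrFun h j
    by_cases hji : j = i
    · subst hji
      simp only [Function.update_self] at hj
      omega
    · simpa only [Function.update_of_ne hji] using hj
  · intro l hl
    obtain ⟨hl1, hl2⟩ := Finset.mem_filter.1 hl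
    rw [Function.update_self, Function.update_idem, Nat.sub_add_cancel hl2, Function.update_eq_self]
  · intro l _
    exact W_nonneg hs _

lemma exp_le_one_add {t : ℝ} (h0 : 0 ≤ t) (h1 : t ≤ 1) :
    Real.exp t ≤ 1 + (Real.exp 1 - 1) * t := by
  have h := convexOn_exp.2 (Set.mem_univ (0:ℝ)) (Set.mem_univ (1:ℝ))
    (by linarith : (0:ℝ) ≤ 1 - t) h0 (by ring)
  simp only [smul_eq_mul, mul_zero, mul_one, zero_add, Real.exp_zero] at h
  linarith

/-- the convexity estimate -/
lemma sum_le_key {d : ℕ} (x y : Fin d → ℝ) (hx : ∀ i, 0 ≤ x i) (hy : ∀ i, 0 ≤ y i) {K : ℝ}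
    (hK : 0 < K) (hxy : ∀ i, y i ≤ K * x i) :
    ∑ i, y i * ∏ j ∈ Finset.univ.erase i, x j ≤
      2 * d * ∏ i, x i +
        K * Real.exp (-(2 * d / K)) * ∏ i, (x i + (Real.exp 1 - 1) / K * y i) := by
  have he : (0:ℝ) ≤ Real.exp 1 - 1 := by
    have := Real.add_one_le_exp (1:ℝ)
    linarith
  have hκ : (0:ℝ) ≤ (Real.exp 1 - 1) / K := div_nonneg he hK.le
  have hP : 0 ≤ ∏ i, x i := Finset.prod_nonneg fun i _ => hx i
  have hQ : 0 ≤ ∏ i, (x i + (Real.exp 1 - 1) / K * y i) :=
    Finset.prod_nonneg fun i _ => add_nonneg (hx i) (mul_nonneg hκ (hy i))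
  by_cases h0 : ∃ i, x i = 0
  · obtain ⟨i₀, hi₀⟩ := h0
    have hzero : ∑ i, y i * ∏ j ∈ Finset.univ.erase i, x j = 0 := by
      refine Finset.sum_eq_zero fun i _ => ?_
      by_cases hi : i = i₀
      · subst hi
        have : y i = 0 := le_antisymm (by simpa [hi₀] using hxy i) (hy i)
        rw [this, zero_mul]
      · rw [Finset.prod_eq_zero (Finset.mem_erase.2 ⟨fun h => hi h.symm, Finset.mem_univ i₀⟩) hi₀,
          mul_zero]
    rw [hzero]
    positivity
  · push Not at h0
    have hpos : ∀ i, 0 < x i := fun i => lt_of_le_of_ne (hx i) (Ne.symm (h0 i))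
    set a : Fin d → ℝ := fun i => y i / x i with ha
    have hax : ∀ i, y i = a i * x i := fun i => by
      rw [ha]
      simp only
      rw [div_mul_cancel₀ _ (h0 i)]
    have ha0 : ∀ i, 0 ≤ a i := fun i => div_nonneg (hy i) (hx i)
    have haK : ∀ i, a i ≤ K := fun i => by
      rw [ha]
      simp only
      rw [div_le_iff₀ (hpos i)]
      exact hxy i
    have hterm : ∀ i, y i * ∏ j ∈ Finset.univ.erase i, x j = a i * ∏ j, x j := by
      intro i
      rw [hax i, mul_assoc, Finset.mul_prod_erase _ (fun j => x j) (Finset.mem_univ i)]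
    have hprod : ∏ i, (x i + (Real.exp 1 - 1) / K * y i) =
        (∏ i, x i) * ∏ i, (1 + (Real.exp 1 - 1) * (a i / K)) := by
      rw [← Finset.prod_mul_distrib]
      refine Finset.prod_congr rfl fun i _ => ?_
      rw [hax i]
      ring
    have hexp : Real.exp ((∑ i, a i) / K) ≤ ∏ i, (1 + (Real.exp 1 - 1) * (a i / K)) := by
      rw [Finset.sum_div, Real.exp_sum]
      refine Finset.prod_le_prod (fun i _ => (Real.exp_pos _).le) fun i _ => ?_
      exact exp_le_one_add (div_nonneg (ha0 i) hK.le) ((div_le_one hK).2 (haK i))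
    have hN : ∑ i, a i ≤ 2 * d + K * Real.exp (((∑ i, a i) - 2 * d) / K) := by
      have h := Real.add_one_le_exp (((∑ i, a i) - 2 * d) / K)
      have h2 : ((∑ i, a i) - 2 * d) / K ≤ Real.exp (((∑ i, a i) - 2 * d) / K) := by linarith
      have h3 := mul_le_mul_of_nonneg_left h2 hK.le
      rw [mul_div_cancel₀ _ hK.ne'] at h3
      linarith
    have hsplit : Real.exp (((∑ i, a i) - 2 * d) / K) =
        Real.exp (-(2 * d / K)) * Real.exp ((∑ i, a i) / K) := by
      rw [← Real.exp_add]
      congr 1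
      ring
    rw [Finset.sum_congr rfl fun i _ => hterm i, ← Finset.sum_mul, hprod]
    calc (∑ i, a i) * ∏ i, x i
        ≤ (2 * d + K * Real.exp (((∑ i, a i) - 2 * d) / K)) * ∏ i, x i :=
          mul_le_mul_of_nonneg_right hN hP
      _ = 2 * d * ∏ i, x i + K * Real.exp (-(2 * d / K)) *
            ((∏ i, x i) * Real.exp ((∑ i, a i) / K)) := by
          rw [hsplit]
          ring
      _ ≤ _ := by gcongr

/-- the sum of the perturbed weights -/
lemma sum_prod_le {d : ℕ} {s : ℕ → ℝ} (hs : ∀ n, 0 ≤ s n) {κ : ℝ} (hκ : 0 ≤ κ) (n m : ℕ) :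
    ∑ l ∈ Tle d n, ∏ i, (s (l i) + κ * s (l i + m)) ≤ (1 + κ) ^ d * C s d (n + d * m) := by
  classical
  have hconst : (1 + κ) ^ d =
      ∑ A ∈ (Finset.univ : Finset (Fin d)).powerset, κ ^ (Finset.univ \ A).card := by
    have h := Finset.prod_add (fun _ : Fin d => (1:ℝ)) (fun _ => κ) Finset.univ
    rw [Finset.prod_const, Finset.card_univ, Fintype.card_fin] at h
    rw [h]
    refine Finset.sum_congr rfl fun A _ => ?_
    rw [Finset.prod_const_one, one_mul, Finset.prod_const]
  have hexpand : ∑ l ∈ Tle d n, ∏ i, (s (l i) + κ * s (l i + m)) =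
      ∑ A ∈ (Finset.univ : Finset (Fin d)).powerset, κ ^ (Finset.univ \ A).card *
        ∑ l ∈ Tle d n, W s (fun i => if i ∈ A then l i else l i + m) := by
    simp_rw [Finset.mul_sum]
    rw [Finset.sum_comm]
    refine Finset.sum_congr rfl fun l _ => ?_
    rw [Finset.prod_add]
    refine Finset.sum_congr rfl fun A _ => ?_
    rw [Finset.prod_mul_distrib, Finset.prod_const]
    unfold W
    rw [← Finset.prod_sdiff (Finset.subset_univ A)]
    have h1 : ∏ i ∈ Finset.univ \ A, s (if i ∈ A then l i else l i + m) =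
        ∏ i ∈ Finset.univ \ A, s (l i + m) := by
      refine Finset.prod_congr rfl fun i hi => ?_
      rw [if_neg (Finset.mem_sdiff.1 hi).2]
    have h2 : ∏ i ∈ A, s (if i ∈ A then l i else l i + m) = ∏ i ∈ A, s (l i) := by
      refine Finset.prod_congr rfl fun i hi => ?_
      rw [if_pos hi]
    rw [h1, h2]
    ring
  rw [hexpand, hconst, Finset.sum_mul]
  refine Finset.sum_le_sum fun A _ => ?_
  refine mul_le_mul_of_nonneg_left ?_ (pow_nonneg hκ _)
  unfold C
  refine sum_le_of_inj _ _ (fun l i => if i ∈ A then l i else l i + m) _ _ ?_ ?_ ?_ ?_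
  · intro l hl
    rw [mem_Tle] at hl ⊢
    calc ∑ i, (if i ∈ A then l i else l i + m) ≤ ∑ i, (l i + m) := by
          refine Finset.sum_le_sum fun i _ => ?_
          split_ifs <;> omega
      _ = ∑ i, l i + d * m := by
          rw [Finset.sum_add_distrib, Finset.sum_const, Finset.card_univ, Fintype.card_fin,
            smul_eq_mul]
      _ ≤ n + d * m := by omega
  · intro l _ l' _ h
    funext i
    have hi := congrFun h i
    split_ifs at hi <;> omega
  · intro l _
    exact le_refl _
  · intro l _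
    exact W_nonneg hs _

end MP799c44
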