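import Mathlib
import Pool.Agent.Lib.MP_799c44_al.Key

set_option autoImplicit false

/-!
Tuples with one small coordinate are rare; the combination of the three estimates.
-/

namespace MP799c44

open Finset

lemma small_pair {d : ℕ} {s : ℕ → ℝ} (hs : ∀ n, 0 ≤ s n) (hmul : ∀ i j, s (i + j) ≤ s i * s j)
    {K : ℝ} (hK0 : 0 ≤ K) {m : ℕ} (hK : ∀ x < m, s x ≤ K) (n J : ℕ) (i k : Fin d) (hik : k ≠ i) :
    J * ∑ l ∈ (T d (n + 1)).filter (fun l => l i < m ∧ J ≤ l k), W s l ≤
      K * s 1 * C s d n := by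
  classical
  have h0 : J * ∑ l ∈ (T d (n + 1)).filter (fun l => l i < m ∧ J ≤ l k), W s l =
      ∑ p ∈ ((T d (n + 1)).filter (fun l => l i < m ∧ J ≤ l k)) ×ˢ Finset.range J, W s p.1 := by
    rw [Finset.sum_product, Finset.mul_sum]
    refine Finset.sum_congr rfl fun l _ => ?_
    simp only [Finset.sum_const, Finset.card_range, nsmul_eq_mul]
  rw [h0]
  unfold C
  rw [Finset.mul_sum]
  refine sum_le_of_inj _ _ (fun p : (Fin d → ℕ) × ℕ =>
    Function.update (Function.update p.1 i p.2) k (p.1 k - p.2 - 1)) _ _ ?_ ?_ ?_ ?_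
  · rintro ⟨l, j⟩ hp
    obtain ⟨hl, hj⟩ := Finset.mem_product.1 hp
    obtain ⟨hl1, hl2, hl3⟩ := Finset.mem_filter.1 hl
    rw [Finset.mem_range] at hj
    rw [mem_T] at hl1
    rw [mem_Tle]
    dsimp only at hl1 hl2 hl3 hj ⊢
    have e1 := sum_update (Function.update l i j) k (l k - j - 1)
    have e2 := sum_split (Function.update l i j) k
    rw [Function.update_of_ne hik] at e2
    have e3 := sum_update l i j
    have e4 := sum_split l i
    rw [e1]
    omega
  · rintro ⟨l, j⟩ hp ⟨l', j'⟩ hp' h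
    obtain ⟨hl, hj⟩ := Finset.mem_product.1 hp
    obtain ⟨hl1, hl2, hl3⟩ := Finset.mem_filter.1 hl
    obtain ⟨hl', hj'⟩ := Finset.mem_product.1 hp'
    obtain ⟨hl1', hl2', hl3'⟩ := Finset.mem_filter.1 hl'
    rw [Finset.mem_range] at hj hj'
    rw [mem_T] at hl1 hl1'
    dsimp only at hl1 hl2 hl3 hj hl1' hl2' hl3' hj' h
    have hjj : j = j' := by
      have := congrFun h i
      rwa [Function.update_of_ne hik.symm, Function.update_self, Function.update_of_ne hik.symm,
        Function.update_self] at this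
    subst hjj
    have hother : ∀ r ∈ Finset.univ.erase i, l r = l' r := by
      intro r hr
      have hri := Finset.ne_of_mem_erase hr
      have := congrFun h r
      by_cases hrk : r = k
      · subst hrk
        rw [Function.update_self, Function.update_self] at this
        omega
      · rwa [Function.update_of_ne hrk, Function.update_of_ne hri, Function.update_of_ne hrk,
          Function.update_of_ne hri] at this
    have hsum : ∑ r ∈ Finset.univ.erase i, l r = ∑ r ∈ Finset.univ.erase i, l' r :=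
      Finset.sum_congr rfl hother
    have e4 := sum_split l i
    have e4' := sum_split l' i
    have hll : l = l' := by
      funext r
      by_cases hri : r = i
      · subst hri
        omega
      · exact hother r (Finset.mem_erase.2 ⟨hri, Finset.mem_univ r⟩)
    rw [hll]
  · rintro ⟨l, j⟩ hp
    obtain ⟨hl, hj⟩ := Finset.mem_product.1 hp
    obtain ⟨hl1, hl2, hl3⟩ := Finset.mem_filter.1 hl
    rw [Finset.mem_range] at hj
    dsimp only at hl1 hl2 hl3 hj ⊢
    have hR : 0 ≤ ∏ r ∈ (Finset.univ.erase i).erase k, s (l r) :=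
      Finset.prod_nonneg fun r _ => hs _
    have p1 : W s l = s (l i) * (s (l k) * ∏ r ∈ (Finset.univ.erase i).erase k, s (l r)) := by
      rw [W_split s l i]
      congr 1
      rw [Finset.mul_prod_erase _ (fun r => s (l r))
        (Finset.mem_erase.2 ⟨hik, Finset.mem_univ k⟩)]
    have p2 : W s (Function.update (Function.update l i j) k (l k - j - 1)) =
        s (l k - j - 1) * (s j * ∏ r ∈ (Finset.univ.erase i).erase k, s (l r)) := by
      rw [W_update]
      congr 1
      rw [← Finset.mul_prod_erase _ (fun r => s (Function.update l i j r))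
        (Finset.mem_erase.2 ⟨hik.symm, Finset.mem_univ i⟩), Function.update_self,
        Finset.erase_right_comm]
      congr 1
      refine Finset.prod_congr rfl fun r hr => ?_
      rw [Function.update_of_ne (Finset.ne_of_mem_erase (Finset.mem_of_mem_erase hr))]
    have h1 : s (l k) ≤ s (l k - j - 1) * (s j * s 1) := by
      have e : l k = (l k - j - 1) + (j + 1) := by omega
      calc s (l k) = s ((l k - j - 1) + (j + 1)) := by rw [← e]
        _ ≤ s (l k - j - 1) * s (j + 1) := hmul _ _
        _ ≤ s (l k - j - 1) * (s j * s 1) := mul_le_mul_of_nonneg_left (hmul _ _) (hs _)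
    rw [p1, p2]
    calc s (l i) * (s (l k) * ∏ r ∈ (Finset.univ.erase i).erase k, s (l r))
        ≤ K * ((s (l k - j - 1) * (s j * s 1)) *
            ∏ r ∈ (Finset.univ.erase i).erase k, s (l r)) := by
          refine mul_le_mul (hK _ hl2) (mul_le_mul_of_nonneg_right h1 hR)
            (mul_nonneg (hs _) hR) hK0
      _ = _ := by ring
  · intro l _
    exact mul_nonneg (mul_nonneg hK0 (hs 1)) (W_nonneg hs l)

lemma small_coord {d : ℕ} {s : ℕ → ℝ} (hs : ∀ n, 0 ≤ s n) (hmul : ∀ i j, s (i + j) ≤ s i * s j)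
    {K : ℝ} (hK0 : 0 ≤ K) {m : ℕ} (hK : ∀ x < m, s x ≤ K) {n J : ℕ} (hn : d * J + m ≤ n)
    (i : Fin d) :
    J * ∑ l ∈ (T d (n + 1)).filter (fun l => l i < m), W s l ≤
      d * (K * s 1 * C s d n) := by
  classical
  have hsub : (T d (n + 1)).filter (fun l => l i < m) ⊆
      (Finset.univ.erase i).biUnion
        (fun k => (T d (n + 1)).filter fun l => l i < m ∧ J ≤ l k) := by
    intro l hl
    obtain ⟨hl1, hl2⟩ := Finset.mem_filter.1 hl
    rw [Finset.mem_biUnion]
    by_contra hcon
    push Not at hcon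
    have hlt : ∀ k ∈ Finset.univ.erase i, l k ≤ J := by
      intro k hk
      by_contra hk2
      exact hcon k hk (Finset.mem_filter.2 ⟨hl1, hl2, by omega⟩)
    have h1 : ∑ k ∈ Finset.univ.erase i, l k ≤ ∑ _k ∈ Finset.univ.erase i, J :=
      Finset.sum_le_sum hlt
    rw [Finset.sum_const, smul_eq_mul] at h1
    have h2 : (Finset.univ.erase i).card * J ≤ d * J := by
      refine Nat.mul_le_mul_right J ?_
      calc (Finset.univ.erase i).card ≤ (Finset.univ : Finset (Fin d)).card :=
            Finset.card_le_card (Finset.erase_subset _ _)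
        _ = d := by rw [Finset.card_univ, Fintype.card_fin]
    rw [mem_T] at hl1
    have e4 := sum_split l i
    omega
  have hJ : (0:ℝ) ≤ J := Nat.cast_nonneg J
  calc J * ∑ l ∈ (T d (n + 1)).filter (fun l => l i < m), W s l
      ≤ J * ∑ k ∈ Finset.univ.erase i,
          ∑ l ∈ (T d (n + 1)).filter (fun l => l i < m ∧ J ≤ l k), W s l := by
        refine mul_le_mul_of_nonneg_left ?_ hJ
        refine (Finset.sum_le_sum_of_subset_of_nonneg hsub fun l _ _ => W_nonneg hs l).trans ?_
        exact sum_biUnion_le _ _ _ (W_nonneg hs)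
    _ = ∑ k ∈ Finset.univ.erase i,
          J * ∑ l ∈ (T d (n + 1)).filter (fun l => l i < m ∧ J ≤ l k), W s l := by
        rw [Finset.mul_sum]
    _ ≤ ∑ _k ∈ Finset.univ.erase i, K * s 1 * C s d n := by
        refine Finset.sum_le_sum fun k hk => ?_
        exact small_pair hs hmul hK0 hK n J i k (Finset.ne_of_mem_erase hk)
    _ ≤ ∑ _k : Fin d, K * s 1 * C s d n := by
        refine Finset.sum_le_sum_of_subset_of_nonneg (Finset.erase_subset _ _) fun k _ _ => ?_
        exact mul_nonneg (mul_nonneg hK0 (hs 1)) (C_nonneg hs n)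
    _ = d * (K * s 1 * C s d n) := by
        rw [Finset.sum_const, Finset.card_univ, Fintype.card_fin, nsmul_eq_mul]

lemma C_eq_sum (s : ℕ → ℝ) (d n : ℕ) : C s d n = ∑ j ∈ Finset.range (n + 1), c s d j := by
  classical
  unfold C c
  rw [← Finset.sum_fiberwise_of_maps_to (s := Tle d n) (t := Finset.range (n + 1))
    (g := fun l : Fin d → ℕ => ∑ i, l i)]
  · refine Finset.sum_congr rfl fun j hj => ?_
    refine Finset.sum_congr ?_ fun l _ => rfl
    ext l
    rw [Finset.mem_filter, mem_Tle, mem_T]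
    rw [Finset.mem_range] at hj
    constructor
    · exact fun h => h.2
    · intro h
      exact ⟨by omega, h⟩
  · intro l hl
    rw [mem_Tle] at hl
    rw [Finset.mem_range]
    omega

lemma c_nonneg {d : ℕ} {s : ℕ → ℝ} (hs : ∀ n, 0 ≤ s n) (n : ℕ) : 0 ≤ c s d n :=
  Finset.sum_nonneg fun l _ => W_nonneg hs l

lemma sum_c_le {d : ℕ} {s : ℕ → ℝ} (hs : ∀ n, 0 ≤ s n) {n M : ℕ} (hM : M ≤ n) :
    ∑ m ∈ Finset.range M, c s d (n - m) ≤ C s d n := by
  classical
  rw [C_eq_sum]
  refine sum_le_of_inj _ _ (fun m => n - m) _ _ ?_ ?_ ?_ ?_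
  · intro m hm
    rw [Finset.mem_range] at hm ⊢
    omega
  · intro m hm m' hm' h
    rw [Finset.mem_range] at hm hm'
    omega
  · intro m _
    exact le_refl _
  · intro j _
    exact c_nonneg hs j

lemma C_mono {d : ℕ} {s : ℕ → ℝ} (hs : ∀ n, 0 ≤ s n) {n n' : ℕ} (h : n ≤ n') :
    C s d n ≤ C s d n' := by
  unfold C
  refine Finset.sum_le_sum_of_subset_of_nonneg ?_ fun l _ _ => W_nonneg hs l
  intro l hl
  rw [mem_Tle] at hl ⊢
  omega

/-- one shift -/
lemma one_shift {d : ℕ} {s : ℕ → ℝ} (hs : ∀ n, 0 ≤ s n) (hmul : ∀ i j, s (i + j) ≤ s i * s j)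
    {K : ℝ} (hK0 : 0 < K) {M : ℕ} (hK : ∀ x ≤ M, s x ≤ K) {n J : ℕ} (hn : d * J + M ≤ n)
    (hn2 : d * (d * M) ≤ n) {m : ℕ} (hm : m < M) :
    J * (d * c s d (n + 1)) ≤
      J * (2 * d * c s d (n - m) + K * Real.exp (-(2 * d / K)) *
        ((1 + (Real.exp 1 - 1) / K) ^ d * ((1 + d * s (d * M)) * C s d n))) +
      d * (d * (K * s 1 * C s d n)) := by
  classical
  have he : (0:ℝ) ≤ Real.exp 1 - 1 := by
    have := Real.add_one_le_exp (1:ℝ)
    linarith
  have hκ : (0:ℝ) ≤ (Real.exp 1 - 1) / K := div_nonneg he hK0.le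
  have hJ : (0:ℝ) ≤ J := Nat.cast_nonneg J
  have hnm : n + 1 = (n - m) + (m + 1) := by omega
  have hsplit : ∀ i : Fin d, c s d (n + 1) =
      ∑ l ∈ (T d (n + 1)).filter (fun l => m + 1 ≤ l i), W s l +
      ∑ l ∈ (T d (n + 1)).filter (fun l => l i < m + 1), W s l := by
    intro i
    unfold c
    rw [← Finset.sum_filter_add_sum_filter_not (T d (n + 1)) (fun l => m + 1 ≤ l i)]
    congr 1
    refine Finset.sum_congr ?_ fun l _ => rfl
    ext l
    simp only [Finset.mem_filter, not_le]
  have hbig : ∀ i : Fin d, ∑ l ∈ (T d (n + 1)).filter (fun l => m + 1 ≤ l i), W s l ≤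
      ∑ l ∈ T d (n - m), W s (Function.update l i (l i + (m + 1))) := by
    intro i
    have := shift_le hs (n - m) (m + 1) i
    rwa [← hnm] at this
  have hsum : ∑ i : Fin d, ∑ l ∈ T d (n - m), W s (Function.update l i (l i + (m + 1))) ≤
      2 * d * c s d (n - m) + K * Real.exp (-(2 * d / K)) *
        ((1 + (Real.exp 1 - 1) / K) ^ d * ((1 + d * s (d * M)) * C s d n)) := by
    rw [Finset.sum_comm]
    have hpt : ∀ l ∈ T d (n - m), ∑ i : Fin d, W s (Function.update l i (l i + (m + 1))) ≤
        2 * d * W s l + K * Real.exp (-(2 * d / K)) *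
          ∏ i, (s (l i) + (Real.exp 1 - 1) / K * s (l i + (m + 1))) := by
      intro l _
      have h := sum_le_key (fun i => s (l i)) (fun i => s (l i + (m + 1))) (fun i => hs _)
        (fun i => hs _) hK0 (fun i => by
          have h1 := hmul (l i) (m + 1)
          have h2 := mul_le_mul_of_nonneg_left (hK (m + 1) hm) (hs (l i))
          linarith)
      have h3 : ∑ i : Fin d, W s (Function.update l i (l i + (m + 1))) =
          ∑ i, s (l i + (m + 1)) * ∏ j ∈ Finset.univ.erase i, s (l j) :=
        Finset.sum_congr rfl fun i _ => W_update s l i _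
      rw [h3]
      exact h
    refine (Finset.sum_le_sum hpt).trans ?_
    rw [Finset.sum_add_distrib, ← Finset.mul_sum, ← Finset.mul_sum]
    have hc : ∑ l ∈ T d (n - m), W s l = c s d (n - m) := rfl
    rw [hc]
    have hprod : ∑ l ∈ T d (n - m), ∏ i, (s (l i) + (Real.exp 1 - 1) / K * s (l i + (m + 1))) ≤
        (1 + (Real.exp 1 - 1) / K) ^ d * ((1 + d * s (d * M)) * C s d n) := by
      calc ∑ l ∈ T d (n - m), ∏ i, (s (l i) + (Real.exp 1 - 1) / K * s (l i + (m + 1)))
          ≤ ∑ l ∈ Tle d n, ∏ i, (s (l i) + (Real.exp 1 - 1) / K * s (l i + (m + 1))) := by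
            refine Finset.sum_le_sum_of_subset_of_nonneg ?_ fun l _ _ =>
              Finset.prod_nonneg fun i _ => add_nonneg (hs _) (mul_nonneg hκ (hs _))
            intro l hl
            rw [mem_T] at hl
            rw [mem_Tle]
            omega
        _ ≤ (1 + (Real.exp 1 - 1) / K) ^ d * C s d (n + d * (m + 1)) :=
            sum_prod_le hs hκ n (m + 1)
        _ ≤ _ := by
            refine mul_le_mul_of_nonneg_left ?_ (pow_nonneg (by linarith) _)
            refine (C_mono hs (n' := n + d * M) ?_).trans (C_add_le hs hmul hn2)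
            have := Nat.mul_le_mul_left d (show m + 1 ≤ M from hm)
            omega
    have hKe : 0 ≤ K * Real.exp (-(2 * d / K)) := mul_nonneg hK0.le (Real.exp_pos _).le
    have := mul_le_mul_of_nonneg_left hprod hKe
    linarith
  have hsmall : ∀ i : Fin d, J * ∑ l ∈ (T d (n + 1)).filter (fun l => l i < m + 1), W s l ≤
      d * (K * s 1 * C s d n) := by
    intro i
    exact small_coord hs hmul hK0.le (fun x hx => hK x (by omega)) (by omega) i
  have htot : J * (d * c s d (n + 1)) = ∑ i : Fin d, J * c s d (n + 1) := by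
    rw [Finset.sum_const, Finset.card_univ, Fintype.card_fin, nsmul_eq_mul]
    ring
  rw [htot]
  calc ∑ i : Fin d, J * c s d (n + 1)
      ≤ ∑ i : Fin d, (J * ∑ l ∈ T d (n - m), W s (Function.update l i (l i + (m + 1))) +
          d * (K * s 1 * C s d n)) := by
        refine Finset.sum_le_sum fun i _ => ?_
        have h1 := mul_le_mul_of_nonneg_left (hbig i) hJ
        have h2 := hsmall i
        rw [hsplit i, mul_add]
        linarith
    _ = J * ∑ i : Fin d, ∑ l ∈ T d (n - m), W s (Function.update l i (l i + (m + 1))) +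
          d * (d * (K * s 1 * C s d n)) := by
        rw [Finset.sum_add_distrib, ← Finset.mul_sum, Finset.sum_const, Finset.card_univ,
          Fintype.card_fin, nsmul_eq_mul]
    _ ≤ _ := by
        have := mul_le_mul_of_nonneg_left hsum hJ
        linarith

/-- the combined inequality -/
theorem combined {d : ℕ} {s : ℕ → ℝ} (hs : ∀ n, 0 ≤ s n) (hmul : ∀ i j, s (i + j) ≤ s i * s j)
    {K : ℝ} (hK0 : 0 < K) {M : ℕ} (hK : ∀ x ≤ M, s x ≤ K) {n J : ℕ} (hn : d * J + M ≤ n)
    (hn2 : d * (d * M) ≤ n) :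
    M * (J * (d * c s d (n + 1))) ≤
      J * (2 * d * C s d n + M * (K * Real.exp (-(2 * d / K)) *
        ((1 + (Real.exp 1 - 1) / K) ^ d * ((1 + d * s (d * M)) * C s d n)))) +
      M * (d * (d * (K * s 1 * C s d n))) := by
  have h : ∑ m ∈ Finset.range M, J * (d * c s d (n + 1)) ≤ ∑ m ∈ Finset.range M,
      (J * (2 * d * c s d (n - m) + K * Real.exp (-(2 * d / K)) *
        ((1 + (Real.exp 1 - 1) / K) ^ d * ((1 + d * s (d * M)) * C s d n))) +
      d * (d * (K * s 1 * C s d n))) :=
    Finset.sum_le_sum fun m hm => one_shift hs hmul hK0 hK hn hn2 (Finset.mem_range.1 hm)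
  have hsum := sum_c_le (d := d) hs (show M ≤ n by omega)
  have hJd : (0:ℝ) ≤ J * (2 * d) := by positivity
  rw [Finset.sum_const, Finset.card_range, nsmul_eq_mul, Finset.sum_add_distrib,
    Finset.sum_const, Finset.card_range, nsmul_eq_mul, ← Finset.mul_sum,
    Finset.sum_add_distrib, ← Finset.mul_sum, Finset.sum_const, Finset.card_range,
    nsmul_eq_mul] at h
  have h2 := mul_le_mul_of_nonneg_left hsum hJd
  linarith

end MP799c44
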