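import Mathlib
import Pool.Agent.Lib.MP_799c44_al.Comb

set_option autoImplicit false

/-!
The choice of the parameters.
-/

namespace MP799c44

open Finset

/-- for a submultiplicative sequence of subexponential growth the sums over the tuples of total
`n + 1` are small against the sums over the tuples of total at most `n`, as soon as the number of
coordinates is large -/
theorem tuple_ratio {s : ℕ → ℝ} (hs : ∀ n, 0 ≤ s n) (hmul : ∀ i j, s (i + j) ≤ s i * s j)
    (hsub : ∀ α : ℝ, 0 < α → ∃ x₀ : ℕ, ∀ x ≥ x₀, s x ≤ Real.exp (α * x))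
    {ε : ℝ} (hε : 0 < ε) :
    ∃ d₀ : ℕ, ∀ d ≥ d₀, ∃ n₀ : ℕ, ∀ n ≥ n₀, c s d (n + 1) ≤ ε * C s d n := by
  obtain ⟨M', hM'⟩ := exists_nat_gt (6 / ε)
  set M : ℕ := M' + 1 with hM
  have hMpos : (0:ℝ) < M := by
    rw [hM]
    positivity
  have hMε : 6 ≤ ε * M := by
    rw [div_lt_iff₀ hε] at hM'
    rw [hM]
    push_cast
    nlinarith
  set K : ℝ := 1 + ∑ x ∈ Finset.range (M + 1), s x with hKdef
  have hsumnn : 0 ≤ ∑ x ∈ Finset.range (M + 1), s x := Finset.sum_nonneg fun x _ => hs x
  have hK0 : 0 < K := by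
    rw [hKdef]
    linarith
  have hK : ∀ x ≤ M, s x ≤ K := by
    intro x hx
    have := Finset.single_le_sum (f := s) (fun x _ => hs x) (Finset.mem_range.2 (Nat.lt_succ_of_le hx))
    rw [hKdef]
    linarith
  have he1 : (0:ℝ) ≤ Real.exp 1 - 1 := by
    have := Real.add_one_le_exp (1:ℝ)
    linarith
  have he3 : (0:ℝ) < 3 - Real.exp 1 := by
    have := Real.exp_one_lt_d9
    linarith
  set θ : ℝ := (3 - Real.exp 1) / K with hθ
  have hθ0 : 0 < θ := div_pos he3 hK0
  obtain ⟨x₀, hx₀⟩ := hsub (θ / (2 * M)) (by positivity)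
  obtain ⟨d₁, hd₁⟩ := exists_nat_gt (12 * K / (θ * ε))
  refine ⟨max (max x₀ d₁) 1, fun d hd => ?_⟩
  have hdx : x₀ ≤ d := le_trans (le_trans (le_max_left _ _) (le_max_left _ _)) hd
  have hdd : d₁ ≤ d := le_trans (le_trans (le_max_right _ _) (le_max_left _ _)) hd
  have hd1 : 1 ≤ d := le_trans (le_max_right _ _) hd
  have hd1' : (1:ℝ) ≤ d := by exact_mod_cast hd1
  have hd0 : (0:ℝ) < d := by linarith
  -- the middle term
  have hsdM : s (d * M) ≤ Real.exp (θ * d / 2) := by
    have h1 : x₀ ≤ d * M := by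
      have : d * 1 ≤ d * M := Nat.mul_le_mul_left d (by omega)
      omega
    have h2 := hx₀ (d * M) h1
    refine h2.trans (le_of_eq ?_)
    congr 1
    push_cast
    field_simp
  have hE : θ * d / 2 ≤ Real.exp (θ * d / 2) := by
    have := Real.add_one_le_exp (θ * d / 2)
    linarith
  have hbig : 6 * K / ε ≤ θ * d / 2 := by
    have h1 : 12 * K / (θ * ε) < d := lt_of_lt_of_le hd₁ (by exact_mod_cast hdd)
    rw [div_lt_iff₀ (by positivity)] at h1
    rw [div_le_iff₀ hε]
    nlinarith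
  have hpow : (1 + (Real.exp 1 - 1) / K) ^ d ≤ Real.exp (d * ((Real.exp 1 - 1) / K)) := by
    rw [Real.exp_nat_mul]
    refine pow_le_pow_left₀ (by positivity) ?_ _
    have := Real.add_one_le_exp ((Real.exp 1 - 1) / K)
    linarith
  have hmid : K * Real.exp (-(2 * d / K)) * ((1 + (Real.exp 1 - 1) / K) ^ d *
      (1 + d * s (d * M))) ≤ ε / 3 * d := by
    have h1 : Real.exp (-(2 * d / K)) * (1 + (Real.exp 1 - 1) / K) ^ d ≤
        Real.exp (-(θ * d)) := by
      calc Real.exp (-(2 * d / K)) * (1 + (Real.exp 1 - 1) / K) ^ d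
          ≤ Real.exp (-(2 * d / K)) * Real.exp (d * ((Real.exp 1 - 1) / K)) := by gcongr
        _ = Real.exp (-(θ * d)) := by
            rw [← Real.exp_add]
            congr 1
            rw [hθ]
            ring
    have h2 : 1 + d * s (d * M) ≤ 2 * d * Real.exp (θ * d / 2) := by
      have h3 : (1:ℝ) ≤ Real.exp (θ * d / 2) := Real.one_le_exp (by positivity)
      nlinarith [mul_le_mul_of_nonneg_left hsdM hd0.le, mul_le_mul_of_nonneg_left h3 hd0.le]
    have h4 : Real.exp (-(θ * d)) * (2 * d * Real.exp (θ * d / 2)) =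
        2 * d * Real.exp (-(θ * d / 2)) := by
      have : Real.exp (-(θ * d)) * Real.exp (θ * d / 2) = Real.exp (-(θ * d / 2)) := by
        rw [← Real.exp_add]
        congr 1
        ring
      calc Real.exp (-(θ * d)) * (2 * d * Real.exp (θ * d / 2))
          = 2 * d * (Real.exp (-(θ * d)) * Real.exp (θ * d / 2)) := by ring
        _ = _ := by rw [this]
    have h5 : Real.exp (-(θ * d / 2)) ≤ ε / (6 * K) := by
      rw [Real.exp_neg, inv_le_comm₀ (Real.exp_pos _) (by positivity), inv_div]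
      exact hbig.trans hE
    have hs0 : 0 ≤ s (d * M) := hs _
    calc K * Real.exp (-(2 * d / K)) * ((1 + (Real.exp 1 - 1) / K) ^ d * (1 + d * s (d * M)))
        = K * ((Real.exp (-(2 * d / K)) * (1 + (Real.exp 1 - 1) / K) ^ d) *
            (1 + d * s (d * M))) := by ring
      _ ≤ K * (Real.exp (-(θ * d)) * (2 * d * Real.exp (θ * d / 2))) := by gcongr
      _ = K * (2 * d * Real.exp (-(θ * d / 2))) := by rw [h4]
      _ ≤ K * (2 * d * (ε / (6 * K))) := by gcongr
      _ = ε / 3 * d := by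
          field_simp
          ring
  -- the last term
  obtain ⟨J', hJ'⟩ := exists_nat_gt (3 * (d * (K * s 1)) / ε)
  set J : ℕ := J' + 1 with hJdef
  have hJpos : (0:ℝ) < J := by
    rw [hJdef]
    positivity
  have hJ : d * (K * s 1) ≤ ε / 3 * J := by
    rw [div_lt_iff₀ hε] at hJ'
    rw [hJdef]
    push_cast
    nlinarith
  refine ⟨max (d * J + M) (d * (d * M)), fun n hn => ?_⟩
  have h := combined hs hmul hK0 hK (le_trans (le_max_left _ _) hn) (le_trans (le_max_right _ _) hn)
  have hC : 0 ≤ C s d n := C_nonneg hs n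
  have hc : 0 ≤ c s d (n + 1) := c_nonneg hs _
  have h1 : (J:ℝ) * (2 * d * C s d n) ≤ M * J * d * (ε / 3 * C s d n) := by
    have h6 : (2:ℝ) ≤ ε / 3 * M := by linarith
    calc (J:ℝ) * (2 * d * C s d n) = 2 * (J * d * C s d n) := by ring
      _ ≤ ε / 3 * M * (J * d * C s d n) := by gcongr
      _ = _ := by ring
  have h2 : (J:ℝ) * (M * (K * Real.exp (-(2 * d / K)) *
        ((1 + (Real.exp 1 - 1) / K) ^ d * ((1 + d * s (d * M)) * C s d n)))) ≤
        M * J * d * (ε / 3 * C s d n) := by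
    calc (J:ℝ) * (M * (K * Real.exp (-(2 * d / K)) *
        ((1 + (Real.exp 1 - 1) / K) ^ d * ((1 + d * s (d * M)) * C s d n))))
        = (K * Real.exp (-(2 * d / K)) * ((1 + (Real.exp 1 - 1) / K) ^ d *
          (1 + d * s (d * M)))) * (J * M * C s d n) := by ring
      _ ≤ (ε / 3 * d) * (J * M * C s d n) := by gcongr
      _ = _ := by ring
  have h3 : (M:ℝ) * (d * (d * (K * s 1 * C s d n))) ≤ M * J * d * (ε / 3 * C s d n) := by
    calc (M:ℝ) * (d * (d * (K * s 1 * C s d n))) = (d * (K * s 1)) * (M * d * C s d n) := by ring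
      _ ≤ (ε / 3 * J) * (M * d * C s d n) := by gcongr
      _ = _ := by ring
  have h4 : M * J * d * c s d (n + 1) ≤ M * J * d * (ε * C s d n) := by
    have e1 : M * J * d * c s d (n + 1) = (M:ℝ) * (J * (d * c s d (n + 1))) := by ring
    rw [e1]
    refine h.trans ?_
    have e2 : M * J * d * (ε * C s d n) = M * J * d * (ε / 3 * C s d n) +
        M * J * d * (ε / 3 * C s d n) + M * J * d * (ε / 3 * C s d n) := by ring
    rw [e2, mul_add]
    linarith
  exact le_of_mul_le_mul_left h4 (by positivity)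

end MP799c44
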