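import Mathlib
import Pool.Agent.Lib.MP_799c44_al.Analytic

set_option autoImplicit false

/-!
Word balls of a group and of its direct powers.
-/

namespace MP799c44

open Finset

variable {G : Type*} [Group G]

/-- the ball of radius `n` for the word length -/
def WB (S : Set G) (n : ℕ) : Set G :=
  {g : G | ∃ l : List G, l.length ≤ n ∧ (∀ x ∈ l, x ∈ S ∨ x⁻¹ ∈ S) ∧ l.prod = g}

/-- the copies of `S` in the coordinates of the direct power -/
def PG (S : Set G) (d : ℕ) : Set (Fin d → G) :=
  {f | ∃ (i : Fin d) (x : G), x ∈ S ∧ f = Pi.mulSingle i x}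

lemma WB_mono (S : Set G) {n m : ℕ} (h : n ≤ m) : WB S n ⊆ WB S m := by
  rintro g ⟨l, hl, hl2, hl3⟩
  exact ⟨l, hl.trans h, hl2, hl3⟩

lemma one_mem_WB (S : Set G) (n : ℕ) : (1 : G) ∈ WB S n :=
  ⟨[], Nat.zero_le _, by simp, rfl⟩

lemma mem_WB_zero {S : Set G} {g : G} : g ∈ WB S 0 ↔ g = 1 := by
  constructor
  · rintro ⟨l, hl, -, hl3⟩
    have : l = [] := List.eq_nil_of_length_eq_zero (by omega)
    subst this
    exact hl3.symm
  · rintro rfl
    exact one_mem_WB S 0

lemma gen_mem_WB {S : Set G} {x : G} (hx : x ∈ S ∨ x⁻¹ ∈ S) : x ∈ WB S 1 :=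
  ⟨[x], le_refl _, by simpa using hx, by simp⟩

lemma mul_mem_WB {S : Set G} {g h : G} {i j : ℕ} (hg : g ∈ WB S i) (hh : h ∈ WB S j) :
    g * h ∈ WB S (i + j) := by
  obtain ⟨l, hl, hl2, rfl⟩ := hg
  obtain ⟨l', hl', hl2', rfl⟩ := hh
  refine ⟨l ++ l', by rw [List.length_append]; omega, ?_, List.prod_append⟩
  intro x hx
  rcases List.mem_append.1 hx with h | h
  · exact hl2 x h
  · exact hl2' x h

lemma inv_mem_WB {S : Set G} {g : G} {i : ℕ} (hg : g ∈ WB S i) : g⁻¹ ∈ WB S i := by
  obtain ⟨l, hl, hl2, rfl⟩ := hg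
  refine ⟨(l.map fun x => x⁻¹).reverse, by simpa using hl, ?_, (List.prod_inv_reverse l).symm⟩
  intro x hx
  rw [List.mem_reverse, List.mem_map] at hx
  obtain ⟨y, hy, rfl⟩ := hx
  rw [inv_inv]
  exact (hl2 y hy).symm

lemma split_mem_WB {S : Set G} {g : G} {i j : ℕ} (hg : g ∈ WB S (i + j)) :
    ∃ a ∈ WB S i, ∃ b ∈ WB S j, g = a * b := by
  obtain ⟨l, hl, hl2, rfl⟩ := hg
  refine ⟨(l.take i).prod, ⟨l.take i, ?_, ?_, rfl⟩, (l.drop i).prod, ⟨l.drop i, ?_, ?_, rfl⟩, ?_⟩
  · rw [List.length_take]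
    omega
  · exact fun x hx => hl2 x (List.mem_of_mem_take hx)
  · rw [List.length_drop]
    omega
  · exact fun x hx => hl2 x (List.mem_of_mem_drop hx)
  · rw [← List.prod_append, List.take_append_drop]

lemma mem_WB_one {S : Set G} {g : G} (hg : g ∈ WB S 1) : g = 1 ∨ g ∈ S ∨ g⁻¹ ∈ S := by
  obtain ⟨l, hl, hl2, rfl⟩ := hg
  rcases l with _ | ⟨x, _ | ⟨y, l⟩⟩
  · exact Or.inl rfl
  · right
    simpa using hl2 x (by simp)
  · simp at hl

lemma WB_finite {S : Set G} (hS : S.Finite) (n : ℕ) : (WB S n).Finite := by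
  induction n with
  | zero =>
    refine (Set.finite_singleton (1 : G)).subset ?_
    intro g hg
    exact mem_WB_zero.1 hg
  | succ n ih =>
    have h1 : (WB S 1).Finite := by
      refine ((Set.finite_singleton (1 : G)).union (hS.union hS.inv)).subset ?_
      intro g hg
      rcases mem_WB_one hg with h | h | h
      · exact Or.inl h
      · exact Or.inr (Or.inl h)
      · exact Or.inr (Or.inr h)
    refine (Set.Finite.image2 (fun a b => a * b) ih h1).subset ?_
    intro g hg
    obtain ⟨a, ha, b, hb, rfl⟩ := split_mem_WB hg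
    exact ⟨a, ha, b, hb, rfl⟩

lemma exists_mem_WB {S : Set G} (hS : Subgroup.closure S = ⊤) (g : G) : ∃ n, g ∈ WB S n := by
  have hg : g ∈ Subgroup.closure S := hS ▸ Subgroup.mem_top g
  refine Subgroup.closure_induction (p := fun g _ => ∃ n, g ∈ WB S n) ?_ ?_ ?_ ?_ hg
  · exact fun x hx => ⟨1, gen_mem_WB (Or.inl hx)⟩
  · exact ⟨0, one_mem_WB S 0⟩
  · rintro x y - - ⟨n, hn⟩ ⟨m, hm⟩
    exact ⟨n + m, mul_mem_WB hn hm⟩
  · rintro x - ⟨n, hn⟩
    exact ⟨n, inv_mem_WB hn⟩

/-- the word length -/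
noncomputable def len (S : Set G) (g : G) : ℕ := sInf {n | g ∈ WB S n}

lemma len_mem {S : Set G} (hS : Subgroup.closure S = ⊤) (g : G) : g ∈ WB S (len S g) :=
  Nat.sInf_mem (s := {n | g ∈ WB S n}) (exists_mem_WB hS g)

lemma len_le {S : Set G} {g : G} {n : ℕ} (hg : g ∈ WB S n) : len S g ≤ n :=
  Nat.sInf_le (s := {n | g ∈ WB S n}) hg

lemma mem_WB_iff {S : Set G} (hS : Subgroup.closure S = ⊤) {g : G} {n : ℕ} :
    g ∈ WB S n ↔ len S g ≤ n :=
  ⟨len_le, fun h => WB_mono S h (len_mem hS g)⟩

lemma len_one (S : Set G) : len S (1 : G) = 0 := Nat.le_zero.1 (len_le (one_mem_WB S 0))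

lemma len_eq_zero {S : Set G} (hS : Subgroup.closure S = ⊤) {g : G} (h : len S g = 0) : g = 1 := by
  have := len_mem hS g
  rw [h] at this
  exact mem_WB_zero.1 this

lemma len_mul_le {S : Set G} (hS : Subgroup.closure S = ⊤) (g h : G) :
    len S (g * h) ≤ len S g + len S h :=
  len_le (mul_mem_WB (len_mem hS g) (len_mem hS h))

lemma exists_split {S : Set G} (hS : Subgroup.closure S = ⊤) {g : G} {i j : ℕ}
    (hg : len S g = i + j) : ∃ a b, len S a = i ∧ len S b = j ∧ g = a * b := by
  have h1 := len_mem hS g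
  rw [hg] at h1
  obtain ⟨a, ha, b, hb, rfl⟩ := split_mem_WB h1
  have h2 := len_le ha
  have h3 := len_le hb
  have h4 := len_mul_le hS a b
  exact ⟨a, b, by omega, by omega, rfl⟩

lemma sphere_finite {S : Set G} (hS : Subgroup.closure S = ⊤) (hf : S.Finite) (n : ℕ) :
    {g : G | len S g = n}.Finite := by
  refine (WB_finite hf n).subset ?_
  intro g hg
  exact (mem_WB_iff hS).2 (le_of_eq hg)

/-- the number of elements of length `n` -/
noncomputable def sph (S : Set G) (n : ℕ) : ℝ := ({g : G | len S g = n}.ncard : ℝ)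

lemma sph_nonneg (S : Set G) (n : ℕ) : 0 ≤ sph S n := Nat.cast_nonneg _

lemma sph_add_le {S : Set G} (hS : Subgroup.closure S = ⊤) (hf : S.Finite) (i j : ℕ) :
    sph S (i + j) ≤ sph S i * sph S j := by
  unfold sph
  have hfi := sphere_finite hS hf i
  have hfj := sphere_finite hS hf j
  have h1 : {g : G | len S g = i + j} ⊆
      (fun p : G × G => p.1 * p.2) '' ({g : G | len S g = i} ×ˢ {g : G | len S g = j}) := by
    intro g hg
    obtain ⟨a, b, ha, hb, rfl⟩ := exists_split hS hg
    exact ⟨(a, b), ⟨ha, hb⟩, rfl⟩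
  have h2 := Set.ncard_le_ncard h1 ((hfi.prod hfj).image _)
  have h3 := Set.ncard_image_le (f := fun p : G × G => p.1 * p.2) (hfi.prod hfj)
  rw [Set.ncard_prod] at h3
  exact_mod_cast h2.trans h3

lemma sph_le_ball {S : Set G} (hS : Subgroup.closure S = ⊤) (hf : S.Finite) (n : ℕ) :
    sph S n ≤ ((WB S n).ncard : ℝ) := by
  unfold sph
  refine Nat.cast_le.2 (Set.ncard_le_ncard ?_ (WB_finite hf n))
  intro g hg
  exact (mem_WB_iff hS).2 (le_of_eq hg)

lemma sph_subexp {S : Set G} (hS : Subgroup.closure S = ⊤) (hf : S.Finite)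
    (hsub : Filter.Tendsto (fun n : ℕ => ((WB S n).ncard : ℝ) ^ ((1 : ℝ) / (n : ℝ)))
      Filter.atTop (nhds 1)) (α : ℝ) (hα : 0 < α) :
    ∃ x₀ : ℕ, ∀ x ≥ x₀, sph S x ≤ Real.exp (α * x) := by
  have h1 : (1:ℝ) < Real.exp α := by
    have := Real.add_one_le_exp α
    linarith
  have h2 := hsub.eventually (gt_mem_nhds h1)
  obtain ⟨x₀, hx₀⟩ := Filter.eventually_atTop.1 h2
  refine ⟨max x₀ 1, fun x hx => ?_⟩
  have hx1 : 1 ≤ x := le_trans (le_max_right _ _) hx
  have hx1' : (x:ℝ) ≠ 0 := by
    have : (1:ℝ) ≤ x := by exact_mod_cast hx1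
    linarith
  have h3 := hx₀ x (le_trans (le_max_left _ _) hx)
  have hb0 : (0:ℝ) ≤ ((WB S x).ncard : ℝ) := Nat.cast_nonneg _
  have h4 : (((WB S x).ncard : ℝ) ^ ((1 : ℝ) / (x : ℝ))) ^ (x : ℝ) ≤ (Real.exp α) ^ (x : ℝ) :=
    Real.rpow_le_rpow (Real.rpow_nonneg hb0 _) h3.le (Nat.cast_nonneg _)
  rw [← Real.rpow_mul hb0, one_div_mul_cancel hx1', Real.rpow_one, ← Real.exp_mul] at h4
  exact (sph_le_ball hS hf x).trans h4

/-- the ball of the direct power -/
lemma mem_WB_PG {S : Set G} (hS : Subgroup.closure S = ⊤) {d n : ℕ} {g : Fin d → G} :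
    g ∈ WB (PG S d) n ↔ ∑ i, len S (g i) ≤ n := by
  classical
  constructor
  · rintro ⟨l, hl, hl2, rfl⟩
    have key : ∀ l : List (Fin d → G), (∀ x ∈ l, x ∈ PG S d ∨ x⁻¹ ∈ PG S d) →
        ∑ i, len S (l.prod i) ≤ l.length := by
      intro l
      induction l with
      | nil =>
        intro _
        simp [len_one]
      | cons x l ih =>
        intro h
        have h1 : ∑ i, len S (x i) ≤ 1 := by
          have hx := h x (by simp)
          have : ∃ (i : Fin d) (y : G), (y ∈ S ∨ y⁻¹ ∈ S) ∧ x = Pi.mulSingle i y := by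
            rcases hx with ⟨i, y, hy, hxy⟩ | ⟨i, y, hy, hxy⟩
            · exact ⟨i, y, Or.inl hy, hxy⟩
            · refine ⟨i, y⁻¹, Or.inr (by rwa [inv_inv]), ?_⟩
              rw [← inv_inv x, hxy, Pi.mulSingle_inv]
          obtain ⟨i, y, hy, rfl⟩ := this
          rw [Finset.sum_eq_single i]
          · rw [Pi.mulSingle_eq_same]
            exact len_le (gen_mem_WB hy)
          · intro j _ hj
            rw [Pi.mulSingle_eq_of_ne hj, len_one]
          · intro hi
            exact absurd (Finset.mem_univ i) hi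
        have h2 := ih (fun y hy => h y (by simp [hy]))
        rw [List.prod_cons, List.length_cons]
        calc ∑ i, len S ((x * l.prod) i) ≤ ∑ i, (len S (x i) + len S (l.prod i)) :=
              Finset.sum_le_sum fun i _ => len_mul_le hS _ _
          _ = ∑ i, len S (x i) + ∑ i, len S (l.prod i) := Finset.sum_add_distrib
          _ ≤ l.length + 1 := by omega
    exact (key l hl2).trans hl
  · induction n generalizing g with
    | zero =>
      intro h
      rw [mem_WB_zero]
      funext i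
      have := Finset.single_le_sum (f := fun j => len S (g j)) (fun j _ => Nat.zero_le _)
        (Finset.mem_univ i)
      exact len_eq_zero hS (by omega)
    | succ n ih =>
      intro h
      by_cases h1 : ∑ i, len S (g i) ≤ n
      · exact WB_mono _ (Nat.le_succ n) (ih h1)
      · have h2 : ∃ i, len S (g i) ≠ 0 := by
          by_contra hcon
          push Not at hcon
          exact h1 (by simp [hcon])
        obtain ⟨i, hi⟩ := h2
        obtain ⟨a, b, ha, hb, hab⟩ := exists_split hS (g := g i) (i := 1) (j := len S (g i) - 1)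
          (by omega)
        have h3 : g = Pi.mulSingle i a * Function.update g i b := by
          funext j
          rw [Pi.mul_apply]
          by_cases hj : j = i
          · subst hj
            rw [Pi.mulSingle_eq_same, Function.update_self, hab]
          · rw [Pi.mulSingle_eq_of_ne hj, Function.update_of_ne hj, one_mul]
        have h4 : Function.update g i b ∈ WB (PG S d) n := by
          refine ih ?_
          have e1 : ∑ j, len S (Function.update g i b j) =
              len S b + ∑ j ∈ Finset.univ.erase i, len S (g j) := by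
            rw [← Finset.add_sum_erase _ (fun j => len S (Function.update g i b j))
              (Finset.mem_univ i), Function.update_self]
            congr 1
            refine Finset.sum_congr rfl fun j hj => ?_
            rw [Function.update_of_ne (Finset.ne_of_mem_erase hj)]
          have e2 : ∑ j, len S (g j) =
              len S (g i) + ∑ j ∈ Finset.univ.erase i, len S (g j) :=
            (Finset.add_sum_erase _ (fun j => len S (g j)) (Finset.mem_univ i)).symm
          omega
        have h5 : (Pi.mulSingle i a : Fin d → G) ∈ WB (PG S d) 1 := by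
          have ha1 := len_mem hS a
          rw [ha] at ha1
          rcases mem_WB_one ha1 with h | h | h
          · rw [h, Pi.mulSingle_one]
            exact one_mem_WB _ _
          · exact gen_mem_WB (Or.inl ⟨i, a, h, rfl⟩)
          · exact gen_mem_WB (Or.inr ⟨i, a⁻¹, h, by rw [Pi.mulSingle_inv]⟩)
        have h6 := mul_mem_WB h5 h4
        rw [← h3, Nat.add_comm] at h6
        exact h6

/-- counting the tuples of group elements over a set of length vectors -/
lemma ncard_tuples {S : Set G} (hS : Subgroup.closure S = ⊤) (hf : S.Finite) {d : ℕ}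
    (P : Finset (Fin d → ℕ)) :
    (({g : Fin d → G | (fun i => len S (g i)) ∈ P}.ncard : ℕ) : ℝ) = ∑ l ∈ P, W (sph S) l := by
  classical
  set F : ℕ → Finset G := fun n => (sphere_finite hS hf n).toFinset with hF
  have hmemF : ∀ n g, g ∈ F n ↔ len S g = n := by
    intro n g
    rw [hF]
    simp
  have hcard : ∀ n, ((F n).card : ℝ) = sph S n := by
    intro n
    unfold sph
    rw [Set.ncard_eq_toFinset_card _ (sphere_finite hS hf n)]
  have hset : {g : Fin d → G | (fun i => len S (g i)) ∈ P} =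
      ((P.biUnion fun l => Fintype.piFinset fun i => F (l i) : Finset (Fin d → G)) :
        Set (Fin d → G)) := by
    ext g
    simp only [Set.mem_ofPred_eq, Finset.coe_biUnion, Set.mem_iUnion, Finset.mem_coe,
      Fintype.mem_piFinset, hmemF, exists_prop]
    constructor
    · intro h
      exact ⟨_, h, fun i => rfl⟩
    · rintro ⟨l, hl, h⟩
      have : (fun i => len S (g i)) = l := funext h
      rwa [this]
  rw [hset, Set.ncard_coe_finset, Finset.card_biUnion]
  · push_cast
    refine Finset.sum_congr rfl fun l _ => ?_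
    rw [Fintype.card_piFinset]
    unfold W
    push_cast
    exact Finset.prod_congr rfl fun i _ => hcard _
  · intro l _ l' _ hll
    rw [Function.onFun, Finset.disjoint_left]
    intro g hg hg'
    rw [Fintype.mem_piFinset] at hg hg'
    refine hll (funext fun i => ?_)
    rw [← (hmemF _ _).1 (hg i), ← (hmemF _ _).1 (hg' i)]

lemma ball_power {S : Set G} (hS : Subgroup.closure S = ⊤) (hf : S.Finite) (d n : ℕ) :
    ((WB (PG S d) n).ncard : ℝ) = C (sph S) d n := by
  have h := ncard_tuples hS hf (Tle d n)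
  have hset : {g : Fin d → G | (fun i => len S (g i)) ∈ Tle d n} = WB (PG S d) n := by
    ext g
    rw [mem_WB_PG hS, Set.mem_ofPred_eq, mem_Tle]
  rw [hset] at h
  exact h

lemma sphere_power {S : Set G} (hS : Subgroup.closure S = ⊤) (hf : S.Finite) (d n : ℕ) :
    ((WB (PG S d) (n + 1) \ WB (PG S d) n).ncard : ℝ) = c (sph S) d (n + 1) := by
  have h := ncard_tuples hS hf (T d (n + 1))
  have hset : {g : Fin d → G | (fun i => len S (g i)) ∈ T d (n + 1)} =
      WB (PG S d) (n + 1) \ WB (PG S d) n := by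
    ext g
    rw [Set.mem_sdiff, mem_WB_PG hS, mem_WB_PG hS, Set.mem_ofPred_eq, mem_T]
    omega
  rw [hset] at h
  exact h

/-- the theorem on direct powers -/
theorem direct_powers {S : Set G} (hS : Subgroup.closure S = ⊤) (hf : S.Finite)
    (hsub : Filter.Tendsto (fun n : ℕ => ((WB S n).ncard : ℝ) ^ ((1 : ℝ) / (n : ℝ)))
      Filter.atTop (nhds 1)) {ε : ℝ} (hε : 0 < ε) :
    ∃ d₀ : ℕ, ∀ d ≥ d₀, ∀ᶠ n : ℕ in Filter.atTop,
      ((WB (PG S d) (n + 1) \ WB (PG S d) n).ncard : ℝ) ≤ ε * ((WB (PG S d) n).ncard : ℝ) := by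
  obtain ⟨d₀, hd₀⟩ := tuple_ratio (sph_nonneg S) (sph_add_le hS hf) (sph_subexp hS hf hsub) hε
  refine ⟨d₀, fun d hd => ?_⟩
  obtain ⟨n₀, hn₀⟩ := hd₀ d hd
  filter_upwards [Filter.eventually_ge_atTop n₀] with n hn
  rw [sphere_power hS hf, ball_power hS hf]
  exact hn₀ n hn

end MP799c44
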