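import Mathlib
import Pool.Agent.Lib.MP_799c44_al.Grp

set_option autoImplicit false

/-!
Word balls in permutational wreath products.
-/

namespace MP799c44

open Finset SemidirectProduct

variable {Γ X H : Type*} [Group Γ] [MulAction Γ X] [DecidableEq X] [Group H]

/-- the points visited by a word -/
def visit (x₀ : X) : List Γ → Finset X
  | [] => {x₀}
  | s :: l => insert x₀ ((visit x₀ l).image fun x => s • x)

/-- the generating set of the wreath product -/
def WG (x₀ : X) (S : Set Γ) (T : Set H) : Set ((X → H) ⋊[mulAutArrow] Γ) :=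
  {w | (∃ s ∈ S, w = inr s) ∨ ∃ h ∈ T, w = inl (Pi.mulSingle x₀ h)}

/-- the element `γ` is the product of a word of length at most `j` visiting `Y` -/
def Reach (x₀ : X) (S : Set Γ) (Y : Finset X) (γ : Γ) (j : ℕ) : Prop :=
  ∃ l : List Γ, l.length ≤ j ∧ (∀ s ∈ l, s ∈ S ∨ s⁻¹ ∈ S) ∧ l.prod = γ ∧ Y ⊆ visit x₀ l

lemma start_mem_visit (x₀ : X) (l : List Γ) : x₀ ∈ visit x₀ l := by
  cases l with
  | nil => simp [visit]
  | cons s l => simp [visit]

lemma Reach.mono {x₀ : X} {S : Set Γ} {Y Y' : Finset X} {γ : Γ} {j j' : ℕ}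
    (h : Reach x₀ S Y γ j) (hY : Y' ⊆ Y) (hj : j ≤ j') : Reach x₀ S Y' γ j' := by
  obtain ⟨l, h1, h2, h3, h4⟩ := h
  exact ⟨l, h1.trans hj, h2, h3, hY.trans h4⟩

lemma Reach.start {x₀ : X} {S : Set Γ} {Y : Finset X} {γ : Γ} {j : ℕ}
    (h : Reach x₀ S Y γ j) : Reach x₀ S (insert x₀ Y) γ j := by
  obtain ⟨l, h1, h2, h3, h4⟩ := h
  exact ⟨l, h1, h2, h3, Finset.insert_subset (start_mem_visit x₀ l) h4⟩

lemma Reach.cons {x₀ : X} {S : Set Γ} {Y : Finset X} {γ s : Γ} {j : ℕ}
    (h : Reach x₀ S Y γ j) (hs : s ∈ S ∨ s⁻¹ ∈ S) :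
    Reach x₀ S (Y.image fun x => s • x) (s * γ) (j + 1) := by
  obtain ⟨l, h1, h2, h3, h4⟩ := h
  refine ⟨s :: l, by rw [List.length_cons]; omega, ?_, by rw [List.prod_cons, h3], ?_⟩
  · intro t ht
    rcases List.mem_cons.1 ht with rfl | ht
    · exact hs
    · exact h2 t ht
  · exact (Finset.image_subset_image h4).trans (Finset.subset_insert _ _)

/-- the element is written with a word of length at most `n` -/
def Cost (x₀ : X) (S : Set Γ) (T : Set H) (f : X → H) (γ : Γ) (n : ℕ) : Prop :=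
  ∃ (Y : Finset X) (j : ℕ), (∀ x, f x ≠ 1 → x ∈ Y) ∧ Reach x₀ S Y γ j ∧
    j + ∑ x ∈ Y, len T (f x) ≤ n

lemma Cost.inr_cons {x₀ : X} {S : Set Γ} {T : Set H} {f : X → H} {γ s : Γ} {n : ℕ}
    (h : Cost x₀ S T f γ n) (hs : s ∈ S ∨ s⁻¹ ∈ S) :
    Cost x₀ S T (fun x => f (s⁻¹ • x)) (s * γ) (n + 1) := by
  obtain ⟨Y, j, h1, h2, h3⟩ := h
  refine ⟨Y.image fun x => s • x, j + 1, ?_, h2.cons hs, ?_⟩
  · intro x hx
    exact Finset.mem_image.2 ⟨s⁻¹ • x, h1 _ hx, smul_inv_smul s x⟩
  · rw [Finset.sum_image fun x _ y _ hxy => MulAction.injective s hxy]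
    simp only [inv_smul_smul]
    omega

lemma Cost.inl_cons {x₀ : X} {S : Set Γ} {T : Set H} (hT : Subgroup.closure T = ⊤) {f : X → H}
    {γ : Γ} {h : H} {n m : ℕ} (hc : Cost x₀ S T f γ n) (hh : len T h ≤ m) :
    Cost x₀ S T (Pi.mulSingle x₀ h * f) γ (n + m) := by
  obtain ⟨Y, j, h1, h2, h3⟩ := hc
  refine ⟨insert x₀ Y, j, ?_, h2.start, ?_⟩
  · intro x hx
    by_cases hx0 : x = x₀
    · exact hx0 ▸ Finset.mem_insert_self _ _
    · rw [Pi.mul_apply, Pi.mulSingle_eq_of_ne hx0, one_mul] at hx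
      exact Finset.mem_insert_of_mem (h1 x hx)
  · have e1 : ∑ x ∈ insert x₀ Y, len T ((Pi.mulSingle x₀ h * f : X → H) x) ≤
        len T h + ∑ x ∈ Y, len T (f x) := by
      by_cases hx0 : x₀ ∈ Y
      · rw [Finset.insert_eq_of_mem hx0, ← Finset.add_sum_erase _ _ hx0,
          ← Finset.add_sum_erase Y (fun x => len T (f x)) hx0]
        have e2 : ∑ x ∈ Y.erase x₀, len T ((Pi.mulSingle x₀ h * f : X → H) x) =
            ∑ x ∈ Y.erase x₀, len T (f x) := by
          refine Finset.sum_congr rfl fun x hx => ?_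
          rw [Pi.mul_apply, Pi.mulSingle_eq_of_ne (Finset.ne_of_mem_erase hx), one_mul]
        have e3 : len T ((Pi.mulSingle x₀ h * f : X → H) x₀) ≤ len T h + len T (f x₀) := by
          rw [Pi.mul_apply, Pi.mulSingle_eq_same]
          exact len_mul_le hT _ _
        rw [e2]
        omega
      · have hf : f x₀ = 1 := by
          by_contra hne
          exact hx0 (h1 _ hne)
        rw [Finset.sum_insert hx0]
        have e2 : ∑ x ∈ Y, len T ((Pi.mulSingle x₀ h * f : X → H) x) =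
            ∑ x ∈ Y, len T (f x) := by
          refine Finset.sum_congr rfl fun x hx => ?_
          have hne : x ≠ x₀ := fun hxx => hx0 (hxx ▸ hx)
          rw [Pi.mul_apply, Pi.mulSingle_eq_of_ne hne, one_mul]
        have e3 : len T ((Pi.mulSingle x₀ h * f : X → H) x₀) = len T h := by
          rw [Pi.mul_apply, Pi.mulSingle_eq_same, hf, mul_one]
        rw [e2, e3]
    omega

omit [DecidableEq X] in
lemma inr_mul_left (s : Γ) (w : (X → H) ⋊[mulAutArrow] Γ) :
    (inr s * w).left = fun x => w.left (s⁻¹ • x) := by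
  rw [mul_left, left_inr, one_mul, right_inr]
  rfl

omit [DecidableEq X] in
lemma inl_mul_left (f : X → H) (w : (X → H) ⋊[mulAutArrow] Γ) :
    (inl f * w).left = f * w.left := by
  rw [mul_left, left_inl, right_inl, map_one]
  rfl

lemma cost_one (x₀ : X) (S : Set Γ) (T : Set H) : Cost x₀ S T (1 : X → H) (1 : Γ) 0 := by
  refine ⟨∅, 0, ?_, ⟨[], le_refl _, by simp, rfl, by simp⟩, by simp⟩
  intro x hx
  exact absurd rfl hx

/-- every element of the ball has a cheap word -/
lemma cost_of_mem_WB {x₀ : X} {S : Set Γ} {T : Set H} (hT : Subgroup.closure T = ⊤)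
    {w : (X → H) ⋊[mulAutArrow] Γ} {n : ℕ} (hw : w ∈ WB (WG x₀ S T) n) :
    Cost x₀ S T w.left w.right n := by
  obtain ⟨l, hl, hl2, rfl⟩ := hw
  have key : ∀ l : List ((X → H) ⋊[mulAutArrow] Γ),
      (∀ x ∈ l, x ∈ WG x₀ S T ∨ x⁻¹ ∈ WG x₀ S T) →
      Cost x₀ S T l.prod.left l.prod.right l.length := by
    intro l
    induction l with
    | nil =>
      intro _
      exact cost_one x₀ S T
    | cons c l ih =>
      intro h
      have ih' := ih fun y hy => h y (List.mem_cons_of_mem _ hy)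
      have hc := h c List.mem_cons_self
      have hcase : (∃ s : Γ, (s ∈ S ∨ s⁻¹ ∈ S) ∧ c = inr s) ∨
          ∃ t : H, (t ∈ T ∨ t⁻¹ ∈ T) ∧ c = inl (Pi.mulSingle x₀ t) := by
        rcases hc with (⟨s, hs, hcs⟩ | ⟨t, ht, hct⟩) | (⟨s, hs, hcs⟩ | ⟨t, ht, hct⟩)
        · exact Or.inl ⟨s, Or.inl hs, hcs⟩
        · exact Or.inr ⟨t, Or.inl ht, hct⟩
        · refine Or.inl ⟨s⁻¹, Or.inr (by rwa [inv_inv]), ?_⟩
          rw [map_inv, ← hcs, inv_inv]
        · refine Or.inr ⟨t⁻¹, Or.inr (by rwa [inv_inv]), ?_⟩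
          rw [Pi.mulSingle_inv, map_inv, ← hct, inv_inv]
      rw [List.prod_cons, List.length_cons]
      rcases hcase with ⟨s, hs, rfl⟩ | ⟨t, ht, rfl⟩
      · rw [inr_mul_left, mul_right, right_inr]
        exact ih'.inr_cons hs
      · rw [inl_mul_left, mul_right, right_inl, one_mul]
        exact ih'.inl_cons hT (len_le (gen_mem_WB ht))
  obtain ⟨Y, j, h1, h2, h3⟩ := key l hl2
  exact ⟨Y, j, h1, h2, h3.trans hl⟩

lemma inr_mem_WB {x₀ : X} {S : Set Γ} {T : Set H} {s : Γ} (hs : s ∈ S ∨ s⁻¹ ∈ S) :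
    (inr s : (X → H) ⋊[mulAutArrow] Γ) ∈ WB (WG x₀ S T) 1 := by
  refine gen_mem_WB ?_
  rcases hs with hs | hs
  · exact Or.inl (Or.inl ⟨s, hs, rfl⟩)
  · exact Or.inr (Or.inl ⟨s⁻¹, hs, (map_inv _ _).symm⟩)

lemma inl_mem_WB {x₀ : X} {S : Set Γ} {T : Set H} {h : H} {n : ℕ} (hh : h ∈ WB T n) :
    (inl (Pi.mulSingle x₀ h) : (X → H) ⋊[mulAutArrow] Γ) ∈ WB (WG x₀ S T) n := by
  obtain ⟨l, hl, hl2, rfl⟩ := hh
  have key : ∀ l : List H, (∀ x ∈ l, x ∈ T ∨ x⁻¹ ∈ T) →
      (inl (Pi.mulSingle x₀ l.prod) : (X → H) ⋊[mulAutArrow] Γ) ∈ WB (WG x₀ S T) l.length := by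
    intro l
    induction l with
    | nil =>
      intro _
      rw [List.prod_nil, Pi.mulSingle_one, map_one]
      exact one_mem_WB _ _
    | cons c l ih =>
      intro h
      have ih' := ih fun y hy => h y (List.mem_cons_of_mem _ hy)
      rw [List.prod_cons, List.length_cons, Pi.mulSingle_mul, map_mul, Nat.add_comm]
      refine mul_mem_WB (gen_mem_WB ?_) ih'
      rcases h c List.mem_cons_self with hc | hc
      · exact Or.inl (Or.inr ⟨c, hc, rfl⟩)
      · refine Or.inr (Or.inr ⟨c⁻¹, hc, ?_⟩)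
        rw [Pi.mulSingle_inv, map_inv]
  exact WB_mono _ hl (key l hl2)

/-- a cheap word exists only for elements of the ball -/
lemma mem_WB_of_cost {x₀ : X} {S : Set Γ} {T : Set H} (hT : Subgroup.closure T = ⊤)
    {w : (X → H) ⋊[mulAutArrow] Γ} {n : ℕ} (hw : Cost x₀ S T w.left w.right n) :
    w ∈ WB (WG x₀ S T) n := by
  obtain ⟨Y, j, h1, ⟨l, hl1, hl2, hl3, hl4⟩, h3⟩ := hw
  have key : ∀ (l : List Γ), (∀ s ∈ l, s ∈ S ∨ s⁻¹ ∈ S) → ∀ (Y : Finset X) (f : X → H),
      (∀ x, f x ≠ 1 → x ∈ Y) → Y ⊆ visit x₀ l →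
      (⟨f, l.prod⟩ : (X → H) ⋊[mulAutArrow] Γ) ∈
        WB (WG x₀ S T) (l.length + ∑ x ∈ Y, len T (f x)) := by
    intro l
    induction l with
    | nil =>
      intro _ Y f hf hY
      have hf0 : f = Pi.mulSingle x₀ (f x₀) := by
        funext x
        by_cases hx : x = x₀
        · rw [hx, Pi.mulSingle_eq_same]
        · rw [Pi.mulSingle_eq_of_ne hx]
          by_contra hne
          exact hx (Finset.mem_singleton.1 (hY (hf x hne)))
      have h0 : (⟨f, ([] : List Γ).prod⟩ : (X → H) ⋊[mulAutArrow] Γ) =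
          inl (Pi.mulSingle x₀ (f x₀)) := by
        rw [← hf0]
        rfl
      have hle : len T (f x₀) ≤ ([] : List Γ).length + ∑ x ∈ Y, len T (f x) := by
        by_cases hx0 : x₀ ∈ Y
        · have := Finset.single_le_sum (f := fun x => len T (f x)) (fun x _ => Nat.zero_le _) hx0
          simpa using this
        · have hf1 : f x₀ = 1 := by
            by_contra hne
            exact hx0 (hf _ hne)
          rw [hf1, len_one]
          exact Nat.zero_le _
      rw [h0]
      exact WB_mono _ hle (inl_mem_WB (len_mem hT _))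
    | cons s l ih =>
      intro hl Y f hf hY
      set f' : X → H := fun x => if s • x = x₀ then 1 else f (s • x) with hf'
      set Y' : Finset X := (Y.erase x₀).image fun x => s⁻¹ • x with hY'
      have hs := hl s List.mem_cons_self
      have hw : (⟨f, (s :: l).prod⟩ : (X → H) ⋊[mulAutArrow] Γ) =
          inl (Pi.mulSingle x₀ (f x₀)) * (inr s * ⟨f', l.prod⟩) := by
        refine SemidirectProduct.ext ?_ ?_
        · rw [inl_mul_left, inr_mul_left]
          funext x
          rw [Pi.mul_apply, hf']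
          dsimp only
          rw [smul_inv_smul]
          by_cases hx : x = x₀
          · rw [if_pos hx, hx, Pi.mulSingle_eq_same, mul_one]
          · rw [if_neg hx, Pi.mulSingle_eq_of_ne hx, one_mul]
        · rw [mul_right, mul_right, right_inl, right_inr, one_mul, List.prod_cons]
      have hsupp : ∀ x, f' x ≠ 1 → x ∈ Y' := by
        intro x hx
        rw [hf'] at hx
        dsimp only at hx
        by_cases hsx : s • x = x₀
        · rw [if_pos hsx] at hx
          exact absurd rfl hx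
        · rw [if_neg hsx] at hx
          exact Finset.mem_image.2 ⟨s • x, Finset.mem_erase.2 ⟨hsx, hf _ hx⟩, inv_smul_smul s x⟩
      have hsub : Y' ⊆ visit x₀ l := by
        intro x hx
        obtain ⟨y, hy, rfl⟩ := Finset.mem_image.1 hx
        obtain ⟨hy0, hyY⟩ := Finset.mem_erase.1 hy
        have := hY hyY
        rw [visit, Finset.mem_insert] at this
        rcases this with h | h
        · exact absurd h hy0
        · obtain ⟨z, hz, rfl⟩ := Finset.mem_image.1 h
          rwa [inv_smul_smul]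
      have hsum : ∑ x ∈ Y', len T (f' x) = ∑ x ∈ Y.erase x₀, len T (f x) := by
        rw [hY', Finset.sum_image fun x _ y _ hxy => MulAction.injective s⁻¹ hxy]
        refine Finset.sum_congr rfl fun x hx => ?_
        rw [hf']
        dsimp only
        rw [smul_inv_smul, if_neg (Finset.ne_of_mem_erase hx)]
      have hle : len T (f x₀) + ∑ x ∈ Y.erase x₀, len T (f x) ≤ ∑ x ∈ Y, len T (f x) := by
        by_cases hx0 : x₀ ∈ Y
        · rw [Finset.add_sum_erase Y (fun x => len T (f x)) hx0]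
        · have hf1 : f x₀ = 1 := by
            by_contra hne
            exact hx0 (hf _ hne)
          rw [hf1, len_one, Finset.erase_eq_of_notMem hx0, zero_add]
      have h1 := ih (fun t ht => hl t (List.mem_cons_of_mem _ ht)) Y' f' hsupp hsub
      have h2 := mul_mem_WB (inl_mem_WB (x₀ := x₀) (S := S) (len_mem hT (f x₀)))
        (mul_mem_WB (inr_mem_WB (x₀ := x₀) (T := T) (H := H) hs) h1)
      rw [hw]
      refine WB_mono _ ?_ h2
      rw [hsum, List.length_cons]
      omega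
  have h := key l hl2 Y w.left h1 hl4
  rw [hl3] at h
  refine WB_mono _ ?_ h
  omega

lemma mem_WB_WG {x₀ : X} {S : Set Γ} {T : Set H} (hT : Subgroup.closure T = ⊤)
    {w : (X → H) ⋊[mulAutArrow] Γ} {n : ℕ} :
    w ∈ WB (WG x₀ S T) n ↔ Cost x₀ S T w.left w.right n :=
  ⟨cost_of_mem_WB hT, mem_WB_of_cost hT⟩

end MP799c44
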