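import Mathlib
import Pool.Agent.Lib.MP_799c44_al.Wr

set_option autoImplicit false

/-!
Counting elements of a permutational wreath product by their supports.
-/

namespace MP799c44

open Finset SemidirectProduct

variable {Γ X H : Type*} [Group Γ] [MulAction Γ X] [DecidableEq X] [Group H]

/-- the support, as a finite set -/
noncomputable def sp (f : X → H) : Finset X := by
  classical
  exact if h : {x | f x ≠ 1}.Finite then h.toFinset else ∅

omit [DecidableEq X] in
lemma mem_sp {f : X → H} {Y : Finset X} (hY : ∀ x, f x ≠ 1 → x ∈ Y) {x : X} :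
    x ∈ sp f ↔ f x ≠ 1 := by
  have hfin : {x | f x ≠ 1}.Finite := Y.finite_toSet.subset fun x hx => hY x hx
  unfold sp
  rw [dif_pos hfin]
  simp

omit [DecidableEq X] in
lemma sp_subset {f : X → H} {Y : Finset X} (hY : ∀ x, f x ≠ 1 → x ∈ Y) : sp f ⊆ Y :=
  fun x hx => hY x ((mem_sp hY).1 hx)

lemma cost_iff {x₀ : X} {S : Set Γ} {T : Set H} {f : X → H} {γ : Γ} {n : ℕ} :
    Cost x₀ S T f γ n ↔ (∃ Y : Finset X, ∀ x, f x ≠ 1 → x ∈ Y) ∧
      ∃ j, Reach x₀ S (sp f) γ j ∧ j + ∑ x ∈ sp f, len T (f x) ≤ n := by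
  constructor
  · rintro ⟨Y, j, h1, h2, h3⟩
    refine ⟨⟨Y, h1⟩, j, h2.mono (sp_subset h1) (le_refl _), ?_⟩
    have : ∑ x ∈ sp f, len T (f x) ≤ ∑ x ∈ Y, len T (f x) :=
      Finset.sum_le_sum_of_subset (sp_subset h1)
    omega
  · rintro ⟨⟨Y, h1⟩, j, h2, h3⟩
    exact ⟨sp f, j, fun x hx => (mem_sp h1).2 hx, h2, h3⟩

/-- the total length of the lamps -/
noncomputable def tot (T : Set H) (f : X → H) : ℕ := ∑ x ∈ sp f, len T (f x)

lemma mem_ball_iff {x₀ : X} {S : Set Γ} {T : Set H} (hT : Subgroup.closure T = ⊤)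
    {w : (X → H) ⋊[mulAutArrow] Γ} {n : ℕ} :
    w ∈ WB (WG x₀ S T) n ↔ (∃ Y : Finset X, ∀ x, w.left x ≠ 1 → x ∈ Y) ∧
      ∃ j, Reach x₀ S (sp w.left) w.right j ∧ j + tot T w.left ≤ n := by
  rw [mem_WB_WG hT, cost_iff]
  rfl

lemma WG_finite {x₀ : X} {S : Set Γ} {T : Set H} (hS : S.Finite) (hT : T.Finite) :
    (WG x₀ S T).Finite := by
  have h : WG x₀ S T ⊆ (fun s => (inr s : (X → H) ⋊[mulAutArrow] Γ)) '' S ∪
      (fun t => (inl (Pi.mulSingle x₀ t) : (X → H) ⋊[mulAutArrow] Γ)) '' T := by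
    rintro w (⟨s, hs, rfl⟩ | ⟨t, ht, rfl⟩)
    · exact Or.inl ⟨s, hs, rfl⟩
    · exact Or.inr ⟨t, ht, rfl⟩
  exact ((hS.image _).union (hT.image _)).subset h

/-! ### The lamps with two states -/

/-- the generating set of the group with two elements -/
def T2 : Set (Multiplicative (ZMod 2)) := {Multiplicative.ofAdd 1}

lemma two_cases : ∀ x : Multiplicative (ZMod 2), x = 1 ∨ x = Multiplicative.ofAdd 1 := by
  decide

lemma T2_closure : Subgroup.closure T2 = ⊤ := by
  rw [eq_top_iff]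
  intro x _
  rcases two_cases x with rfl | rfl
  · exact one_mem _
  · exact Subgroup.subset_closure rfl

lemma len_T2 (x : Multiplicative (ZMod 2)) (hx : x ≠ 1) : len T2 x = 1 := by
  have h1 : x = Multiplicative.ofAdd 1 := (two_cases x).resolve_left hx
  have h2 : len T2 x ≤ 1 := len_le (gen_mem_WB (Or.inl (by rw [h1]; rfl)))
  have h3 : len T2 x ≠ 0 := fun h => hx (len_eq_zero T2_closure h)
  omega

/-- the indicator of a finite set, with values in the group with two elements -/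
noncomputable def ind (Y : Finset X) : X → Multiplicative (ZMod 2) :=
  fun x => if x ∈ Y then Multiplicative.ofAdd 1 else 1

lemma ind_ne_one {Y : Finset X} {x : X} : ind Y x ≠ 1 ↔ x ∈ Y := by
  unfold ind
  split_ifs with h
  · simp only [h, iff_true]
    decide
  · simp [h]

lemma sp_ind (Y : Finset X) : sp (ind Y) = Y := by
  ext x
  rw [mem_sp (Y := Y) fun x hx => ind_ne_one.1 hx, ind_ne_one]

lemma ind_injective : Function.Injective (ind : Finset X → X → Multiplicative (ZMod 2)) := by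
  intro Y Y' h
  rw [← sp_ind Y, ← sp_ind Y', h]

lemma tot_ind (Y : Finset X) : tot T2 (ind Y) = Y.card := by
  unfold tot
  rw [sp_ind, Finset.card_eq_sum_ones]
  exact Finset.sum_congr rfl fun x hx => len_T2 _ (ind_ne_one.2 hx)

lemma ind_mem_ball {x₀ : X} {S : Set Γ} {Y : Finset X} {γ : Γ} {n : ℕ} :
    (⟨ind Y, γ⟩ : (X → Multiplicative (ZMod 2)) ⋊[mulAutArrow] Γ) ∈ WB (WG x₀ S T2) n ↔
      ∃ j, Reach x₀ S Y γ j ∧ j + Y.card ≤ n := by
  rw [mem_ball_iff T2_closure]
  dsimp only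
  rw [sp_ind, tot_ind]
  constructor
  · exact fun h => h.2
  · exact fun h => ⟨⟨Y, fun x hx => ind_ne_one.1 hx⟩, h⟩

omit [DecidableEq X] in
lemma card_sp_le_tot {T : Set H} (hT : Subgroup.closure T = ⊤) {f : X → H}
    (hf : ∃ Y : Finset X, ∀ x, f x ≠ 1 → x ∈ Y) : (sp f).card ≤ tot T f := by
  obtain ⟨Y, hY⟩ := hf
  unfold tot
  rw [Finset.card_eq_sum_ones]
  refine Finset.sum_le_sum fun x hx => ?_
  have h1 : f x ≠ 1 := (mem_sp hY).1 hx
  have h2 : len T (f x) ≠ 0 := fun h => h1 (len_eq_zero hT h)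
  omega

/-- the number of lamps is at most the logarithm of the size of the ball with two-state lamps -/
lemma two_pow_card_le {x₀ : X} {S : Set Γ} {T : Set H} (hS : S.Finite)
    (hT : Subgroup.closure T = ⊤) {w : (X → H) ⋊[mulAutArrow] Γ} {n : ℕ}
    (hw : w ∈ WB (WG x₀ S T) n) :
    2 ^ (sp w.left).card ≤ (WB (WG x₀ S T2) n).ncard := by
  obtain ⟨hfin, j, hj, hjn⟩ := (mem_ball_iff hT).1 hw
  have hcard := card_sp_le_tot hT hfin
  have hT2 : (T2).Finite := Set.finite_singleton _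
  rw [← Finset.card_powerset, ← Set.ncard_coe_finset]
  refine Set.ncard_le_ncard_of_injOn
    (fun Y => (⟨ind Y, w.right⟩ : (X → Multiplicative (ZMod 2)) ⋊[mulAutArrow] Γ)) ?_ ?_
    (WB_finite (WG_finite hS hT2) n)
  · intro Y hY
    have hY' : Y ⊆ sp w.left := Finset.mem_powerset.1 hY
    refine ind_mem_ball.2 ⟨j, hj.mono hY' (le_refl _), ?_⟩
    have := Finset.card_le_card hY'
    omega
  · intro Y _ Y' _ h
    exact ind_injective (congrArg SemidirectProduct.left h)

/-! ### Elements with short lamps -/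

lemma sph_le_pow {T : Set H} (hT : Subgroup.closure T = ⊤) (hf : T.Finite) (k : ℕ) :
    sph T k ≤ (max 1 (sph T 1)) ^ k := by
  have hc : (1:ℝ) ≤ max 1 (sph T 1) := le_max_left _ _
  induction k with
  | zero =>
    rw [pow_zero]
    unfold sph
    have h1 : {g : H | len T g = 0} ⊆ {1} := fun g hg => len_eq_zero hT hg
    have h2 := Set.ncard_le_ncard h1 (Set.finite_singleton 1)
    rw [Set.ncard_singleton] at h2
    exact_mod_cast h2
  | succ k ih =>
    calc sph T (k + 1) ≤ sph T k * sph T 1 := sph_add_le hT hf k 1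
      _ ≤ (max 1 (sph T 1)) ^ k * max 1 (sph T 1) :=
        mul_le_mul ih (le_max_right _ _) (sph_nonneg _ _) (by positivity)
      _ = _ := (pow_succ _ _).symm

/-- the generating function of the non-trivial elements -/
lemma sum_tau_le {T : Set H} (hT : Subgroup.closure T = ⊤) (hf : T.Finite) (M : ℕ)
    (B : Finset H) (hB : ∀ h ∈ B, h ≠ 1 ∧ len T h ≤ M) :
    ∑ h ∈ B, ((1:ℝ) / (2 * max 1 (sph T 1))) ^ (len T h) ≤ 1 := by
  classical
  set c : ℝ := max 1 (sph T 1) with hc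
  have hc1 : (1:ℝ) ≤ c := le_max_left _ _
  have h1 : ∑ h ∈ B, ((1:ℝ) / (2 * c)) ^ (len T h) =
      ∑ k ∈ Finset.range M, ∑ h ∈ B with len T h = k + 1, ((1:ℝ) / (2 * c)) ^ (len T h) := by
    rw [← Finset.sum_fiberwise_of_maps_to (s := B) (t := (Finset.range M).image fun k => k + 1)
      (g := fun h => len T h)]
    · rw [Finset.sum_image fun a _ b _ hab => Nat.succ_injective hab]
    · intro h hh
      obtain ⟨h2, h3⟩ := hB h hh
      have h4 : len T h ≠ 0 := fun h5 => h2 (len_eq_zero hT h5)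
      exact Finset.mem_image.2 ⟨len T h - 1, Finset.mem_range.2 (by omega), by omega⟩
  rw [h1]
  have h2 : ∀ k ∈ Finset.range M, ∑ h ∈ B with len T h = k + 1, ((1:ℝ) / (2 * c)) ^ (len T h) ≤
      (1 / 2) ^ (k + 1) := by
    intro k _
    have h3 : ∑ h ∈ B with len T h = k + 1, ((1:ℝ) / (2 * c)) ^ (len T h) =
        (B.filter fun h => len T h = k + 1).card * ((1:ℝ) / (2 * c)) ^ (k + 1) := by
      rw [← nsmul_eq_mul, ← Finset.sum_const]
      refine Finset.sum_congr rfl fun h hh => ?_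
      rw [(Finset.mem_filter.1 hh).2]
    have h4 : ((B.filter fun h => len T h = k + 1).card : ℝ) ≤ c ^ (k + 1) := by
      refine le_trans ?_ (sph_le_pow hT hf (k + 1))
      unfold sph
      rw [← Set.ncard_coe_finset]
      refine Nat.cast_le.2 (Set.ncard_le_ncard ?_ (sphere_finite hT hf _))
      intro h hh
      exact (Finset.mem_filter.1 (Finset.mem_coe.1 hh)).2
    rw [h3]
    calc ((B.filter fun h => len T h = k + 1).card : ℝ) * ((1:ℝ) / (2 * c)) ^ (k + 1)
        ≤ c ^ (k + 1) * ((1:ℝ) / (2 * c)) ^ (k + 1) := by gcongr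
      _ = (1 / 2) ^ (k + 1) := by
          rw [← mul_pow]
          congr 1
          field_simp
  refine (Finset.sum_le_sum h2).trans ?_
  have h5 : ∀ M : ℕ, ∑ k ∈ Finset.range M, ((1:ℝ) / 2) ^ (k + 1) = 1 - (1 / 2) ^ M := by
    intro M
    induction M with
    | zero => simp
    | succ M ih =>
      rw [Finset.sum_range_succ, ih, pow_succ]
      ring
  rw [h5]
  have : (0:ℝ) ≤ (1 / 2) ^ M := by positivity
  linarith

/-- the number of functions with a given support and bounded total length -/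
lemma card_fun_le {T : Set H} (hT : Subgroup.closure T = ⊤) (hf : T.Finite) (Y : Finset X)
    (M : ℕ) (A : Finset (X → H))
    (hA : ∀ f ∈ A, (∀ x, f x ≠ 1 ↔ x ∈ Y) ∧ ∑ x ∈ Y, len T (f x) ≤ M) :
    (A.card : ℝ) ≤ (2 * max 1 (sph T 1)) ^ M := by
  classical
  set c : ℝ := max 1 (sph T 1) with hc
  have hc1 : (1:ℝ) ≤ c := le_max_left _ _
  set B : Finset H := ((WB_finite hf M).toFinset).erase 1 with hB
  have hBmem : ∀ h, h ∈ B ↔ h ≠ 1 ∧ len T h ≤ M := by
    intro h
    rw [hB, Finset.mem_erase, Set.Finite.mem_toFinset, mem_WB_iff hT]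
  have h1 : ∀ f ∈ A, ((1:ℝ) / (2 * c)) ^ M ≤ ∏ x : Y, ((1:ℝ) / (2 * c)) ^ (len T (f x)) := by
    intro f hfA
    obtain ⟨-, h2⟩ := hA f hfA
    rw [Finset.prod_pow_eq_pow_sum]
    have h3 : ∑ x : Y, len T (f x) = ∑ x ∈ Y, len T (f x) :=
      Finset.sum_coe_sort Y fun x => len T (f x)
    rw [h3]
    refine pow_le_pow_of_le_one (by positivity) ?_ h2
    rw [div_le_one (by positivity)]
    linarith
  have h2 : ∑ f ∈ A, ∏ x : Y, ((1:ℝ) / (2 * c)) ^ (len T (f x)) ≤
      ∑ g ∈ Fintype.piFinset fun _ : Y => B, ∏ x : Y, ((1:ℝ) / (2 * c)) ^ (len T (g x)) := by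
    refine sum_le_of_inj A _ (fun f (x : Y) => f x) _ _ ?_ ?_ ?_ ?_
    · intro f hfA
      obtain ⟨h3, h4⟩ := hA f hfA
      rw [Fintype.mem_piFinset]
      intro x
      rw [hBmem]
      refine ⟨(h3 _).2 x.2, ?_⟩
      have := Finset.single_le_sum (f := fun x => len T (f x)) (fun x _ => Nat.zero_le _) x.2
      exact this.trans h4
    · intro f hfA g hgA hfg
      obtain ⟨h3, -⟩ := hA f hfA
      obtain ⟨h3', -⟩ := hA g hgA
      funext x
      by_cases hx : x ∈ Y
      · exact congrFun hfg ⟨x, hx⟩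
      · have e1 : f x = 1 := by
          by_contra hne
          exact hx ((h3 x).1 hne)
        have e2 : g x = 1 := by
          by_contra hne
          exact hx ((h3' x).1 hne)
        rw [e1, e2]
    · intro f _
      exact le_refl _
    · intro g _
      positivity
  have h3 : ∑ g ∈ Fintype.piFinset fun _ : Y => B, ∏ x : Y, ((1:ℝ) / (2 * c)) ^ (len T (g x)) =
      ∏ _x : Y, ∑ h ∈ B, ((1:ℝ) / (2 * c)) ^ (len T h) :=
    (Finset.prod_univ_sum (fun _ : Y => B) fun _ h => ((1:ℝ) / (2 * c)) ^ (len T h)).symm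
  have h4 : ∏ _x : Y, ∑ h ∈ B, ((1:ℝ) / (2 * c)) ^ (len T h) ≤ 1 := by
    refine Finset.prod_le_one (fun x _ => Finset.sum_nonneg fun h _ => by positivity) fun x _ => ?_
    exact sum_tau_le hT hf M B fun h hh => (hBmem h).1 hh
  have h5 : A.card * ((1:ℝ) / (2 * c)) ^ M ≤ 1 := by
    calc A.card * ((1:ℝ) / (2 * c)) ^ M = ∑ _f ∈ A, ((1:ℝ) / (2 * c)) ^ M := by
          rw [Finset.sum_const, nsmul_eq_mul]
      _ ≤ ∑ f ∈ A, ∏ x : Y, ((1:ℝ) / (2 * c)) ^ (len T (f x)) := Finset.sum_le_sum h1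
      _ ≤ 1 := h2.trans (h3.le.trans h4)
  rw [one_div, inv_pow, ← div_eq_mul_inv, div_le_one (by positivity)] at h5
  exact h5

/-- elements of the ball with short lamps -/
lemma card_short_le {x₀ : X} {S : Set Γ} {T : Set H} (hS : S.Finite)
    (hT : Subgroup.closure T = ⊤) (hf : T.Finite) (n M : ℕ)
    (A : Finset ((X → H) ⋊[mulAutArrow] Γ))
    (hA : ∀ w ∈ A, w ∈ WB (WG x₀ S T) n ∧ tot T w.left ≤ M) :
    (A.card : ℝ) ≤ (WB (WG x₀ S T2) n).ncard * (2 * max 1 (sph T 1)) ^ M := by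
  classical
  have hT2 : (T2).Finite := Set.finite_singleton _
  set F : Finset ((X → Multiplicative (ZMod 2)) ⋊[mulAutArrow] Γ) :=
    (WB_finite (WG_finite (x₀ := x₀) hS hT2) n).toFinset with hF
  have hFcard : (F.card : ℝ) = (WB (WG x₀ S T2) n).ncard := by
    rw [Set.ncard_eq_toFinset_card _ (WB_finite (WG_finite (x₀ := x₀) hS hT2) n)]
  have hmaps : ∀ w ∈ A, (⟨ind (sp w.left), w.right⟩ :
      (X → Multiplicative (ZMod 2)) ⋊[mulAutArrow] Γ) ∈ F := by
    intro w hw
    rw [hF, Set.Finite.mem_toFinset, ind_mem_ball]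
    obtain ⟨hfin, j, hj, hjn⟩ := (mem_ball_iff hT).1 (hA w hw).1
    exact ⟨j, hj, by have := card_sp_le_tot hT hfin; omega⟩
  have hfib : ∀ v ∈ F, ((A.filter fun w => (⟨ind (sp w.left), w.right⟩ :
      (X → Multiplicative (ZMod 2)) ⋊[mulAutArrow] Γ) = v).card : ℝ) ≤
        (2 * max 1 (sph T 1)) ^ M := by
    intro v _
    set A' := A.filter fun w => (⟨ind (sp w.left), w.right⟩ :
      (X → Multiplicative (ZMod 2)) ⋊[mulAutArrow] Γ) = v with hA'
    have hinj : Set.InjOn (fun w : (X → H) ⋊[mulAutArrow] Γ => w.left) (A' : Set _) := by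
      intro w hw w' hw' h
      have e1 := (Finset.mem_filter.1 (Finset.mem_coe.1 hw)).2
      have e2 := (Finset.mem_filter.1 (Finset.mem_coe.1 hw')).2
      refine SemidirectProduct.ext h ?_
      exact (congrArg SemidirectProduct.right e1).trans
        (congrArg SemidirectProduct.right e2).symm
    rw [← Finset.card_image_of_injOn hinj]
    refine card_fun_le hT hf (sp v.left) M _ ?_
    intro f hfA
    obtain ⟨w, hw, rfl⟩ := Finset.mem_image.1 hfA
    obtain ⟨hwA, hwv⟩ := Finset.mem_filter.1 hw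
    have hsp : sp v.left = sp w.left := by
      rw [← hwv]
      exact sp_ind _
    obtain ⟨⟨Y, hY⟩, -⟩ := (mem_ball_iff hT).1 (hA w hwA).1
    rw [hsp]
    exact ⟨fun x => (mem_sp hY).symm, (hA w hwA).2⟩
  have hsum : (A.card : ℝ) = ∑ v ∈ F, ((A.filter fun w => (⟨ind (sp w.left), w.right⟩ :
      (X → Multiplicative (ZMod 2)) ⋊[mulAutArrow] Γ) = v).card : ℝ) := by
    rw [Finset.card_eq_sum_card_fiberwise hmaps]
    push_cast
    rfl
  rw [hsum, ← hFcard, ← nsmul_eq_mul, ← Finset.sum_const]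
  exact Finset.sum_le_sum hfib

end MP799c44
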