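import Mathlib
import Pool.Agent.Lib.MP_799c44_al.Cnt

set_option autoImplicit false

/-!
Shortening one lamp.
-/

namespace MP799c44

open Finset SemidirectProduct

variable {Γ X H : Type*} [Group Γ] [MulAction Γ X] [DecidableEq X] [Group H]

/-- replacing one non-trivial lamp by a non-trivial lamp -/
lemma sp_update {f : X → H} {x : X} {h : H} (hf : ∃ Y : Finset X, ∀ y, f y ≠ 1 → y ∈ Y)
    (hx : f x ≠ 1) (hh : h ≠ 1) : sp (Function.update f x h) = sp f := by
  obtain ⟨Y, hY⟩ := hf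
  have hxY := hY x hx
  ext y
  rw [mem_sp hY, mem_sp (Y := Y)]
  · by_cases hy : y = x
    · subst hy
      rw [Function.update_self]
      simp [hx, hh]
    · rw [Function.update_of_ne hy]
  · intro y hy
    by_cases hyx : y = x
    · exact hyx ▸ hxY
    · rw [Function.update_of_ne hyx] at hy
      exact hY y hy

lemma tot_update {T : Set H} {f : X → H} {x : X} {h : H}
    (hf : ∃ Y : Finset X, ∀ y, f y ≠ 1 → y ∈ Y) (hx : f x ≠ 1) (hh : h ≠ 1) :
    tot T (Function.update f x h) + len T (f x) = tot T f + len T h := by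
  have hsp := sp_update hf hx hh
  have hxs : x ∈ sp f := by
    obtain ⟨Y, hY⟩ := hf
    exact (mem_sp hY).2 hx
  unfold tot
  rw [hsp, ← Finset.add_sum_erase _ (fun y => len T (Function.update f x h y)) hxs,
    ← Finset.add_sum_erase _ (fun y => len T (f y)) hxs, Function.update_self]
  have e : ∑ y ∈ (sp f).erase x, len T (Function.update f x h y) =
      ∑ y ∈ (sp f).erase x, len T (f y) :=
    Finset.sum_congr rfl fun y hy => by rw [Function.update_of_ne (Finset.ne_of_mem_erase hy)]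
  rw [e]
  omega

/-- the exchange inequality -/
theorem exchange {x₀ : X} {S : Set Γ} {T : Set H}
    (hT : Subgroup.closure T = ⊤) (n : ℕ)
    (z : H → ℕ) (m : H → ℕ → H)
    (hm1 : ∀ h j, 1 ≤ j → j < z h → m h j ≠ 1)
    (hm2 : ∀ h j, 1 ≤ j → j < z h → len T (m h j) + z h = len T h + j)
    (hm3 : ∀ h j, 1 ≤ j → j < z h → m (m h j) (z h) = h)
    (hm4 : ∀ h j, 1 ≤ j → j < z h → z (m h j) = j)
    (hz1 : z 1 = 0) (φ : ℕ → ℝ) (hφ : ∀ d, 0 ≤ φ d)
    (A B : Finset ((X → H) ⋊[mulAutArrow] Γ))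
    (hA : ∀ w ∈ A, w ∈ WB (WG x₀ S T) (n + 1) ∧ w ∉ WB (WG x₀ S T) n)
    (hB : ∀ w, w ∈ WB (WG x₀ S T) n → w ∈ B) :
    ∑ w ∈ A, (∑ x ∈ sp w.left, ((z (w.left x) - 1 : ℕ) : ℝ)) * φ (sp w.left).card ≤
      ∑ w ∈ B, ((sp w.left).card : ℝ) * φ (sp w.left).card := by
  classical
  have hL : ∑ w ∈ A, (∑ x ∈ sp w.left, ((z (w.left x) - 1 : ℕ) : ℝ)) * φ (sp w.left).card =
      ∑ p ∈ (A.sigma fun w => sp w.left).sigma (fun q => Finset.Ico 1 (z (q.1.left q.2))),
        φ (sp p.1.1.left).card := by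
    rw [Finset.sum_sigma, Finset.sum_sigma]
    refine Finset.sum_congr rfl fun w _ => ?_
    rw [Finset.sum_mul]
    refine Finset.sum_congr rfl fun x _ => ?_
    simp only [Finset.sum_const, Nat.card_Ico, nsmul_eq_mul]
  have hR : ∑ w ∈ B, ((sp w.left).card : ℝ) * φ (sp w.left).card =
      ∑ q ∈ B.sigma fun w => sp w.left, φ (sp q.1.left).card := by
    rw [Finset.sum_sigma]
    refine Finset.sum_congr rfl fun w _ => ?_
    simp only [Finset.sum_const, nsmul_eq_mul]
  rw [hL, hR]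
  -- basic facts about one exchange
  have hone : ∀ h j, 1 ≤ j → j < z h → h ≠ 1 := by
    intro h j h1 h2 h3
    rw [h3, hz1] at h2
    omega
  have hfacts : ∀ w ∈ A, ∀ x j, 1 ≤ j → j < z (w.left x) →
      sp (Function.update w.left x (m (w.left x) j)) = sp w.left := by
    intro w hw x j h1 h2
    obtain ⟨hfin, -⟩ := (mem_ball_iff hT).1 (hA w hw).1
    exact sp_update hfin (hone _ _ h1 h2) (hm1 _ _ h1 h2)
  refine sum_le_of_inj _ _ (fun p => ⟨⟨Function.update p.1.1.left p.1.2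
    (m (p.1.1.left p.1.2) p.2), p.1.1.right⟩, p.1.2⟩) _ _ ?_ ?_ ?_ ?_
  · rintro ⟨⟨w, x⟩, j⟩ hp
    obtain ⟨hq, hj⟩ := Finset.mem_sigma.1 hp
    obtain ⟨hw, hx⟩ := Finset.mem_sigma.1 hq
    dsimp only at hw hx hj ⊢
    obtain ⟨hj1, hj2⟩ := Finset.mem_Ico.1 hj
    have hsp := hfacts w hw x j hj1 hj2
    obtain ⟨hfin, j₁, hj₁, hjn⟩ := (mem_ball_iff hT).1 (hA w hw).1
    have ht := tot_update (T := T) hfin (hone _ _ hj1 hj2) (hm1 _ _ hj1 hj2)
    have hl := hm2 _ _ hj1 hj2
    rw [Finset.mem_sigma]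
    refine ⟨hB _ ?_, ?_⟩
    · rw [mem_ball_iff hT]
      refine ⟨?_, j₁, ?_, ?_⟩
      · obtain ⟨Y, hY⟩ := hfin
        refine ⟨Y, fun y hy => ?_⟩
        by_cases hyx : y = x
        · exact hyx ▸ hY x (hone _ _ hj1 hj2)
        · dsimp only at hy
          rw [Function.update_of_ne hyx] at hy
          exact hY y hy
      · dsimp only
        rwa [hsp]
      · dsimp only
        omega
    · dsimp only
      rwa [hsp]
  · rintro ⟨⟨w, x⟩, j⟩ hp ⟨⟨w', x'⟩, j'⟩ hp' h
    obtain ⟨hq, hj⟩ := Finset.mem_sigma.1 hp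
    obtain ⟨hw, hx⟩ := Finset.mem_sigma.1 hq
    obtain ⟨hq', hj'⟩ := Finset.mem_sigma.1 hp'
    obtain ⟨hw', hx'⟩ := Finset.mem_sigma.1 hq'
    dsimp only at hw hx hj hw' hx' hj' h
    obtain ⟨hj1, hj2⟩ := Finset.mem_Ico.1 hj
    obtain ⟨hj1', hj2'⟩ := Finset.mem_Ico.1 hj'
    rw [Sigma.mk.inj_iff] at h
    obtain ⟨hww, hxx⟩ := h
    have hxx := eq_of_heq hxx
    subst hxx
    have hleft := congrArg SemidirectProduct.left hww
    have hright := congrArg SemidirectProduct.right hww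
    dsimp only at hleft hright
    have hg : m (w.left x) j = m (w'.left x) j' := by
      have := congrFun hleft x
      rwa [Function.update_self, Function.update_self] at this
    have hjj : j = j' := by
      rw [← hm4 _ _ hj1 hj2, ← hm4 _ _ hj1' hj2', hg]
    subst hjj
    have hoff : ∀ y, y ≠ x → w.left y = w'.left y := by
      intro y hy
      have := congrFun hleft y
      rwa [Function.update_of_ne hy, Function.update_of_ne hy] at this
    have hzz : z (w.left x) = z (w'.left x) := by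
      have e1 := hm2 _ _ hj1 hj2
      have e2 := hm2 _ _ hj1' hj2'
      rw [hg] at e1
      have hsp : sp w.left = sp w'.left := by
        rw [← hfacts w hw x j hj1 hj2, ← hfacts w' hw' x j hj1' hj2', hleft]
      have ht : ∑ y ∈ (sp w.left).erase x, len T (w.left y) =
          ∑ y ∈ (sp w'.left).erase x, len T (w'.left y) := by
        rw [hsp]
        exact Finset.sum_congr rfl fun y hy => by rw [hoff y (Finset.ne_of_mem_erase hy)]
      have t1 : tot T w.left = len T (w.left x) + ∑ y ∈ (sp w.left).erase x, len T (w.left y) :=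
        (Finset.add_sum_erase _ (fun y => len T (w.left y)) hx).symm
      have t2 : tot T w'.left =
          len T (w'.left x) + ∑ y ∈ (sp w'.left).erase x, len T (w'.left y) :=
        (Finset.add_sum_erase _ (fun y => len T (w'.left y)) hx').symm
      obtain ⟨hfin, j₁, hj₁, hjn⟩ := (mem_ball_iff hT).1 (hA w hw).1
      obtain ⟨hfin', j₁', hj₁', hjn'⟩ := (mem_ball_iff hT).1 (hA w' hw').1
      have hnot := (hA w hw).2
      have hnot' := (hA w' hw').2
      rcases lt_trichotomy (z (w.left x)) (z (w'.left x)) with hlt | heq | hgt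
      · exfalso
        apply hnot
        rw [mem_ball_iff hT]
        refine ⟨hfin, j₁', ?_, by omega⟩
        rw [hsp, hright]
        exact hj₁'
      · exact heq
      · exfalso
        apply hnot'
        rw [mem_ball_iff hT]
        refine ⟨hfin', j₁, ?_, by omega⟩
        rw [← hsp, ← hright]
        exact hj₁
    have hxval : w.left x = w'.left x := by
      rw [← hm3 _ _ hj1 hj2, ← hm3 _ _ hj1' hj2', hg, hzz]
    have hw2 : w = w' := by
      refine SemidirectProduct.ext ?_ hright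
      funext y
      by_cases hy : y = x
      · rw [hy]
        exact hxval
      · exact hoff y hy
    subst hw2
    rfl
  · rintro ⟨⟨w, x⟩, j⟩ hp
    obtain ⟨hq, hj⟩ := Finset.mem_sigma.1 hp
    obtain ⟨hw, hx⟩ := Finset.mem_sigma.1 hq
    dsimp only at hw hx hj ⊢
    obtain ⟨hj1, hj2⟩ := Finset.mem_Ico.1 hj
    rw [hfacts w hw x j hj1 hj2]
  · intro q _
    exact hφ _

/-- elements with long lamps are rare in the sphere -/
theorem card_long_le {x₀ : X} {S : Set Γ} {T : Set H} (hS : S.Finite)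
    (hT : Subgroup.closure T = ⊤) (hf : T.Finite) (n : ℕ)
    (z : H → ℕ) (m : H → ℕ → H)
    (hm1 : ∀ h j, 1 ≤ j → j < z h → m h j ≠ 1)
    (hm2 : ∀ h j, 1 ≤ j → j < z h → len T (m h j) + z h = len T h + j)
    (hm3 : ∀ h j, 1 ≤ j → j < z h → m (m h j) (z h) = h)
    (hm4 : ∀ h j, 1 ≤ j → j < z h → z (m h j) = j)
    (hz1 : z 1 = 0) {R : ℝ}
    (A : Finset ((X → H) ⋊[mulAutArrow] Γ))
    (hA : ∀ w ∈ A, w ∈ WB (WG x₀ S T) (n + 1) ∧ w ∉ WB (WG x₀ S T) n ∧
      1 ≤ (sp w.left).card ∧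
      R * (sp w.left).card ≤ ∑ x ∈ sp w.left, ((z (w.left x) - 1 : ℕ) : ℝ)) :
    R * A.card ≤ ((WB (WG x₀ S T) n).ncard : ℝ) := by
  classical
  have hfin := WB_finite (WG_finite (x₀ := x₀) hS hf) n
  have h := exchange hT n z m hm1 hm2 hm3 hm4 hz1 (fun d => 1 / (d:ℝ)) (fun d => by positivity)
    A hfin.toFinset (fun w hw => ⟨(hA w hw).1, (hA w hw).2.1⟩)
    (fun w hw => hfin.mem_toFinset.2 hw)
  have h1 : R * A.card ≤ ∑ w ∈ A, (∑ x ∈ sp w.left, ((z (w.left x) - 1 : ℕ) : ℝ)) *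
      (1 / ((sp w.left).card : ℝ)) := by
    rw [mul_comm, ← nsmul_eq_mul, ← Finset.sum_const]
    refine Finset.sum_le_sum fun w hw => ?_
    obtain ⟨-, -, h2, h3⟩ := hA w hw
    have h4 : (0:ℝ) < (sp w.left).card := by exact_mod_cast h2
    rw [mul_one_div, le_div_iff₀ h4]
    exact h3
  have h2 : ∑ w ∈ hfin.toFinset, ((sp w.left).card : ℝ) * (1 / ((sp w.left).card : ℝ)) ≤
      ((WB (WG x₀ S T) n).ncard : ℝ) := by
    rw [Set.ncard_eq_toFinset_card _ hfin]
    calc ∑ w ∈ hfin.toFinset, ((sp w.left).card : ℝ) * (1 / ((sp w.left).card : ℝ))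
        ≤ ∑ _w ∈ hfin.toFinset, (1:ℝ) := by
          refine Finset.sum_le_sum fun w _ => ?_
          rw [mul_one_div]
          exact div_self_le_one _
      _ = _ := by rw [Finset.sum_const, nsmul_eq_mul, mul_one]
  exact h1.trans (h.trans h2)

end MP799c44
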