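import Mathlib
import Pool.Agent.Lib.MP_799c44_al.Exch

set_option autoImplicit false

/-!
Lamps with values in the integers.
-/

namespace MP799c44

open Finset SemidirectProduct

/-- the generator of the infinite cyclic group -/
def TZ : Set (Multiplicative ℤ) := {Multiplicative.ofAdd 1}

lemma ofAdd_mem_WB_TZ (k : ℤ) : Multiplicative.ofAdd k ∈ WB TZ k.natAbs := by
  refine ⟨List.replicate k.natAbs (Multiplicative.ofAdd (Int.sign k)), ?_, ?_, ?_⟩
  · rw [List.length_replicate]
  · intro x hx
    obtain ⟨h1, rfl⟩ := List.mem_replicate.1 hx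
    have hk : k ≠ 0 := fun h => h1 (by rw [h]; rfl)
    rcases lt_or_gt_of_ne hk with h | h
    · right
      rw [Int.sign_eq_neg_one_of_neg h]
      rfl
    · left
      rw [Int.sign_eq_one_of_pos h]
      rfl
  · rw [List.prod_replicate, ← ofAdd_nsmul]
    congr 1
    rw [nsmul_eq_mul, mul_comm]
    exact Int.sign_mul_natAbs k

lemma TZ_closure : Subgroup.closure TZ = ⊤ := by
  rw [eq_top_iff]
  intro x _
  obtain ⟨l, -, h2, rfl⟩ := ofAdd_mem_WB_TZ (Multiplicative.toAdd x)
  rw [← SetLike.mem_coe]
  refine Subgroup.list_prod_mem _ fun y hy => ?_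
  rcases h2 y hy with h | h
  · exact Subgroup.subset_closure h
  · exact (Subgroup.inv_mem_iff _).1 (Subgroup.subset_closure h)

lemma natAbs_le_of_mem_WB {g : Multiplicative ℤ} {n : ℕ} (hg : g ∈ WB TZ n) :
    (Multiplicative.toAdd g).natAbs ≤ n := by
  obtain ⟨l, hl, hl2, rfl⟩ := hg
  have key : ∀ l : List (Multiplicative ℤ), (∀ x ∈ l, x ∈ TZ ∨ x⁻¹ ∈ TZ) →
      (Multiplicative.toAdd l.prod).natAbs ≤ l.length := by
    intro l
    induction l with
    | nil =>
      intro _
      simp
    | cons x l ih =>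
      intro h
      have h1 := ih fun y hy => h y (List.mem_cons_of_mem _ hy)
      have h2 : (Multiplicative.toAdd x).natAbs = 1 := by
        rcases h x List.mem_cons_self with hx | hx
        · have : x = Multiplicative.ofAdd 1 := hx
          rw [this]
          rfl
        · have : x⁻¹ = Multiplicative.ofAdd 1 := hx
          have : x = (Multiplicative.ofAdd 1)⁻¹ := by rw [← this, inv_inv]
          rw [this]
          rfl
      rw [List.prod_cons, List.length_cons, toAdd_mul]
      have := Int.natAbs_add_le (Multiplicative.toAdd x) (Multiplicative.toAdd l.prod)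
      omega
  exact (key l hl2).trans hl

lemma len_TZ (g : Multiplicative ℤ) : len TZ g = (Multiplicative.toAdd g).natAbs := by
  refine le_antisymm (len_le ?_) (natAbs_le_of_mem_WB (len_mem TZ_closure g))
  exact ofAdd_mem_WB_TZ (Multiplicative.toAdd g)

/-- the absolute value -/
def zz (h : Multiplicative ℤ) : ℕ := (Multiplicative.toAdd h).natAbs

/-- changing the absolute value -/
def mm (h : Multiplicative ℤ) (j : ℕ) : Multiplicative ℤ :=
  Multiplicative.ofAdd (Int.sign (Multiplicative.toAdd h) * j)

lemma zz_mm {h : Multiplicative ℤ} {j : ℕ} (hj : j < zz h) : zz (mm h j) = j := by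
  unfold zz at hj
  unfold zz mm
  rw [toAdd_ofAdd, Int.natAbs_mul, Int.natAbs_sign_of_ne_zero, one_mul, Int.natAbs_natCast]
  omega

lemma mm_mm {h : Multiplicative ℤ} {j : ℕ} (hj1 : 1 ≤ j) : mm (mm h j) (zz h) = h := by
  unfold mm zz
  rw [toAdd_ofAdd, Int.sign_mul, Int.sign_sign, Int.sign_eq_one_of_pos (a := (j:ℤ)) (by omega),
    mul_one, Int.sign_mul_natAbs]
  rfl

end MP799c44
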