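import Mathlib
import Pool.Agent.Lib.MP_799c44_al.ZL

set_option autoImplicit false

/-!
Permutational wreath products with integer lamps.
-/

namespace MP799c44

open Finset SemidirectProduct

variable {Γ X : Type*} [Group Γ] [MulAction Γ X] [DecidableEq X]

/-- the choice of the constants -/
lemma ratio_tendsto (b s bF : ℕ → ℝ) (hs : ∀ n, 0 ≤ s n) (hb : ∀ n, 0 < b n)
    (hbF1 : ∀ n, 1 ≤ n → 2 ≤ bF n) {c₁ : ℝ} (hbF : ∀ n, bF (n + 1) ≤ c₁ * bF n)
    (h : ∀ δ : ℝ, 0 < δ → ∃ p : ℕ, ∀ n, s n ≤ δ * b n + bF (n + 1) ^ p)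
    (hyp : ∀ C : ℕ, ∀ᶠ n in Filter.atTop, bF n ^ C ≤ b n) :
    Filter.Tendsto (fun n => s n / b n) Filter.atTop (nhds 0) := by
  rw [Metric.tendsto_atTop]
  intro ε hε
  obtain ⟨p, hp⟩ := h (ε / 4) (by positivity)
  obtain ⟨K, hK⟩ := pow_unbounded_of_one_lt (4 * |c₁| ^ p / ε) (one_lt_two (α := ℝ))
  obtain ⟨n₀, hn₀⟩ := Filter.eventually_atTop.1 (hyp (p + K))
  refine ⟨max n₀ 1, fun n hn => ?_⟩
  have hn1 : 1 ≤ n := le_trans (le_max_right _ _) hn
  have h1 := hn₀ n (le_trans (le_max_left _ _) hn)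
  have hF2 := hbF1 n hn1
  have hF2' := hbF1 (n + 1) (by omega)
  have h2 : bF (n + 1) ^ p ≤ ε / 4 * b n := by
    have h3 : bF (n + 1) ≤ |c₁| * bF n := (hbF n).trans (by gcongr; exact le_abs_self _)
    have h4 : bF (n + 1) ^ p ≤ |c₁| ^ p * bF n ^ p := by
      rw [← mul_pow]
      exact pow_le_pow_left₀ (by linarith) h3 _
    have h5 : |c₁| ^ p ≤ ε / 4 * bF n ^ K := by
      have h6 : 4 * |c₁| ^ p < 2 ^ K * ε := by
        rwa [div_lt_iff₀ hε] at hK
      have h7 : (2:ℝ) ^ K ≤ bF n ^ K := pow_le_pow_left₀ (by norm_num) hF2 _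
      have h8 := mul_le_mul_of_nonneg_left h7 hε.le
      linarith
    calc bF (n + 1) ^ p ≤ |c₁| ^ p * bF n ^ p := h4
      _ ≤ (ε / 4 * bF n ^ K) * bF n ^ p := by
          have : 0 ≤ bF n ^ p := by positivity
          gcongr
      _ = ε / 4 * bF n ^ (p + K) := by
          rw [pow_add]
          ring
      _ ≤ ε / 4 * b n := by gcongr
  have h9 := hp n
  rw [Real.dist_eq, sub_zero, abs_of_nonneg (div_nonneg (hs n) (hb n).le), div_lt_iff₀ (hb n)]
  have h10 := mul_pos hε (hb n)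
  linarith

lemma one_le_ball {G : Type*} [Group G] {S : Set G} (hf : S.Finite) (n : ℕ) :
    1 ≤ (WB S n).ncard :=
  Nat.one_le_iff_ne_zero.2 (Set.ncard_ne_zero_of_mem (one_mem_WB S n) (WB_finite hf n))

lemma ball_succ_le {G : Type*} [Group G] {S : Set G} (hf : S.Finite) (n : ℕ) :
    (WB S (n + 1)).ncard ≤ (WB S 1).ncard * (WB S n).ncard := by
  have h1 : WB S (n + 1) ⊆ (fun p : G × G => p.1 * p.2) '' (WB S n ×ˢ WB S 1) := by
    intro g hg
    obtain ⟨a, ha, b, hb, rfl⟩ := split_mem_WB hg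
    exact ⟨(a, b), ⟨ha, hb⟩, rfl⟩
  have hfin := (WB_finite hf n).prod (WB_finite hf 1)
  have h2 := Set.ncard_le_ncard h1 (hfin.image _)
  have h3 := Set.ncard_image_le (f := fun p : G × G => p.1 * p.2) hfin
  rw [Set.ncard_prod] at h3
  rw [mul_comm]
  exact h2.trans h3

lemma two_le_ball_F {x₀ : X} {S : Set Γ} (hS : S.Finite) {n : ℕ} (hn : 1 ≤ n) :
    2 ≤ (WB (WG x₀ S T2) n).ncard := by
  have hT2 : (T2).Finite := Set.finite_singleton _
  have hfin := WB_finite (WG_finite (x₀ := x₀) hS hT2) n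
  have h1 : (⟨ind ∅, 1⟩ : (X → Multiplicative (ZMod 2)) ⋊[mulAutArrow] Γ) ∈
      WB (WG x₀ S T2) n := by
    refine ind_mem_ball.2 ⟨0, ⟨[], le_refl _, by simp, rfl, by simp⟩, by simp⟩
  have h2 : (⟨ind {x₀}, 1⟩ : (X → Multiplicative (ZMod 2)) ⋊[mulAutArrow] Γ) ∈
      WB (WG x₀ S T2) n := by
    refine ind_mem_ball.2 ⟨0, ⟨[], le_refl _, by simp, rfl, ?_⟩, by simpa using hn⟩
    intro x hx
    rw [Finset.mem_singleton] at hx
    rw [hx]
    exact start_mem_visit x₀ []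
  have hne : (⟨ind ∅, 1⟩ : (X → Multiplicative (ZMod 2)) ⋊[mulAutArrow] Γ) ≠
      ⟨ind {x₀}, 1⟩ := by
    intro h
    have h' : (ind ∅ : X → Multiplicative (ZMod 2)) = ind {x₀} :=
      congrArg SemidirectProduct.left h
    have := ind_injective h'
    exact absurd this (Finset.singleton_ne_empty x₀).symm
  calc 2 = ({(⟨ind ∅, 1⟩ : (X → Multiplicative (ZMod 2)) ⋊[mulAutArrow] Γ),
      ⟨ind {x₀}, 1⟩} : Set _).ncard := (Set.ncard_pair hne).symm
    _ ≤ _ := by
      refine Set.ncard_le_ncard ?_ hfin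
      rintro w (rfl | rfl)
      · exact h1
      · exact h2

/-- elements whose total lamp length is at most a constant times the number of lamps, or a
constant times the logarithm of the two-state ball -/
lemma card_bad_le {H : Type*} [Group H] {x₀ : X} {S : Set Γ} {T : Set H} (hS : S.Finite)
    (hT : Subgroup.closure T = ⊤) (hf : T.Finite) (R : ℕ) :
    ∃ p : ℕ, ∀ n, ∀ A : Finset ((X → H) ⋊[mulAutArrow] Γ),
      (∀ w ∈ A, w ∈ WB (WG x₀ S T) n ∧
        tot T w.left ≤ R * Nat.log 2 (WB (WG x₀ S T2) n).ncard) →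
      (A.card : ℝ) ≤ ((WB (WG x₀ S T2) n).ncard : ℝ) ^ p := by
  obtain ⟨q, hq⟩ := pow_unbounded_of_one_lt (2 * max 1 (sph T 1)) (one_lt_two (α := ℝ))
  refine ⟨1 + q * R, fun n A hA => ?_⟩
  have hT2 : (T2).Finite := Set.finite_singleton _
  set b : ℕ := (WB (WG x₀ S T2) n).ncard with hb
  have hb1 : 1 ≤ b := one_le_ball (WG_finite hS hT2) n
  have h1 := card_short_le hS hT hf n (R * Nat.log 2 b) A hA
  have h2 : (2 * max 1 (sph T 1)) ^ (R * Nat.log 2 b) ≤ (b:ℝ) ^ (q * R) := by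
    calc (2 * max 1 (sph T 1)) ^ (R * Nat.log 2 b) ≤ (2 ^ q) ^ (R * Nat.log 2 b) := by
          refine pow_le_pow_left₀ ?_ hq.le _
          have : (1:ℝ) ≤ max 1 (sph T 1) := le_max_left _ _
          linarith
      _ = ((2:ℝ) ^ Nat.log 2 b) ^ (q * R) := by
          rw [← pow_mul, ← pow_mul]
          congr 1
          ring
      _ ≤ (b:ℝ) ^ (q * R) := by
          refine pow_le_pow_left₀ (by positivity) ?_ _
          exact_mod_cast Nat.pow_log_le_self 2 (by omega)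
  calc (A.card : ℝ) ≤ b * (2 * max 1 (sph T 1)) ^ (R * Nat.log 2 b) := h1
    _ ≤ b * (b:ℝ) ^ (q * R) := by gcongr
    _ = (b:ℝ) ^ (1 + q * R) := by rw [pow_add, pow_one]

lemma card_le_log {H : Type*} [Group H] {x₀ : X} {S : Set Γ} {T : Set H} (hS : S.Finite)
    (hT : Subgroup.closure T = ⊤) {w : (X → H) ⋊[mulAutArrow] Γ} {n : ℕ}
    (hw : w ∈ WB (WG x₀ S T) n) :
    (sp w.left).card ≤ Nat.log 2 (WB (WG x₀ S T2) n).ncard := by
  have h := two_pow_card_le hS hT hw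
  exact Nat.le_log_of_pow_le (by norm_num) h

theorem wreath_Z {x₀ : X} {S : Set Γ} (hS : S.Finite)
    (hyp : ∀ C : ℕ, ∀ᶠ n in Filter.atTop,
      ((WB (WG x₀ S T2) n).ncard : ℝ) ^ C ≤ ((WB (WG x₀ S TZ) n).ncard : ℝ)) :
    Filter.Tendsto (fun n : ℕ =>
      ((WB (WG x₀ S TZ) (n + 1) \ WB (WG x₀ S TZ) n).ncard : ℝ) /
        ((WB (WG x₀ S TZ) n).ncard : ℝ)) Filter.atTop (nhds 0) := by
  classical
  have hT2 : (T2).Finite := Set.finite_singleton _
  have hTZ : (TZ).Finite := Set.finite_singleton _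
  refine ratio_tendsto (fun n => ((WB (WG x₀ S TZ) n).ncard : ℝ))
    (fun n => ((WB (WG x₀ S TZ) (n + 1) \ WB (WG x₀ S TZ) n).ncard : ℝ))
    (fun n => ((WB (WG x₀ S T2) n).ncard : ℝ)) (fun n => Nat.cast_nonneg _)
    (fun n => by
      have := one_le_ball (WG_finite (x₀ := x₀) hS hTZ) n
      exact_mod_cast this)
    (fun n hn => by exact_mod_cast two_le_ball_F hS hn)
    (c₁ := ((WB (WG x₀ S T2) 1).ncard : ℝ))
    (fun n => by exact_mod_cast ball_succ_le (WG_finite hS hT2) n) ?_ hyp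
  intro δ hδ
  obtain ⟨R, hR⟩ := exists_nat_gt (1 / δ)
  have hR0 : (0:ℝ) < R := lt_trans (by positivity) hR
  obtain ⟨p, hp⟩ := card_bad_le (x₀ := x₀) (S := S) hS TZ_closure hTZ (R + 1)
  refine ⟨p, fun n => ?_⟩
  have hfin := (WB_finite (WG_finite (x₀ := x₀) hS hTZ) (n + 1)).subset
    (Set.sdiff_subset (s := WB (WG x₀ S TZ) (n + 1)) (t := WB (WG x₀ S TZ) n))
  set A := hfin.toFinset with hA
  have hAmem : ∀ w, w ∈ A ↔ w ∈ WB (WG x₀ S TZ) (n + 1) ∧ w ∉ WB (WG x₀ S TZ) n := by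
    intro w
    rw [hA, Set.Finite.mem_toFinset]
    rfl
  have hcard : ((WB (WG x₀ S TZ) (n + 1) \ WB (WG x₀ S TZ) n).ncard : ℝ) = A.card := by
    rw [Set.ncard_eq_toFinset_card _ hfin]
  set good : (X → Multiplicative ℤ) ⋊[mulAutArrow] Γ → Prop := fun w =>
    1 ≤ (sp w.left).card ∧
      (R:ℝ) * (sp w.left).card ≤ ∑ x ∈ sp w.left, ((zz (w.left x) - 1 : ℕ) : ℝ) with hgood
  have h1 : (R:ℝ) * (A.filter good).card ≤ ((WB (WG x₀ S TZ) n).ncard : ℝ) := by
    refine card_long_le hS TZ_closure hTZ n zz mm ?_ ?_ ?_ ?_ ?_ _ ?_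
    · intro h j h1 h2 h3
      have := zz_mm h2
      rw [h3] at this
      have h4 : zz 1 = 0 := rfl
      omega
    · intro h j h1 h2
      rw [len_TZ, len_TZ]
      have e1 : (Multiplicative.toAdd (mm h j)).natAbs = j := zz_mm h2
      have e2 : (Multiplicative.toAdd h).natAbs = zz h := rfl
      omega
    · intro h j h1 _
      exact mm_mm h1
    · intro h j _ h2
      exact zz_mm h2
    · rfl
    · intro w hw
      obtain ⟨hw1, hw2, hw3⟩ := Finset.mem_filter.1 hw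
      obtain ⟨hw4, hw5⟩ := (hAmem w).1 hw1
      exact ⟨hw4, hw5, hw2, hw3⟩
  have h2 : ((A.filter fun w => ¬ good w).card : ℝ) ≤
      ((WB (WG x₀ S T2) (n + 1)).ncard : ℝ) ^ p := by
    refine hp (n + 1) _ fun w hw => ?_
    obtain ⟨hw1, hw2⟩ := Finset.mem_filter.1 hw
    obtain ⟨hw4, -⟩ := (hAmem w).1 hw1
    refine ⟨hw4, ?_⟩
    have hlog := card_le_log hS TZ_closure hw4
    have htot : tot TZ w.left ≤ (R + 1) * (sp w.left).card := by
      obtain ⟨⟨Y, hY⟩, -⟩ := (mem_ball_iff TZ_closure).1 hw4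
      have e1 : tot TZ w.left = ∑ x ∈ sp w.left, (zz (w.left x) - 1) + (sp w.left).card := by
        unfold tot
        rw [Finset.card_eq_sum_ones, ← Finset.sum_add_distrib]
        refine Finset.sum_congr rfl fun x hx => ?_
        have e2 : w.left x ≠ 1 := (mem_sp hY).1 hx
        have e3 : len TZ (w.left x) ≠ 0 := fun h => e2 (len_eq_zero TZ_closure h)
        have e4 : len TZ (w.left x) = zz (w.left x) := len_TZ _
        omega
      by_cases hd : 1 ≤ (sp w.left).card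
      · have e5 : ¬ ((R:ℝ) * (sp w.left).card ≤
            ∑ x ∈ sp w.left, ((zz (w.left x) - 1 : ℕ) : ℝ)) := fun h => hw2 ⟨hd, h⟩
        have e6 : ∑ x ∈ sp w.left, (zz (w.left x) - 1) < R * (sp w.left).card := by
          rw [← Nat.cast_sum, ← Nat.cast_mul, Nat.cast_le] at e5
          omega
        have e7 : (R + 1) * (sp w.left).card = R * (sp w.left).card + (sp w.left).card := by ring
        omega
      · have e5 : sp w.left = ∅ := Finset.card_eq_zero.1 (by omega)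
        rw [e1, e5]
        simp
    exact htot.trans (Nat.mul_le_mul_left _ hlog)
  have h3 : (A.card : ℝ) = (A.filter good).card + (A.filter fun w => ¬ good w).card := by
    rw [← Nat.cast_add, Finset.card_filter_add_card_filter_not]
  have h4 : ((A.filter good).card : ℝ) ≤ δ * ((WB (WG x₀ S TZ) n).ncard : ℝ) := by
    have h5 : (1:ℝ) ≤ δ * R := by
      rw [div_lt_iff₀ hδ] at hR
      linarith
    have h6 : (0:ℝ) ≤ (A.filter good).card := Nat.cast_nonneg _
    calc ((A.filter good).card : ℝ) ≤ (δ * R) * (A.filter good).card := by nlinarith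
      _ = δ * (R * (A.filter good).card) := by ring
      _ ≤ _ := by gcongr
  rw [hcard, h3]
  linarith

end MP799c44
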