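import Mathlib
import Pool.Agent.Lib.MP_799c44_al.WrZ

set_option autoImplicit false

/-!
Lamps with values in `A × ℤ`.
-/

namespace MP799c44

open Finset SemidirectProduct

variable {X A : Type*} [DecidableEq X] [Group A]

/-- the generating set of `A × ℤ` -/
def TA (U : Set A) : Set (A × Multiplicative ℤ) :=
  {p | (∃ a ∈ U, p = (a, 1)) ∨ p = (1, Multiplicative.ofAdd 1)}

lemma TA_finite {U : Set A} (hU : U.Finite) : (TA U).Finite := by
  have h : TA U ⊆ (fun a => ((a, 1) : A × Multiplicative ℤ)) '' U ∪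
      {(1, Multiplicative.ofAdd 1)} := by
    rintro p (⟨a, ha, rfl⟩ | rfl)
    · exact Or.inl ⟨a, ha, rfl⟩
    · exact Or.inr rfl
  exact ((hU.image _).union (Set.finite_singleton _)).subset h

lemma mem_closure_of_mem_WB {G : Type*} [Group G] {S : Set G} {g : G} {n : ℕ}
    (hg : g ∈ WB S n) : g ∈ Subgroup.closure S := by
  obtain ⟨l, -, h2, rfl⟩ := hg
  refine Subgroup.list_prod_mem _ fun y hy => ?_
  rcases h2 y hy with h | h
  · exact Subgroup.subset_closure h
  · exact (Subgroup.inv_mem_iff _).1 (Subgroup.subset_closure h)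

lemma fst_mem_WB {U : Set A} {a : A} {n : ℕ} (ha : a ∈ WB U n) :
    ((a, 1) : A × Multiplicative ℤ) ∈ WB (TA U) n := by
  obtain ⟨l, hl, hl2, rfl⟩ := ha
  refine ⟨l.map fun x => (x, 1), by rwa [List.length_map], ?_, ?_⟩
  · intro p hp
    obtain ⟨x, hx, rfl⟩ := List.mem_map.1 hp
    rcases hl2 x hx with h | h
    · exact Or.inl (Or.inl ⟨x, h, rfl⟩)
    · exact Or.inr (Or.inl ⟨x⁻¹, h, by rw [Prod.inv_mk, inv_one]⟩)
  · clear hl hl2
    induction l with
    | nil => rfl
    | cons x l ih =>
      rw [List.map_cons, List.prod_cons, ih, List.prod_cons, Prod.mk_mul_mk, mul_one]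

lemma snd_mem_WB {U : Set A} {z : Multiplicative ℤ} {n : ℕ} (hz : z ∈ WB TZ n) :
    ((1, z) : A × Multiplicative ℤ) ∈ WB (TA U) n := by
  obtain ⟨l, hl, hl2, rfl⟩ := hz
  refine ⟨l.map fun x => (1, x), by rwa [List.length_map], ?_, ?_⟩
  · intro p hp
    obtain ⟨x, hx, rfl⟩ := List.mem_map.1 hp
    rcases hl2 x hx with h | h
    · exact Or.inl (Or.inr (by rw [show x = Multiplicative.ofAdd 1 from h]))
    · exact Or.inr (Or.inr (by
        rw [Prod.inv_mk, inv_one, show x⁻¹ = Multiplicative.ofAdd 1 from h]))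
  · clear hl hl2
    induction l with
    | nil => rfl
    | cons x l ih =>
      rw [List.map_cons, List.prod_cons, ih, List.prod_cons, Prod.mk_mul_mk, mul_one]

lemma TA_closure {U : Set A} (hU : Subgroup.closure U = ⊤) : Subgroup.closure (TA U) = ⊤ := by
  rw [eq_top_iff]
  rintro ⟨a, z⟩ _
  have h : ((a, z) : A × Multiplicative ℤ) = (a, 1) * (1, z) := by
    rw [Prod.mk_mul_mk, mul_one, one_mul]
  rw [h]
  exact mul_mem (mem_closure_of_mem_WB (fst_mem_WB (len_mem hU a)))
    (mem_closure_of_mem_WB (snd_mem_WB (len_mem TZ_closure z)))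

lemma len_add_le_of_mem {U : Set A} (hU : Subgroup.closure U = ⊤) {p : A × Multiplicative ℤ}
    {n : ℕ} (hp : p ∈ WB (TA U) n) : len U p.1 + zz p.2 ≤ n := by
  obtain ⟨l, hl, hl2, rfl⟩ := hp
  have key : ∀ l : List (A × Multiplicative ℤ), (∀ x ∈ l, x ∈ TA U ∨ x⁻¹ ∈ TA U) →
      len U l.prod.1 + zz l.prod.2 ≤ l.length := by
    intro l
    induction l with
    | nil =>
      intro _
      rw [List.prod_nil, Prod.fst_one, Prod.snd_one, len_one]
      exact le_refl _
    | cons x l ih =>
      intro h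
      have h1 := ih fun y hy => h y (List.mem_cons_of_mem _ hy)
      have h2 : len U x.1 + zz x.2 ≤ 1 := by
        rcases h x List.mem_cons_self with (⟨a, ha, rfl⟩ | rfl) | (⟨a, ha, hx⟩ | hx)
        · have h3 : len U a ≤ 1 := len_le (gen_mem_WB (Or.inl ha))
          have h4 : zz (1 : Multiplicative ℤ) = 0 := rfl
          dsimp only
          omega
        · have h4 : zz (Multiplicative.ofAdd (1:ℤ)) = 1 := rfl
          have h5 : len U (1 : A) = 0 := len_one U
          dsimp only
          omega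
        · have hx' : x = (a⁻¹, 1) := by rw [← inv_inv x, hx, Prod.inv_mk, inv_one]
          subst hx'
          have h3 : len U a⁻¹ ≤ 1 := len_le (gen_mem_WB (Or.inr (by rwa [inv_inv])))
          have h4 : zz (1 : Multiplicative ℤ) = 0 := rfl
          dsimp only
          omega
        · have hx' : x = (1, (Multiplicative.ofAdd 1)⁻¹) := by
            rw [← inv_inv x, hx, Prod.inv_mk, inv_one]
          subst hx'
          have h4 : zz ((Multiplicative.ofAdd (1:ℤ))⁻¹) = 1 := rfl
          have h5 : len U (1 : A) = 0 := len_one U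
          dsimp only
          omega
      have h3 : len U (x.1 * l.prod.1) ≤ len U x.1 + len U l.prod.1 := len_mul_le hU _ _
      have h4 : zz (x.2 * l.prod.2) ≤ zz x.2 + zz l.prod.2 := by
        unfold zz
        rw [toAdd_mul]
        exact Int.natAbs_add_le _ _
      rw [List.prod_cons, List.length_cons, Prod.fst_mul, Prod.snd_mul]
      omega
  exact (key l hl2).trans hl

lemma len_TA {U : Set A} (hU : Subgroup.closure U = ⊤) (p : A × Multiplicative ℤ) :
    len (TA U) p = len U p.1 + zz p.2 := by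
  refine le_antisymm (len_le ?_) (len_add_le_of_mem hU (len_mem (TA_closure hU) p))
  have h : p = (p.1, 1) * (1, p.2) := by
    rw [Prod.mk_mul_mk, mul_one, one_mul]
  have h1 := mul_mem_WB (fst_mem_WB (U := U) (len_mem hU p.1))
    (snd_mem_WB (U := U) (len_mem TZ_closure p.2))
  rw [← h, len_TZ] at h1
  exact h1

/-- counting functions by weights -/
lemma card_fun_weight {H : Type*} [Group H] (Y : Finset X) (F : Finset (X → H)) (B : Finset H)
    (ω : H → ℝ) (hω : ∀ h, 0 ≤ ω h) {K θ : ℝ} (hB : ∑ h ∈ B, ω h ≤ K)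
    (hF : ∀ f ∈ F, (∀ x, x ∉ Y → f x = 1) ∧ (∀ x ∈ Y, f x ∈ B) ∧ θ ≤ ∏ x ∈ Y, ω (f x)) :
    F.card * θ ≤ K ^ Y.card := by
  classical
  have h1 : ∀ f ∈ F, θ ≤ ∏ x : Y, ω (f x) := by
    intro f hf
    rw [Finset.prod_coe_sort Y fun x => ω (f x)]
    exact (hF f hf).2.2
  have h2 : ∑ f ∈ F, ∏ x : Y, ω (f x) ≤
      ∑ g ∈ Fintype.piFinset fun _ : Y => B, ∏ x : Y, ω (g x) := by
    refine sum_le_of_inj F _ (fun f (x : Y) => f x) _ _ ?_ ?_ ?_ ?_
    · intro f hf
      rw [Fintype.mem_piFinset]
      exact fun x => (hF f hf).2.1 x x.2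
    · intro f hf g hg hfg
      funext x
      by_cases hx : x ∈ Y
      · exact congrFun hfg ⟨x, hx⟩
      · rw [(hF f hf).1 x hx, (hF g hg).1 x hx]
    · intro f _
      exact le_refl _
    · intro g _
      exact Finset.prod_nonneg fun x _ => hω _
  have h3 : ∑ g ∈ Fintype.piFinset fun _ : Y => B, ∏ x : Y, ω (g x) =
      ∏ _x : Y, ∑ h ∈ B, ω h := (Finset.prod_univ_sum (fun _ : Y => B) fun _ h => ω h).symm
  have h4 : ∏ _x : Y, ∑ h ∈ B, ω h ≤ K ^ Y.card := by
    rw [Finset.prod_const, Finset.card_univ, Fintype.card_coe]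
    exact pow_le_pow_left₀ (Finset.sum_nonneg fun h _ => hω h) hB _
  calc F.card * θ = ∑ _f ∈ F, θ := by rw [Finset.sum_const, nsmul_eq_mul]
    _ ≤ ∑ f ∈ F, ∏ x : Y, ω (f x) := Finset.sum_le_sum h1
    _ ≤ _ := h2.trans (h3.le.trans h4)

/-- integer functions with small total absolute value -/
lemma card_z_le (Y : Finset X) (M : ℕ) (F : Finset (X → Multiplicative ℤ))
    (hF : ∀ f ∈ F, (∀ x, x ∉ Y → f x = 1) ∧ ∑ x ∈ Y, zz (f x) ≤ M) :
    (F.card : ℝ) ≤ 3 ^ Y.card * 2 ^ M := by
  classical
  have hTZ : (TZ).Finite := Set.finite_singleton _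
  set B : Finset (Multiplicative ℤ) := (WB_finite hTZ M).toFinset
    with hB
  have hBmem : ∀ h, h ∈ B ↔ zz h ≤ M := by
    intro h
    rw [hB, Set.Finite.mem_toFinset, mem_WB_iff TZ_closure, len_TZ]
    rfl
  have hsum : ∑ h ∈ B, ((1:ℝ) / 2) ^ (zz h) ≤ 3 := by
    have h1 : ∑ h ∈ B, ((1:ℝ) / 2) ^ (zz h) ≤
        ∑ p ∈ (Finset.range (M + 1)) ×ˢ ({true, false} : Finset Bool), if p.1 = 0 ∧ p.2 = false
          then 0 else ((1:ℝ) / 2) ^ p.1 := by
      refine sum_le_of_inj _ _ (fun h => (zz h, decide (0 ≤ Multiplicative.toAdd h))) _ _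
        ?_ ?_ ?_ ?_
      · intro h hh
        rw [Finset.mem_product]
        have := (hBmem h).1 hh
        refine ⟨Finset.mem_range.2 (by dsimp only; omega), ?_⟩
        dsimp only
        generalize decide (0 ≤ Multiplicative.toAdd h) = b
        revert b
        decide
      · intro h _ h' _ he
        rw [Prod.mk.injEq] at he
        obtain ⟨e1, e2⟩ := he
        unfold zz at e1
        have e3 : (0 ≤ Multiplicative.toAdd h) ↔ (0 ≤ Multiplicative.toAdd h') :=
          decide_eq_decide.1 e2
        have e4 : Multiplicative.toAdd h = Multiplicative.toAdd h' := by omega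
        exact Multiplicative.toAdd.injective e4
      · intro h _
        dsimp only
        rw [if_neg]
        rintro ⟨e1, e2⟩
        have e3 : ¬ (0 ≤ Multiplicative.toAdd h) := of_decide_eq_false e2
        unfold zz at e1
        omega
      · intro p _
        split_ifs
        · exact le_refl _
        · positivity
    refine h1.trans ?_
    rw [Finset.sum_product, Finset.sum_range_succ']
    have h5 : ∀ N : ℕ, ∑ k ∈ Finset.range N, ((1:ℝ) / 2) ^ (k + 1) = 1 - (1 / 2) ^ N := by
      intro N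
      induction N with
      | zero => simp
      | succ N ih =>
        rw [Finset.sum_range_succ, ih, pow_succ]
        ring
    have h6 : ∑ k ∈ Finset.range M, ∑ y ∈ ({true, false} : Finset Bool),
        (if (k + 1) = 0 ∧ y = false then (0:ℝ) else ((1:ℝ) / 2) ^ (k + 1)) =
        2 * ∑ k ∈ Finset.range M, ((1:ℝ) / 2) ^ (k + 1) := by
      rw [Finset.mul_sum]
      refine Finset.sum_congr rfl fun k _ => ?_
      rw [Finset.sum_pair (by decide), if_neg (by simp), if_neg (by simp)]
      ring
    have h7 : ∑ y ∈ ({true, false} : Finset Bool),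
        (if (0:ℕ) = 0 ∧ y = false then (0:ℝ) else ((1:ℝ) / 2) ^ 0) = 1 := by
      rw [Finset.sum_pair (by decide)]
      simp
    dsimp only
    rw [h6, h7, h5]
    have : (0:ℝ) ≤ (1 / 2) ^ M := by positivity
    linarith
  have h := card_fun_weight (H := Multiplicative ℤ) Y F B (fun h => ((1:ℝ) / 2) ^ (zz h))
    (fun h => by positivity) (θ := ((1:ℝ) / 2) ^ M) hsum (by
      intro f hf
      obtain ⟨h1, h2⟩ := hF f hf
      refine ⟨h1, fun x hx => ?_, ?_⟩
      · rw [hBmem]
        exact (Finset.single_le_sum (f := fun x => zz (f x)) (fun x _ => Nat.zero_le _)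
          hx).trans h2
      · rw [Finset.prod_pow_eq_pow_sum]
        exact pow_le_pow_of_le_one (by positivity) (by norm_num) h2)
  rw [one_div, inv_pow, ← div_eq_mul_inv, div_le_iff₀ (by positivity)] at h
  exact h

/-- functions with values of length divisible by `k` -/
lemma card_b_le {U : Set A} (hU : Subgroup.closure U = ⊤) (hf : U.Finite) {k : ℕ} (hk : 1 ≤ k)
    {lam : ℝ} (hlam : sph U k ≤ Real.exp (lam * k) / 2) (Y : Finset X) (q : ℕ)
    (F : Finset (X → A))
    (hF : ∀ f ∈ F, (∀ x, x ∉ Y → f x = 1) ∧ (∀ x ∈ Y, k ∣ len U (f x)) ∧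
      ∑ x ∈ Y, len U (f x) = k * q) :
    (F.card : ℝ) ≤ 2 ^ Y.card * Real.exp (lam * (k * q)) := by
  classical
  set B : Finset A := (WB_finite hf (k * q)).toFinset.filter fun a => k ∣ len U a with hB
  have hBmem : ∀ h, h ∈ B ↔ len U h ≤ k * q ∧ k ∣ len U h := by
    intro h
    rw [hB, Finset.mem_filter, Set.Finite.mem_toFinset, mem_WB_iff hU]
  have hsph : ∀ j : ℕ, sph U (k * j) ≤ (Real.exp (lam * k) / 2) ^ j := by
    intro j
    induction j with
    | zero =>
      rw [Nat.mul_zero, pow_zero]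
      have := sph_le_pow hU hf 0
      rwa [pow_zero] at this
    | succ j ih =>
      calc sph U (k * (j + 1)) = sph U (k * j + k) := by rw [Nat.mul_succ]
        _ ≤ sph U (k * j) * sph U k := sph_add_le hU hf _ _
        _ ≤ (Real.exp (lam * k) / 2) ^ j * (Real.exp (lam * k) / 2) :=
          mul_le_mul ih hlam (sph_nonneg _ _) (by positivity)
        _ = _ := (pow_succ _ _).symm
  have hsum : ∑ h ∈ B, Real.exp (-(lam * len U h)) ≤ 2 := by
    have h1 : ∑ h ∈ B, Real.exp (-(lam * len U h)) =
        ∑ j ∈ Finset.range (q + 1), ∑ h ∈ B with len U h = k * j,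
          Real.exp (-(lam * len U h)) := by
      rw [← Finset.sum_fiberwise_of_maps_to (s := B)
        (t := (Finset.range (q + 1)).image fun j => k * j) (g := fun h => len U h)]
      · rw [Finset.sum_image fun a _ b _ hab => Nat.eq_of_mul_eq_mul_left hk hab]
      · intro h hh
        obtain ⟨h2, j, hj⟩ := (hBmem h).1 hh
        rw [hj] at h2
        have h3 : j ≤ q := Nat.le_of_mul_le_mul_left h2 hk
        exact Finset.mem_image.2 ⟨j, Finset.mem_range.2 (by omega), hj.symm⟩
    rw [h1]
    have h2 : ∀ j ∈ Finset.range (q + 1), ∑ h ∈ B with len U h = k * j,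
        Real.exp (-(lam * len U h)) ≤ (1 / 2) ^ j := by
      intro j _
      have h3 : ∑ h ∈ B with len U h = k * j, Real.exp (-(lam * len U h)) =
          (B.filter fun h => len U h = k * j).card * Real.exp (-(lam * (k * j))) := by
        rw [← nsmul_eq_mul, ← Finset.sum_const]
        refine Finset.sum_congr rfl fun h hh => ?_
        rw [(Finset.mem_filter.1 hh).2]
        push_cast
        rfl
      have h4 : ((B.filter fun h => len U h = k * j).card : ℝ) ≤
          (Real.exp (lam * k) / 2) ^ j := by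
        refine le_trans ?_ (hsph j)
        unfold sph
        rw [← Set.ncard_coe_finset]
        refine Nat.cast_le.2 (Set.ncard_le_ncard ?_ (sphere_finite hU hf _))
        intro h hh
        exact (Finset.mem_filter.1 (Finset.mem_coe.1 hh)).2
      rw [h3]
      calc ((B.filter fun h => len U h = k * j).card : ℝ) * Real.exp (-(lam * (k * j)))
          ≤ (Real.exp (lam * k) / 2) ^ j * Real.exp (-(lam * (k * j))) := by gcongr
        _ = (1 / 2) ^ j := by
            rw [div_pow, ← Real.exp_nat_mul, div_mul_eq_mul_div, ← Real.exp_add]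
            rw [show (j:ℝ) * (lam * k) + -(lam * (k * j)) = 0 by ring, Real.exp_zero, one_div,
              one_div, inv_pow]
    refine (Finset.sum_le_sum h2).trans ?_
    have h5 : ∀ N : ℕ, ∑ j ∈ Finset.range N, ((1:ℝ) / 2) ^ j = 2 - 2 * (1 / 2) ^ N := by
      intro N
      induction N with
      | zero => simp
      | succ N ih =>
        rw [Finset.sum_range_succ, ih, pow_succ]
        ring
    rw [h5]
    have : (0:ℝ) ≤ (1 / 2) ^ (q + 1) := by positivity
    linarith
  have h := card_fun_weight (H := A) Y F B (fun h => Real.exp (-(lam * len U h)))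
    (fun h => (Real.exp_pos _).le) (θ := Real.exp (-(lam * (k * q)))) hsum (by
      intro f hf'
      obtain ⟨h1, h2, h3⟩ := hF f hf'
      refine ⟨h1, fun x hx => ?_, ?_⟩
      · rw [hBmem]
        refine ⟨?_, h2 x hx⟩
        rw [← h3]
        exact Finset.single_le_sum (f := fun x => len U (f x)) (fun x _ => Nat.zero_le _) hx
      · rw [← Real.exp_sum]
        refine le_of_eq ?_
        congr 1
        rw [Finset.sum_neg_distrib, ← Finset.mul_sum, ← Nat.cast_sum, h3]
        push_cast
        rfl)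
  rw [Real.exp_neg, ← div_eq_mul_inv, div_le_iff₀ (Real.exp_pos _)] at h
  exact h

end MP799c44
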