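import Mathlib

set_option autoImplicit false

/-!
The generators of the first Grigorchuk group, acting on the infinite binary sequences.
-/

namespace MP799c44

/-- the Klein four-group `1, b, c, d` -/
inductive V4 : Type
  | e | b | c | d
  deriving DecidableEq

namespace V4

def num : V4 → Fin 4
  | e => 0
  | b => 1
  | c => 2
  | d => 3

lemma num_injective : Function.Injective num := by
  intro x y h
  cases x <;> cases y <;> first | rfl | exact absurd h (by decide)

instance : Finite V4 := Finite.of_injective num num_injective

def mul : V4 → V4 → V4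
  | e, x => x
  | x, e => x
  | b, b => e
  | c, c => e
  | d, d => e
  | b, c => d
  | c, b => d
  | b, d => c
  | d, b => c
  | c, d => b
  | d, c => b

/-- the section at the first letter `1` -/
def ph1 : V4 → V4
  | e => e
  | b => c
  | c => d
  | d => b

/-- the section at the first letter `0` is `a` or trivial -/
def ph0 : V4 → Bool
  | e => false
  | b => true
  | c => true
  | d => false

lemma mul_self (x : V4) : mul x x = e := by cases x <;> rfl

lemma mul_e (x : V4) : mul x e = x := by cases x <;> rfl

lemma e_mul (x : V4) : mul e x = x := by cases x <;> rfl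

lemma ph1_mul (x y : V4) : ph1 (mul x y) = mul (ph1 x) (ph1 y) := by
  cases x <;> cases y <;> rfl

lemma ph0_mul (x y : V4) : ph0 (mul x y) = xor (ph0 x) (ph0 y) := by
  cases x <;> cases y <;> rfl

end V4

/-- the infinite binary sequences -/
abbrev XX : Type := ℕ → Bool

def consX (i : Bool) (v : XX) : XX
  | 0 => i
  | n + 1 => v n

def tailX (v : XX) : XX := fun n => v (n + 1)

lemma tail_cons (i : Bool) (v : XX) : tailX (consX i v) = v := rfl

lemma cons_zero (i : Bool) (v : XX) : consX i v 0 = i := rfl

lemma cons_tail (v : XX) : consX (v 0) (tailX v) = v := by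
  funext n
  cases n <;> rfl

lemma cons_injective (i : Bool) : Function.Injective (consX i) := by
  intro v w h
  have := congrArg tailX h
  exact this

def flipX (v : XX) : XX
  | 0 => !(v 0)
  | n + 1 => v (n + 1)

lemma flip_flip (v : XX) : flipX (flipX v) = v := by
  funext n
  cases n with
  | zero => simp [flipX]
  | succ n => rfl

lemma flip_cons (i : Bool) (v : XX) : flipX (consX i v) = consX (!i) v := by
  funext n
  cases n <;> rfl

/-- the action of the Klein group, coordinate by coordinate -/
def beta : ℕ → V4 → XX → Bool
  | 0, _, v => v 0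
  | n + 1, x, v => if v 0 then beta n (V4.ph1 x) (tailX v)
      else if V4.ph0 x then flipX (tailX v) n else tailX v n

def betaX (x : V4) (v : XX) : XX := fun n => beta n x v

lemma beta_cons_true (x : V4) (v : XX) : betaX x (consX true v) = consX true (betaX (V4.ph1 x) v) := by
  funext n
  cases n with
  | zero => rfl
  | succ n =>
    change (if (consX true v) 0 then beta n (V4.ph1 x) (tailX (consX true v))
      else if V4.ph0 x then flipX (tailX (consX true v)) n else tailX (consX true v) n) = _
    rw [cons_zero, if_pos rfl, tail_cons]
    rfl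

lemma beta_cons_false (x : V4) (v : XX) :
    betaX x (consX false v) = consX false (if V4.ph0 x then flipX v else v) := by
  funext n
  cases n with
  | zero => rfl
  | succ n =>
    change (if (consX false v) 0 then beta n (V4.ph1 x) (tailX (consX false v))
      else if V4.ph0 x then flipX (tailX (consX false v)) n
      else tailX (consX false v) n) = (if V4.ph0 x then flipX v else v) n
    rw [cons_zero, if_neg (by decide), tail_cons]
    split_ifs <;> rfl

lemma beta_e (v : XX) : betaX V4.e v = v := by
  funext n
  induction n generalizing v with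
  | zero => rfl
  | succ n ih =>
    rw [← cons_tail v]
    cases v 0 with
    | true =>
      rw [beta_cons_true]
      exact ih (tailX v)
    | false =>
      rw [beta_cons_false]
      rfl

lemma beta_mul (x y : V4) (v : XX) : betaX x (betaX y v) = betaX (V4.mul x y) v := by
  funext n
  induction n generalizing v x y with
  | zero => rfl
  | succ n ih =>
    rw [← cons_tail v]
    cases v 0 with
    | true =>
      rw [beta_cons_true, beta_cons_true, beta_cons_true, V4.ph1_mul]
      exact ih (V4.ph1 x) (V4.ph1 y) (tailX v)
    | false =>
      rw [beta_cons_false, beta_cons_false, beta_cons_false, V4.ph0_mul]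
      cases V4.ph0 x <;> cases V4.ph0 y <;> simp [flip_flip]

/-- the generator `a` -/
def ap : Equiv.Perm XX := ⟨flipX, flipX, flip_flip, flip_flip⟩

/-- the elements `1, b, c, d` -/
def bp (x : V4) : Equiv.Perm XX :=
  ⟨betaX x, betaX x, fun v => by rw [beta_mul, V4.mul_self, beta_e],
    fun v => by rw [beta_mul, V4.mul_self, beta_e]⟩

lemma ap_cons (i : Bool) (v : XX) : ap (consX i v) = consX (!i) v := flip_cons i v

lemma ap_ap (v : XX) : ap (ap v) = v := flip_flip v

lemma ap_mul_self : ap * ap = 1 := Equiv.ext fun v => ap_ap v

lemma ap_inv : ap⁻¹ = ap := inv_eq_of_mul_eq_one_left ap_mul_self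

lemma bp_true (x : V4) (v : XX) : bp x (consX true v) = consX true (bp (V4.ph1 x) v) :=
  beta_cons_true x v

lemma bp_false (x : V4) (v : XX) :
    bp x (consX false v) = consX false (if V4.ph0 x then ap v else v) :=
  beta_cons_false x v

lemma bp_mul (x y : V4) : bp x * bp y = bp (V4.mul x y) := Equiv.ext fun v => beta_mul x y v

lemma bp_mul_apply (x y : V4) (v : XX) : bp x (bp y v) = bp (V4.mul x y) v := beta_mul x y v

lemma bp_e : bp V4.e = 1 := Equiv.ext fun v => beta_e v

lemma bp_inv (x : V4) : (bp x)⁻¹ = bp x := by
  refine inv_eq_of_mul_eq_one_left ?_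
  rw [bp_mul, V4.mul_self, bp_e]

/-- the base point -/
def rho : XX := fun _ => true

lemma cons_rho : consX true rho = rho := by
  funext n
  cases n <;> rfl

lemma bp_rho (x : V4) : bp x rho = rho := by
  funext n
  change beta n x rho = true
  induction n generalizing x with
  | zero => rfl
  | succ n ih =>
    change (if rho 0 then beta n (V4.ph1 x) (tailX rho) else _) = true
    rw [show rho 0 = true from rfl, if_pos rfl]
    exact ih (V4.ph1 x)

/-! ### Words -/

/-- the product `x a y a ...` -/
def PW : V4 → List V4 → Equiv.Perm XX
  | x, [] => bp x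
  | x, y :: t => bp x * (ap * PW y t)

/-- the visited points -/
def Vis : V4 → List V4 → Set XX
  | _, [] => {rho}
  | x, y :: t => {rho} ∪ (fun v => bp x (ap v)) '' Vis y t

/-- the sections of a word, at `0` and at `1` -/
def sec : V4 → List V4 → (V4 × List V4) × (V4 × List V4)
  | x, [] => (if V4.ph0 x then (V4.e, [V4.e]) else (V4.e, []), (V4.ph1 x, []))
  | x, y :: t => (if V4.ph0 x then (V4.e, (sec y t).2.1 :: (sec y t).2.2) else (sec y t).2,
      (V4.mul (V4.ph1 x) (sec y t).1.1, (sec y t).1.2))

lemma rho_mem_Vis (x : V4) (t : List V4) : rho ∈ Vis x t := by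
  cases t with
  | nil => exact rfl
  | cons y t => exact Or.inl rfl

lemma Vis_mul {x y : V4} {t : List V4} {v : XX} (hv : v ∈ Vis x t) :
    bp y v ∈ Vis (V4.mul y x) t := by
  cases t with
  | nil =>
    have : v = rho := hv
    rw [this, bp_rho]
    exact rfl
  | cons z t =>
    rcases hv with hv | ⟨w, hw, rfl⟩
    · have : v = rho := hv
      rw [this, bp_rho]
      exact Or.inl rfl
    · exact Or.inr ⟨w, hw, (bp_mul_apply y x (ap w)).symm⟩

lemma Vis_ap {x : V4} {t : List V4} {v : XX} (hv : v ∈ Vis x t) :
    ap v ∈ Vis V4.e (x :: t) :=
  Or.inr ⟨v, hv, by rw [bp_e]; rfl⟩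

lemma Vis_finite (x : V4) (t : List V4) : (Vis x t).Finite := by
  induction t generalizing x with
  | nil => exact Set.finite_singleton _
  | cons y t ih => exact (Set.finite_singleton _).union ((ih y).image _)

/-- the visited points of the sections -/
lemma tail_mem_Vis (x : V4) (t : List V4) {v : XX} (hv : v ∈ Vis x t) :
    (v 0 = true → tailX v ∈ Vis (sec x t).2.1 (sec x t).2.2) ∧
      (v 0 = false → tailX v ∈ Vis (sec x t).1.1 (sec x t).1.2) := by
  induction t generalizing x v with
  | nil =>
    have : v = rho := hv
    subst this
    exact ⟨fun _ => rho_mem_Vis _ _, fun h => absurd h (by decide)⟩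
  | cons y t ih =>
    rcases hv with hv | ⟨w, hw, rfl⟩
    · have : v = rho := hv
      subst this
      exact ⟨fun _ => rho_mem_Vis _ _, fun h => absurd h (by decide)⟩
    · obtain ⟨h1, h2⟩ := ih y hw
      dsimp only
      rw [← cons_tail w, ap_cons]
      cases hw0 : w 0 with
      | true =>
        have h3 := h1 hw0
        rw [show (!true) = false from rfl, bp_false, cons_zero, tail_cons]
        refine ⟨fun h => absurd h (by decide), fun _ => ?_⟩
        change (if V4.ph0 x then ap (tailX w) else tailX w) ∈
          Vis (if V4.ph0 x then (V4.e, (sec y t).2.1 :: (sec y t).2.2) else (sec y t).2).1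
            (if V4.ph0 x then (V4.e, (sec y t).2.1 :: (sec y t).2.2) else (sec y t).2).2
        cases V4.ph0 x with
        | true => exact Vis_ap h3
        | false => exact h3
      | false =>
        have h3 := h2 hw0
        rw [show (!false) = true from rfl, bp_true, cons_zero, tail_cons]
        exact ⟨fun _ => Vis_mul h3, fun h => absurd h (by decide)⟩

/-- the parity of the number of letters `a` -/
def par : List V4 → Bool
  | [] => false
  | _ :: t => !(par t)

lemma PW_mul (x y : V4) (t : List V4) : PW (V4.mul y x) t = bp y * PW x t := by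
  cases t with
  | nil => exact (bp_mul y x).symm
  | cons z t =>
    change bp (V4.mul y x) * (ap * PW z t) = bp y * (bp x * (ap * PW z t))
    rw [← bp_mul, mul_assoc]

lemma PW_ap (x : V4) (t : List V4) : PW V4.e (x :: t) = ap * PW x t := by
  change bp V4.e * (ap * PW x t) = _
  rw [bp_e, one_mul]

/-- the sections of the product -/
lemma PW_apply (x : V4) (t : List V4) (v : XX) :
    PW x t v = if xor (v 0) (par t) then consX true (PW (sec x t).2.1 (sec x t).2.2 (tailX v))
      else consX false (PW (sec x t).1.1 (sec x t).1.2 (tailX v)) := by
  induction t generalizing x with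
  | nil =>
    have e1 : PW x [] v = bp x v := rfl
    rw [e1]
    nth_rw 1 [← cons_tail v]
    cases hv : v 0 with
    | true =>
      rw [bp_true]
      rfl
    | false =>
      rw [bp_false]
      change _ = consX false (PW (if V4.ph0 x then (V4.e, [V4.e]) else (V4.e, [])).1
        (if V4.ph0 x then (V4.e, [V4.e]) else (V4.e, [])).2 (tailX v))
      cases V4.ph0 x with
      | true =>
        change consX false (ap (tailX v)) = consX false (PW V4.e [V4.e] (tailX v))
        rw [PW_ap]
        change _ = consX false (ap (bp V4.e (tailX v)))
        rw [bp_e]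
        rfl
      | false =>
        change consX false (tailX v) = consX false (bp V4.e (tailX v))
        rw [bp_e]
        rfl
  | cons y t ih =>
    have e1 : PW x (y :: t) v = bp x (ap (PW y t v)) := rfl
    rw [e1, ih y]
    change _ = if xor (v 0) (!(par t)) then
      consX true (PW (V4.mul (V4.ph1 x) (sec y t).1.1) (sec y t).1.2 (tailX v))
      else consX false (PW
        (if V4.ph0 x then (V4.e, (sec y t).2.1 :: (sec y t).2.2) else (sec y t).2).1
        (if V4.ph0 x then (V4.e, (sec y t).2.1 :: (sec y t).2.2) else (sec y t).2).2 (tailX v))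
    have hx : xor (v 0) (!(par t)) = !(xor (v 0) (par t)) := by
      cases v 0 <;> cases par t <;> rfl
    rw [hx]
    cases xor (v 0) (par t) with
    | true =>
      change bp x (ap (consX true (PW (sec y t).2.1 (sec y t).2.2 (tailX v)))) = consX false _
      rw [ap_cons, show (!true) = false from rfl, bp_false]
      congr 1
      cases V4.ph0 x with
      | true =>
        change ap _ = PW V4.e ((sec y t).2.1 :: (sec y t).2.2) (tailX v)
        rw [PW_ap]
        rfl
      | false => rfl
    | false =>
      change bp x (ap (consX false (PW (sec y t).1.1 (sec y t).1.2 (tailX v)))) = consX true _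
      rw [ap_cons, show (!false) = true from rfl, bp_true, PW_mul]
      rfl

end MP799c44
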