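import Mathlib
import Pool.Agent.Lib.MP_799c44_al.Gri

set_option autoImplicit false

/-!
Norms of words and codes of group elements with visited points.
-/

namespace MP799c44

/-- the contraction constant -/
lemma exists_eta : ∃ η : ℝ, 0 < η ∧ η < 1 ∧ η ^ 3 + η ^ 2 + η = 2 := by
  have hc : ContinuousOn (fun x : ℝ => x ^ 3 + x ^ 2 + x) (Set.Icc 0 1) := by fun_prop
  have h := intermediate_value_Ioo (by norm_num : (0:ℝ) ≤ 1) hc
  have h2 : (2:ℝ) ∈ Set.Ioo ((fun x : ℝ => x ^ 3 + x ^ 2 + x) 0)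
      ((fun x : ℝ => x ^ 3 + x ^ 2 + x) 1) := by
    norm_num
  obtain ⟨η, hη, hη2⟩ := h h2
  exact ⟨η, hη.1, hη.2, hη2⟩

/-- the weights of the letters -/
def wt (η : ℝ) : V4 → ℝ
  | V4.e => 0
  | V4.b => η ^ 3
  | V4.c => 1 - η ^ 2
  | V4.d => 1 - η

/-- the norm of a word -/
def nrm (η : ℝ) : V4 → List V4 → ℝ
  | x, [] => wt η x
  | x, y :: t => wt η x + (1 - η ^ 3) + nrm η y t

section
variable {η : ℝ} (h0 : 0 < η) (h1 : η < 1) (h2 : η ^ 3 + η ^ 2 + η = 2)
include h0 h1

lemma eta_sq_lt : η ^ 2 < 1 := by nlinarith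

lemma eta_cu_lt : η ^ 3 < 1 := by
  have := eta_sq_lt h0 h1
  nlinarith

lemma wt_nonneg (x : V4) : 0 ≤ wt η x := by
  have := eta_sq_lt h0 h1
  cases x
  · exact le_refl _
  · exact (pow_pos h0 3).le
  · change 0 ≤ 1 - η ^ 2
    linarith
  · change 0 ≤ 1 - η
    linarith

lemma wt_le_one (x : V4) : wt η x ≤ 1 := by
  have h3 := eta_cu_lt h0 h1
  have h4 : 0 < η ^ 2 := pow_pos h0 2
  cases x
  · exact zero_le_one
  · exact h3.le
  · change 1 - η ^ 2 ≤ 1
    linarith
  · change 1 - η ≤ 1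
    linarith

include h2 in
lemma wt_mul_le (x y : V4) : wt η (V4.mul x y) ≤ wt η x + wt η y := by
  have e1 : wt η V4.e = 0 := rfl
  have e2 : wt η V4.b = η ^ 3 := rfl
  have e3 : wt η V4.c = 1 - η ^ 2 := rfl
  have e4 : wt η V4.d = 1 - η := rfl
  have h3 : 0 < η ^ 3 := pow_pos h0 3
  have h4 : 0 < η ^ 2 := pow_pos h0 2
  have h5 := eta_sq_lt h0 h1
  cases x <;> cases y <;> simp only [V4.mul, e1, e2, e3, e4] <;> nlinarith

lemma nrm_nonneg (x : V4) (t : List V4) : 0 ≤ nrm η x t := by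
  have h3 := eta_cu_lt h0 h1
  induction t generalizing x with
  | nil => exact wt_nonneg h0 h1 x
  | cons y t ih =>
    change 0 ≤ wt η x + (1 - η ^ 3) + nrm η y t
    have := ih y
    have := wt_nonneg h0 h1 x
    linarith

include h2 in
lemma nrm_mul_le (x y : V4) (t : List V4) : nrm η (V4.mul y x) t ≤ wt η y + nrm η x t := by
  cases t with
  | nil => exact wt_mul_le h0 h1 h2 y x
  | cons z t =>
    change wt η (V4.mul y x) + (1 - η ^ 3) + nrm η z t ≤
      wt η y + (wt η x + (1 - η ^ 3) + nrm η z t)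
    have := wt_mul_le h0 h1 h2 y x
    linarith

omit h0 h1 in
lemma nrm_ap (x : V4) (t : List V4) : nrm η V4.e (x :: t) = (1 - η ^ 3) + nrm η x t := by
  change 0 + (1 - η ^ 3) + nrm η x t = _
  ring

include h2 in
/-- the norms of the two sections of one letter -/
lemma wt_sec_le (x : V4) : (if V4.ph0 x then 1 - η ^ 3 else 0) + wt η (V4.ph1 x) ≤
    η * (wt η x + (1 - η ^ 3)) := by
  have h3 : 0 < η ^ 3 := pow_pos h0 3
  have h4 := eta_cu_lt h0 h1
  have e1 : wt η V4.e = 0 := rfl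
  have e2 : wt η V4.b = η ^ 3 := rfl
  have e3 : wt η V4.c = 1 - η ^ 2 := rfl
  have e4 : wt η V4.d = 1 - η := rfl
  cases x
  · simp only [V4.ph0, V4.ph1, e1, Bool.false_eq_true, if_false, zero_add]
    nlinarith
  · simp only [V4.ph0, V4.ph1, e2, e3, if_true]
    nlinarith
  · simp only [V4.ph0, V4.ph1, e3, e4, if_true]
    nlinarith
  · simp only [V4.ph0, V4.ph1, e2, e4, Bool.false_eq_true, if_false, zero_add]
    nlinarith

include h2 in
/-- the contraction -/
lemma nrm_sec_le (x : V4) (t : List V4) :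
    nrm η (sec x t).1.1 (sec x t).1.2 + nrm η (sec x t).2.1 (sec x t).2.2 ≤
      η * (nrm η x t + (1 - η ^ 3)) := by
  induction t generalizing x with
  | nil =>
    have h3 := wt_sec_le h0 h1 h2 x
    change nrm η (if V4.ph0 x then (V4.e, [V4.e]) else (V4.e, [])).1
      (if V4.ph0 x then (V4.e, [V4.e]) else (V4.e, [])).2 + wt η (V4.ph1 x) ≤
      η * (wt η x + (1 - η ^ 3))
    have h4 : nrm η (if V4.ph0 x then (V4.e, [V4.e]) else (V4.e, [])).1
      (if V4.ph0 x then (V4.e, [V4.e]) else (V4.e, [])).2 =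
        (if V4.ph0 x then 1 - η ^ 3 else 0) := by
      cases V4.ph0 x with
      | true =>
        change 0 + (1 - η ^ 3) + 0 = (1 - η ^ 3)
        ring
      | false => rfl
    rw [h4]
    exact h3
  | cons y t ih =>
    have h3 := wt_sec_le h0 h1 h2 x
    have h4 := ih y
    have h5 := nrm_mul_le h0 h1 h2 (sec y t).1.1 (V4.ph1 x) (sec y t).1.2
    change nrm η (if V4.ph0 x then (V4.e, (sec y t).2.1 :: (sec y t).2.2) else (sec y t).2).1
      (if V4.ph0 x then (V4.e, (sec y t).2.1 :: (sec y t).2.2) else (sec y t).2).2 +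
      nrm η (V4.mul (V4.ph1 x) (sec y t).1.1) (sec y t).1.2 ≤
      η * (wt η x + (1 - η ^ 3) + nrm η y t + (1 - η ^ 3))
    have h6 : nrm η (if V4.ph0 x then (V4.e, (sec y t).2.1 :: (sec y t).2.2) else (sec y t).2).1
      (if V4.ph0 x then (V4.e, (sec y t).2.1 :: (sec y t).2.2) else (sec y t).2).2 =
        (if V4.ph0 x then 1 - η ^ 3 else 0) + nrm η (sec y t).2.1 (sec y t).2.2 := by
      cases V4.ph0 x with
      | true => exact nrm_ap _ _
      | false =>
        change _ = 0 + _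
        rw [zero_add]
        rfl
    rw [h6]
    linarith

end

/-! ### Codes -/

variable [DecidableEq XX]

/-- a finite set of points together with a transformation -/
abbrev EE : Type := Finset XX × (XX → XX)

/-- the composition of the data of the two sections -/
def comp (p : Bool) (q₀ q₁ : EE) : EE :=
  (q₀.1.image (consX false) ∪ q₁.1.image (consX true),
    fun v => if xor (v 0) p then consX true (q₁.2 (tailX v)) else consX false (q₀.2 (tailX v)))

def stepE {L : Finset EE} : (L ⊕ Bool) → List EE → List EE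
  | Sum.inl p, st => p.1 :: st
  | Sum.inr p, q₀ :: q₁ :: st => comp p q₀ q₁ :: st
  | Sum.inr _, st => st

/-- having a code of length at most `m` -/
def Cod (L : Finset EE) (p : EE) (m : ℕ) : Prop :=
  ∃ l : List (L ⊕ Bool), l.length ≤ m ∧ ∀ st, l.foldr stepE st = p :: st

lemma Cod.leaf {L : Finset EE} {p : EE} (hp : p ∈ L) : Cod L p 1 :=
  ⟨[Sum.inl ⟨p, hp⟩], le_refl _, fun _ => rfl⟩

lemma Cod.node {L : Finset EE} {p₀ p₁ : EE} {m₀ m₁ : ℕ} (h₀ : Cod L p₀ m₀) (h₁ : Cod L p₁ m₁)
    (p : Bool) : Cod L (comp p p₀ p₁) (m₀ + m₁ + 1) := by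
  obtain ⟨l₀, hl₀, h₀⟩ := h₀
  obtain ⟨l₁, hl₁, h₁⟩ := h₁
  refine ⟨Sum.inr p :: (l₀ ++ l₁), ?_, fun st => ?_⟩
  · rw [List.length_cons, List.length_append]
    omega
  · rw [List.foldr_cons, List.foldr_append, h₁, h₀]
    rfl

lemma Cod.mono {L : Finset EE} {p : EE} {m m' : ℕ} (h : Cod L p m) (hm : m ≤ m') :
    Cod L p m' := by
  obtain ⟨l, hl, h⟩ := h
  exact ⟨l, hl.trans hm, h⟩

lemma card_Cod (L : Finset EE) (m : ℕ) (P : Finset EE) (hP : ∀ p ∈ P, Cod L p m) :
    P.card ≤ (L.card + 3) ^ m := by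
  classical
  choose! l hl hst using hP
  have h1 : P.card ≤ (Finset.univ : Finset (Fin m → Option (L ⊕ Bool))).card := by
    refine Finset.card_le_card_of_injOn (fun p i => (l p)[(i : ℕ)]?) (fun p _ => Finset.mem_coe.2
      (Finset.mem_univ _)) ?_
    intro p hp q hq h
    have hlist : l p = l q := by
      refine List.ext_getElem? fun i => ?_
      by_cases hi : i < m
      · exact congrFun h ⟨i, hi⟩
      · have h3 := hl p hp
        have h4 := hl q hq
        rw [List.getElem?_eq_none (by omega), List.getElem?_eq_none (by omega)]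
    have h5 := hst p hp []
    have h6 := hst q hq []
    rw [hlist, h6] at h5
    exact (List.cons.inj h5).1.symm
  refine h1.trans (le_of_eq ?_)
  rw [Finset.card_univ, Fintype.card_fun, Fintype.card_fin, Fintype.card_option,
    Fintype.card_sum, Fintype.card_coe, Fintype.card_bool]

/-- the decomposition of the data of a word -/
lemma data_eq (x : V4) (t : List V4) (Y : Finset XX) :
    ((Y, ⇑(PW x t)) : EE) = comp (par t)
      ((Y.filter fun v => v 0 = false).image tailX, ⇑(PW (sec x t).1.1 (sec x t).1.2))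
      ((Y.filter fun v => v 0 = true).image tailX, ⇑(PW (sec x t).2.1 (sec x t).2.2)) := by
  refine Prod.ext ?_ ?_
  · change Y = ((Y.filter fun v => v 0 = false).image tailX).image (consX false) ∪
      ((Y.filter fun v => v 0 = true).image tailX).image (consX true)
    ext v
    simp only [Finset.mem_union, Finset.mem_image, Finset.mem_filter]
    constructor
    · intro hv
      cases hv0 : v 0 with
      | true =>
        right
        refine ⟨tailX v, ⟨v, ⟨hv, hv0⟩, rfl⟩, ?_⟩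
        rw [← hv0]
        exact cons_tail v
      | false =>
        left
        refine ⟨tailX v, ⟨v, ⟨hv, hv0⟩, rfl⟩, ?_⟩
        rw [← hv0]
        exact cons_tail v
    · rintro (⟨w, ⟨u, ⟨hu, hu0⟩, rfl⟩, rfl⟩ | ⟨w, ⟨u, ⟨hu, hu0⟩, rfl⟩, rfl⟩)
      · rw [← hu0, cons_tail]
        exact hu
      · rw [← hu0, cons_tail]
        exact hu
  · funext v
    exact PW_apply x t v

lemma tail_subset (x : V4) (t : List V4) (Y : Finset XX) (hY : (Y : Set XX) ⊆ Vis x t) :
    (((Y.filter fun v => v 0 = false).image tailX : Finset XX) : Set XX) ⊆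
      Vis (sec x t).1.1 (sec x t).1.2 ∧
    (((Y.filter fun v => v 0 = true).image tailX : Finset XX) : Set XX) ⊆
      Vis (sec x t).2.1 (sec x t).2.2 := by
  constructor
  · intro w hw
    obtain ⟨v, hv, rfl⟩ := Finset.mem_image.1 (Finset.mem_coe.1 hw)
    obtain ⟨hv1, hv2⟩ := Finset.mem_filter.1 hv
    exact (tail_mem_Vis x t (hY (Finset.mem_coe.2 hv1))).2 hv2
  · intro w hw
    obtain ⟨v, hv, rfl⟩ := Finset.mem_image.1 (Finset.mem_coe.1 hw)
    obtain ⟨hv1, hv2⟩ := Finset.mem_filter.1 hv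
    exact (tail_mem_Vis x t (hY (Finset.mem_coe.2 hv1))).1 hv2

end MP799c44
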