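import Mathlib
import Pool.Agent.Lib.MP_799c44_al.GriN
import Pool.Agent.Lib.MP_799c44_al.Wr

set_option autoImplicit false

/-!
The upper bound for the number of group elements with visited points.
-/

namespace MP799c44

variable [DecidableEq XX]

omit [DecidableEq XX] in
/-- words of bounded norm are finite in number -/
lemma words_finite {η : ℝ} (h0 : 0 < η) (h1 : η < 1) (K : ℝ) :
    {p : V4 × List V4 | nrm η p.1 p.2 ≤ K}.Finite := by
  have h3 := eta_cu_lt h0 h1
  have hlen : ∀ (x : V4) (t : List V4), (t.length : ℝ) * (1 - η ^ 3) ≤ nrm η x t := by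
    intro x t
    induction t generalizing x with
    | nil =>
      rw [List.length_nil, Nat.cast_zero, zero_mul]
      exact nrm_nonneg h0 h1 x []
    | cons y t ih =>
      change (((y :: t).length : ℕ) : ℝ) * (1 - η ^ 3) ≤ wt η x + (1 - η ^ 3) + nrm η y t
      rw [List.length_cons]
      push_cast
      have := ih y
      have := wt_nonneg h0 h1 x
      linarith
  obtain ⟨M, hM⟩ := exists_nat_gt (K / (1 - η ^ 3))
  have hfin : ((Set.univ : Set V4) ×ˢ {t : List V4 | t.length ≤ M}).Finite :=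
    Set.finite_univ.prod (List.finite_length_le V4 M)
  refine hfin.subset ?_
  rintro ⟨x, t⟩ hp
  refine ⟨Set.mem_univ _, ?_⟩
  change t.length ≤ M
  have h4 := hlen x t
  have h5 : nrm η x t ≤ K := hp
  rw [div_lt_iff₀ (by linarith)] at hM
  have h6 : (t.length : ℝ) * (1 - η ^ 3) < M * (1 - η ^ 3) := by linarith
  have h7 : (t.length : ℝ) < M := lt_of_mul_lt_mul_right h6 (by linarith)
  exact_mod_cast h7.le

omit [DecidableEq XX] in
/-- the data of the words of norm at most `K` -/
lemma exists_leaf {η : ℝ} (h0 : 0 < η) (h1 : η < 1) (K : ℝ) :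
    ∃ L : Finset EE, ∀ x t (Y : Finset XX), nrm η x t ≤ K → (Y : Set XX) ⊆ Vis x t →
      ((Y, ⇑(PW x t)) : EE) ∈ L := by
  have hfin : (⋃ p ∈ {p : V4 × List V4 | nrm η p.1 p.2 ≤ K},
      (fun Y : Finset XX => ((Y, ⇑(PW p.1 p.2)) : EE)) '' {Y : Finset XX | (Y : Set XX) ⊆
        Vis p.1 p.2}).Finite := by
    refine (words_finite h0 h1 K).biUnion fun p _ => Set.Finite.image _ ?_
    have h := (Vis_finite p.1 p.2).finite_subsets
    refine Set.Finite.of_finite_image (f := fun Y : Finset XX => (Y : Set XX))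
      (h.subset ?_) (fun a _ b _ hab => Finset.coe_injective hab)
    rintro _ ⟨Y, hY, rfl⟩
    exact hY
  refine ⟨hfin.toFinset, fun x t Y hK hY => ?_⟩
  rw [Set.Finite.mem_toFinset]
  exact Set.mem_biUnion (x := (x, t)) hK ⟨Y, hY, rfl⟩

/-- the growth exponent -/
noncomputable def alph (η : ℝ) : ℝ := Real.log 2 / Real.log (2 / η)

section
variable {η : ℝ} (h0 : 0 < η) (h1 : η < 1)
include h0 h1

omit [DecidableEq XX] in
lemma log_pos' : Real.log 2 < Real.log (2 / η) := by
  refine Real.log_lt_log (by norm_num) ?_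
  rw [lt_div_iff₀ h0]
  linarith

omit [DecidableEq XX] in
lemma alph_pos : 0 < alph η :=
  div_pos (Real.log_pos (by norm_num)) (lt_trans (Real.log_pos (by norm_num)) (log_pos' h0 h1))

omit [DecidableEq XX] in
lemma alph_lt_one : alph η < 1 := by
  have h2 : 0 < Real.log (2 / η) := lt_trans (Real.log_pos (by norm_num)) (log_pos' h0 h1)
  unfold alph
  rw [div_lt_one h2]
  exact log_pos' h0 h1

omit [DecidableEq XX] in
lemma two_div_rpow : (2 / η) ^ alph η = 2 := by
  have h2 : 0 < Real.log (2 / η) := lt_trans (Real.log_pos (by norm_num)) (log_pos' h0 h1)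
  rw [Real.rpow_def_of_pos (by positivity), alph, mul_div_cancel₀ _ h2.ne',
    Real.exp_log (by norm_num)]

omit [DecidableEq XX] in
/-- concavity together with the contraction -/
lemma rpow_add_le {a b x : ℝ} (ha : 0 ≤ a) (hb : 0 ≤ b) (hx : 0 ≤ x) (hab : a + b ≤ η * x) :
    a ^ alph η + b ^ alph η ≤ x ^ alph η := by
  have hα0 := (alph_pos h0 h1).le
  have hα1 := (alph_lt_one h0 h1).le
  have hc := (Real.concaveOn_rpow hα0 hα1).2 (Set.mem_Ici.2 ha) (Set.mem_Ici.2 hb)
    (by norm_num : (0:ℝ) ≤ 1 / 2) (by norm_num : (0:ℝ) ≤ 1 / 2) (by norm_num)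
  simp only [smul_eq_mul] at hc
  have h3 : (1 / 2 * a + 1 / 2 * b) ^ alph η ≤ (x * (η / 2)) ^ alph η := by
    refine Real.rpow_le_rpow (by positivity) ?_ hα0
    linarith
  have h4 : (x * (η / 2)) ^ alph η = x ^ alph η * (1 / 2) := by
    rw [Real.mul_rpow hx (by positivity)]
    congr 1
    have h5 := two_div_rpow h0 h1
    have h6 : (η / 2) ^ alph η * (2 / η) ^ alph η = 1 := by
      rw [← Real.mul_rpow (by positivity) (by positivity)]
      rw [show η / 2 * (2 / η) = 1 by field_simp]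
      exact Real.one_rpow _
    rw [h5] at h6
    linarith
  rw [h4] at h3
  linarith

end

/-- the length of the codes -/
theorem code_length {η : ℝ} (h0 : 0 < η) (h1 : η < 1) (h2 : η ^ 3 + η ^ 2 + η = 2) :
    ∃ (L : Finset EE) (C : ℝ), 0 < C ∧ ∀ x t (Y : Finset XX), (Y : Set XX) ⊆ Vis x t →
      ∃ m : ℕ, Cod L (Y, ⇑(PW x t)) m ∧ (m : ℝ) ≤ C * (nrm η x t) ^ alph η + 1 := by
  have h3 := eta_cu_lt h0 h1
  have hα0 := alph_pos h0 h1
  have hα1 := alph_lt_one h0 h1
  set wa : ℝ := 1 - η ^ 3 with hwa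
  have hwa0 : 0 < wa := by linarith
  set κ : ℝ := η * wa / (2 - η) with hκ
  have h2η : 0 < 2 - η := by linarith
  have hκ0 : 0 < κ := by positivity
  have hκeq : η * wa = (2 - η) * κ := by
    rw [hκ]
    field_simp
  set K₀ : ℝ := max ((1 + η * wa) / (1 - η)) (κ + max 1 (2 * κ / (1 - η))) with hK₀
  have h1η : 0 < 1 - η := by linarith
  set θ : ℝ := (1 + η) / 2 with hθ
  have hθ0 : 0 < θ := by rw [hθ]; linarith
  have hθ1 : θ < 1 := by rw [hθ]; linarith
  set δ : ℝ := 1 - θ ^ alph η with hδ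
  have hδ0 : 0 < δ := by
    have := Real.rpow_lt_one hθ0.le hθ1 hα0
    rw [hδ]
    linarith
  set C : ℝ := max (2 / δ) 4 with hC
  have hC0 : 0 < C := lt_of_lt_of_le (by norm_num) (le_max_right _ _)
  have hC4 : 4 ≤ C := le_max_right _ _
  have hCδ : 2 ≤ C * δ := by
    have := le_max_left (2 / δ) 4
    rwa [← hC, div_le_iff₀ hδ0] at this
  obtain ⟨L, hL⟩ := exists_leaf h0 h1 K₀
  refine ⟨L, C, hC0, ?_⟩
  have key : ∀ n : ℕ, ∀ x t (Y : Finset XX), nrm η x t ≤ n → (Y : Set XX) ⊆ Vis x t →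
      (nrm η x t ≤ K₀ → Cod L (Y, ⇑(PW x t)) 1) ∧
      (K₀ < nrm η x t → ∃ m : ℕ, Cod L (Y, ⇑(PW x t)) m ∧
        (m : ℝ) ≤ C * (nrm η x t - κ) ^ alph η - 1) := by
    intro n
    induction n with
    | zero =>
      intro x t Y hn hY
      refine ⟨fun h => Cod.leaf (hL x t Y h hY), fun h => ?_⟩
      exfalso
      rw [Nat.cast_zero] at hn
      have : 0 < K₀ := lt_of_lt_of_le (by positivity) (le_max_left _ _)
      linarith
    | succ n ih =>
      intro x t Y hn hY
      refine ⟨fun h => Cod.leaf (hL x t Y h hY), fun h => ?_⟩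
      set N := nrm η x t with hN
      have hNK1 : (1 + η * wa) / (1 - η) < N := lt_of_le_of_lt (le_max_left _ _) h
      have hNK2 : κ + max 1 (2 * κ / (1 - η)) < N := lt_of_le_of_lt (le_max_right _ _) h
      have hx1 : 1 ≤ N - κ := by
        have := le_max_left 1 (2 * κ / (1 - η))
        linarith
      have hx2 : 2 * κ ≤ (1 - η) * (N - κ) := by
        have h5 := le_max_right 1 (2 * κ / (1 - η))
        have h6 : 2 * κ / (1 - η) ≤ N - κ := by linarith
        rw [div_le_iff₀ h1η] at h6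
        linarith
      have hcontr := nrm_sec_le h0 h1 h2 x t
      rw [← hN, ← hwa] at hcontr
      set N0 := nrm η (sec x t).1.1 (sec x t).1.2 with hN0
      set N1 := nrm η (sec x t).2.1 (sec x t).2.2 with hN1
      have hN0nn : 0 ≤ N0 := nrm_nonneg h0 h1 _ _
      have hN1nn : 0 ≤ N1 := nrm_nonneg h0 h1 _ _
      have hdec : η * (N + wa) ≤ N - 1 := by
        rw [div_lt_iff₀ h1η] at hNK1
        linarith
      have hN1' : (N : ℝ) ≤ n + 1 := by
        push_cast at hn
        exact hn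
      obtain ⟨hY0, hY1⟩ := tail_subset x t Y hY
      obtain ⟨i0, i1⟩ := ih _ _ _ (show N0 ≤ n by linarith) hY0
      obtain ⟨j0, j1⟩ := ih _ _ _ (show N1 ≤ n by linarith) hY1
      have hdata := data_eq x t Y
      have hpow : 1 ≤ (N - κ) ^ alph η := Real.one_le_rpow hx1 hα0.le
      -- one long section
      have hone : ∀ M : ℝ, K₀ < M → M ≤ η * (N + wa) →
          1 + 1 + (C * (M - κ) ^ alph η - 1) ≤ C * (N - κ) ^ alph η - 1 := by
        intro M hM1 hM2
        have hMκ : 0 ≤ M - κ := by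
          have h5 := le_max_right ((1 + η * wa) / (1 - η)) (κ + max 1 (2 * κ / (1 - η)))
          have h6 := le_max_left 1 (2 * κ / (1 - η))
          rw [← hK₀] at h5
          linarith
        have h5 : M - κ ≤ θ * (N - κ) := by
          rw [hθ]
          linarith
        have h6 : (M - κ) ^ alph η ≤ θ ^ alph η * (N - κ) ^ alph η := by
          rw [← Real.mul_rpow hθ0.le (by linarith)]
          exact Real.rpow_le_rpow hMκ h5 hα0.le
        have h7 : θ ^ alph η = 1 - δ := by
          rw [hδ]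
          ring
        rw [h7] at h6
        have h8 : C * (M - κ) ^ alph η ≤ C * ((1 - δ) * (N - κ) ^ alph η) :=
          mul_le_mul_of_nonneg_left h6 hC0.le
        have h9 : 2 * 1 ≤ (C * δ) * (N - κ) ^ alph η :=
          mul_le_mul hCδ hpow (by norm_num) (by positivity)
        linarith
      by_cases c0 : N0 ≤ K₀
      · by_cases c1 : N1 ≤ K₀
        · refine ⟨1 + 1 + 1, ?_, ?_⟩
          · rw [hdata]
            exact (i0 c0).node (j0 c1) _
          · have h9 : 4 * 1 ≤ C * (N - κ) ^ alph η :=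
              mul_le_mul hC4 hpow (by norm_num) (by positivity)
            push_cast
            linarith
        · push Not at c1
          obtain ⟨m, hm1, hm2⟩ := j1 c1
          refine ⟨1 + m + 1, ?_, ?_⟩
          · rw [hdata]
            exact (i0 c0).node hm1 _
          · have := hone N1 c1 (by linarith)
            push_cast
            linarith
      · push Not at c0
        obtain ⟨m, hm1, hm2⟩ := i1 c0
        by_cases c1 : N1 ≤ K₀
        · refine ⟨m + 1 + 1, ?_, ?_⟩
          · rw [hdata]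
            exact hm1.node (j0 c1) _
          · have := hone N0 c0 (by linarith)
            push_cast
            linarith
        · push Not at c1
          obtain ⟨m', hm1', hm2'⟩ := j1 c1
          refine ⟨m + m' + 1, ?_, ?_⟩
          · rw [hdata]
            exact hm1.node hm1' _
          · have hK0κ : κ ≤ K₀ := by
              have h5 := le_max_right ((1 + η * wa) / (1 - η)) (κ + max 1 (2 * κ / (1 - η)))
              have h6 := le_max_left 1 (2 * κ / (1 - η))
              rw [← hK₀] at h5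
              linarith
            have h5 := rpow_add_le h0 h1 (a := N0 - κ) (b := N1 - κ) (x := N - κ)
              (by linarith) (by linarith) (by linarith) (by linarith)
            have h6 := mul_le_mul_of_nonneg_left h5 hC0.le
            push_cast
            linarith
  intro x t Y hY
  obtain ⟨n, hn⟩ := exists_nat_ge (nrm η x t)
  obtain ⟨k1, k2⟩ := key n x t Y hn hY
  have hnn := nrm_nonneg h0 h1 x t
  by_cases hc : nrm η x t ≤ K₀
  · refine ⟨1, k1 hc, ?_⟩
    have : 0 ≤ C * (nrm η x t) ^ alph η := by positivity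
    push_cast
    linarith
  · push Not at hc
    obtain ⟨m, hm1, hm2⟩ := k2 hc
    refine ⟨m, hm1, hm2.trans ?_⟩
    have hK0κ : κ ≤ K₀ := by
      have h5 := le_max_right ((1 + η * wa) / (1 - η)) (κ + max 1 (2 * κ / (1 - η)))
      have h6 := le_max_left 1 (2 * κ / (1 - η))
      rw [← hK₀] at h5
      linarith
    have h5 : (nrm η x t - κ) ^ alph η ≤ (nrm η x t) ^ alph η :=
      Real.rpow_le_rpow (by linarith) (by linarith) hα0.le
    have h6 := mul_le_mul_of_nonneg_left h5 hC0.le
    linarith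

/-! ### Words in the generators -/

/-- the generators of the Grigorchuk group -/
def SG : Set (Equiv.Perm XX) := {ap, bp V4.b, bp V4.c, bp V4.d}

omit [DecidableEq XX] in
lemma SG_finite : SG.Finite := by
  unfold SG
  simp

omit [DecidableEq XX] in
lemma SG_cases {s : Equiv.Perm XX} (hs : s ∈ SG ∨ s⁻¹ ∈ SG) : s = ap ∨ ∃ x, s = bp x := by
  have h : ∀ s : Equiv.Perm XX, s ∈ SG → s = ap ∨ ∃ x, s = bp x := by
    rintro s (h | h | h | h)
    · exact Or.inl h
    · exact Or.inr ⟨_, h⟩
    · exact Or.inr ⟨_, h⟩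
    · exact Or.inr ⟨_, h⟩
  rcases hs with hs | hs
  · exact h s hs
  · rcases h _ hs with h' | ⟨x, h'⟩
    · left
      rw [← inv_inv s, h', ap_inv]
    · right
      refine ⟨x, ?_⟩
      rw [← inv_inv s, h', bp_inv]

lemma exists_word {η : ℝ} (h0 : 0 < η) (h1 : η < 1) (h2 : η ^ 3 + η ^ 2 + η = 2)
    (l : List (Equiv.Perm XX)) (hl : ∀ s ∈ l, s ∈ SG ∨ s⁻¹ ∈ SG) :
    ∃ x t, PW x t = l.prod ∧ ((visit rho l : Finset XX) : Set XX) ⊆ Vis x t ∧
      nrm η x t ≤ l.length := by
  induction l with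
  | nil =>
    refine ⟨V4.e, [], bp_e, ?_, ?_⟩
    · intro v hv
      have : v = rho := by simpa [visit] using hv
      rw [this]
      exact rho_mem_Vis _ _
    · rw [List.length_nil, Nat.cast_zero]
      exact le_refl _
  | cons s l ih =>
    obtain ⟨x, t, e1, e2, e3⟩ := ih fun y hy => hl y (List.mem_cons_of_mem _ hy)
    rw [List.prod_cons, List.length_cons]
    rcases SG_cases (hl s List.mem_cons_self) with rfl | ⟨y, rfl⟩
    · refine ⟨V4.e, x :: t, ?_, ?_, ?_⟩
      · rw [PW_ap, e1]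
      · intro v hv
        have hv' : v ∈ insert rho ((visit rho l).image fun x => ap • x) := hv
        rcases Finset.mem_insert.1 hv' with rfl | hv'
        · exact rho_mem_Vis _ _
        · obtain ⟨w, hw, rfl⟩ := Finset.mem_image.1 hv'
          exact Vis_ap (e2 (Finset.mem_coe.2 hw))
      · rw [nrm_ap]
        push_cast
        have : 0 < η ^ 3 := pow_pos h0 3
        linarith
    · refine ⟨V4.mul y x, t, ?_, ?_, ?_⟩
      · rw [PW_mul, e1]
      · intro v hv
        have hv' : v ∈ insert rho ((visit rho l).image fun x => bp y • x) := hv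
        rcases Finset.mem_insert.1 hv' with rfl | hv'
        · exact rho_mem_Vis _ _
        · obtain ⟨w, hw, rfl⟩ := Finset.mem_image.1 hv'
          exact Vis_mul (e2 (Finset.mem_coe.2 hw))
      · have h3 := nrm_mul_le h0 h1 h2 x y t
        have h4 := wt_le_one h0 h1 y
        push_cast
        linarith

/-- the upper bound -/
theorem reach_upper {η : ℝ} (h0 : 0 < η) (h1 : η < 1) (h2 : η ^ 3 + η ^ 2 + η = 2) :
    ∃ C : ℝ, 0 < C ∧ ∀ n : ℕ, 1 ≤ n → ∀ P : Finset (Finset XX × Equiv.Perm XX),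
      (∀ p ∈ P, Reach rho SG p.1 p.2 n) →
      (P.card : ℝ) ≤ Real.exp (C * (n : ℝ) ^ alph η) := by
  obtain ⟨L, C, hC0, hcode⟩ := code_length h0 h1 h2
  have hα0 := alph_pos h0 h1
  set q : ℝ := Real.log (L.card + 3) with hq
  have hq0 : 0 < q := Real.log_pos (by
    have : (0:ℝ) ≤ L.card := Nat.cast_nonneg _
    linarith)
  refine ⟨(C + 2) * q, by positivity, fun n hn P hP => ?_⟩
  classical
  have hn1 : (1:ℝ) ≤ n := by exact_mod_cast hn
  have hnp : 1 ≤ (n : ℝ) ^ alph η := Real.one_le_rpow hn1 hα0.le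
  set M : ℕ := ⌊C * (n : ℝ) ^ alph η + 1⌋₊ with hM
  have hMle : (M : ℝ) ≤ C * (n : ℝ) ^ alph η + 1 := Nat.floor_le (by positivity)
  have h3 : ∀ p ∈ P.image (fun p : Finset XX × Equiv.Perm XX => ((p.1, ⇑p.2) : EE)),
      Cod L p M := by
    intro p hp
    obtain ⟨⟨Y, γ⟩, hYγ, rfl⟩ := Finset.mem_image.1 hp
    obtain ⟨l, hl1, hl2, hl3, hl4⟩ := hP _ hYγ
    obtain ⟨x, t, e1, e2, e3⟩ := exists_word h0 h1 h2 l hl2
    dsimp only at hl3 hl4 ⊢
    have hY : (Y : Set XX) ⊆ Vis x t := fun v hv => e2 (hl4 hv)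
    obtain ⟨k, hk1, hk2⟩ := hcode x t Y hY
    have e4 : ((Y, ⇑γ) : EE) = (Y, ⇑(PW x t)) := by rw [e1, hl3]
    rw [e4]
    refine hk1.mono ?_
    rw [hM]
    refine Nat.le_floor (hk2.trans ?_)
    have h5 : nrm η x t ≤ n := e3.trans (by exact_mod_cast hl1)
    have h6 := Real.rpow_le_rpow (nrm_nonneg h0 h1 x t) h5 hα0.le
    have h7 := mul_le_mul_of_nonneg_left h6 hC0.le
    linarith
  have h4 := card_Cod L M _ h3
  rw [Finset.card_image_of_injective _ (by
    rintro ⟨Y, γ⟩ ⟨Y', γ'⟩ h
    obtain ⟨e1, e2⟩ := Prod.mk.injEq .. ▸ h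
    exact Prod.ext e1 (DFunLike.coe_injective e2))] at h4
  have h5 : (P.card : ℝ) ≤ ((L.card : ℝ) + 3) ^ M := by exact_mod_cast h4
  refine h5.trans ?_
  have h6 : ((L.card : ℝ) + 3) = Real.exp q := by
    rw [hq, Real.exp_log]
    have : (0:ℝ) ≤ L.card := Nat.cast_nonneg _
    linarith
  rw [h6, ← Real.exp_nat_mul]
  refine Real.exp_le_exp.2 ?_
  calc (M:ℝ) * q ≤ (C * (n : ℝ) ^ alph η + 1) * q := by gcongr
    _ ≤ ((C + 2) * (n : ℝ) ^ alph η) * q := by
        refine mul_le_mul_of_nonneg_right ?_ hq0.le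
        linarith
    _ = (C + 2) * q * (n : ℝ) ^ alph η := by ring

end MP799c44
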