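import Mathlib
import Pool.Agent.Lib.MP_799c44_al.GriU

set_option autoImplicit false

/-!
The lower bound for the number of visited points.
-/

namespace MP799c44

/-- the substitution of Bartholdi and Erschler -/
def zeta : List V4 → List V4
  | [] => []
  | V4.e :: w => zeta w
  | V4.b :: w => V4.b :: V4.d :: V4.c :: zeta w
  | V4.c :: w => V4.b :: V4.b :: zeta w
  | V4.d :: w => V4.c :: V4.c :: zeta w

/-- the visited points of `x a y a ...` without the last one -/
def Vm : List V4 → Set XX
  | [] => ∅
  | x :: w => {rho} ∪ (fun v => bp x (ap v)) '' Vm w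

lemma Vm_finite (w : List V4) : (Vm w).Finite := by
  induction w with
  | nil => exact Set.finite_empty
  | cons x w ih => exact (Set.finite_singleton _).union (ih.image _)

lemma cons_true_rho : consX true rho = rho := cons_rho

lemma step_bb (v : XX) : bp V4.b (ap (bp V4.b (ap (consX true v)))) =
    consX true (bp V4.c (ap v)) := by
  rw [ap_cons, show (!true) = false from rfl, bp_false, ap_cons, show (!false) = true from rfl,
    bp_true]
  rfl

lemma step_bb' (v : XX) : bp V4.b (ap (bp V4.b (ap (consX false v)))) =
    consX false (ap (bp V4.c v)) := by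
  rw [ap_cons, show (!false) = true from rfl, bp_true, ap_cons, show (!true) = false from rfl,
    bp_false]
  rfl

lemma step_cc (v : XX) : bp V4.c (ap (bp V4.c (ap (consX true v)))) =
    consX true (bp V4.d (ap v)) := by
  rw [ap_cons, show (!true) = false from rfl, bp_false, ap_cons, show (!false) = true from rfl,
    bp_true]
  rfl

lemma step_cc' (v : XX) : bp V4.c (ap (bp V4.c (ap (consX false v)))) =
    consX false (ap (bp V4.d v)) := by
  rw [ap_cons, show (!false) = true from rfl, bp_true, ap_cons, show (!true) = false from rfl,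
    bp_false]
  rfl

lemma step_bdc (v : XX) : bp V4.b (ap (bp V4.d (ap (bp V4.c (ap (consX true v)))))) =
    consX false (ap (bp V4.b (ap v))) := by
  rw [ap_cons, show (!true) = false from rfl, bp_false, ap_cons, show (!false) = true from rfl,
    bp_true, ap_cons, show (!true) = false from rfl, bp_false]
  rfl

lemma step_bdc' (v : XX) : bp V4.b (ap (bp V4.d (ap (bp V4.c (ap (consX false v)))))) =
    consX true (bp V4.b v) := by
  rw [ap_cons, show (!false) = true from rfl, bp_true, ap_cons, show (!true) = false from rfl,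
    bp_false, if_neg (by decide), ap_cons, show (!false) = true from rfl, bp_true,
    bp_mul_apply]
  rfl

lemma ap_rho : ap rho = consX false rho := by
  nth_rw 1 [← cons_rho]
  exact ap_cons true rho

lemma b_ap_rho (x : V4) (hx : V4.ph0 x = true) : bp x (ap rho) = consX false (ap rho) := by
  nth_rw 1 [ap_rho]
  rw [bp_false, if_pos hx]

lemma d_ap_rho : bp V4.b (ap (bp V4.d (ap rho))) = rho := by
  nth_rw 1 [← cons_rho]
  rw [ap_cons, show (!true) = false from rfl, bp_false, if_neg (by decide), ap_cons,
    show (!false) = true from rfl, bp_true, bp_rho, cons_rho]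

/-- the two copies of the visited points -/
lemma Vm_zeta (w : List V4) (hw : ∀ x ∈ w, x ≠ V4.e) :
    Vm (zeta w) = consX true '' Vm w ∪ (fun v => consX false (ap v)) '' Vm w := by
  induction w with
  | nil => simp [Vm, zeta]
  | cons x w ih =>
    have ih' := ih fun y hy => hw y (List.mem_cons_of_mem _ hy)
    have hx := hw x List.mem_cons_self
    cases x with
    | e => exact absurd rfl hx
    | c =>
      change {rho} ∪ (fun v => bp V4.b (ap v)) '' ({rho} ∪ (fun v => bp V4.b (ap v)) ''
        Vm (zeta w)) = consX true '' ({rho} ∪ (fun v => bp V4.c (ap v)) '' Vm w) ∪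
          (fun v => consX false (ap v)) '' ({rho} ∪ (fun v => bp V4.c (ap v)) '' Vm w)
      rw [ih']
      simp only [Set.image_union, Set.image_image, Set.image_singleton, step_bb, step_bb',
        b_ap_rho V4.b rfl, cons_rho]
      ext z
      simp only [Set.mem_union, Set.mem_singleton_iff, Set.mem_image]
      constructor
      · rintro (h | h | h | h)
        · exact Or.inl (Or.inl h)
        · exact Or.inr (Or.inl h)
        · exact Or.inl (Or.inr h)
        · exact Or.inr (Or.inr h)
      · rintro ((h | h) | h | h)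
        · exact Or.inl h
        · exact Or.inr (Or.inr (Or.inl h))
        · exact Or.inr (Or.inl h)
        · exact Or.inr (Or.inr (Or.inr h))
    | d =>
      change {rho} ∪ (fun v => bp V4.c (ap v)) '' ({rho} ∪ (fun v => bp V4.c (ap v)) ''
        Vm (zeta w)) = consX true '' ({rho} ∪ (fun v => bp V4.d (ap v)) '' Vm w) ∪
          (fun v => consX false (ap v)) '' ({rho} ∪ (fun v => bp V4.d (ap v)) '' Vm w)
      rw [ih']
      simp only [Set.image_union, Set.image_image, Set.image_singleton, step_cc, step_cc',
        b_ap_rho V4.c rfl, cons_rho]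
      ext z
      simp only [Set.mem_union, Set.mem_singleton_iff, Set.mem_image]
      constructor
      · rintro (h | h | h | h)
        · exact Or.inl (Or.inl h)
        · exact Or.inr (Or.inl h)
        · exact Or.inl (Or.inr h)
        · exact Or.inr (Or.inr h)
      · rintro ((h | h) | h | h)
        · exact Or.inl h
        · exact Or.inr (Or.inr (Or.inl h))
        · exact Or.inr (Or.inl h)
        · exact Or.inr (Or.inr (Or.inr h))
    | b =>
      change {rho} ∪ (fun v => bp V4.b (ap v)) '' ({rho} ∪ (fun v => bp V4.d (ap v)) ''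
        ({rho} ∪ (fun v => bp V4.c (ap v)) '' Vm (zeta w))) =
          consX true '' ({rho} ∪ (fun v => bp V4.b (ap v)) '' Vm w) ∪
          (fun v => consX false (ap v)) '' ({rho} ∪ (fun v => bp V4.b (ap v)) '' Vm w)
      rw [ih']
      simp only [Set.image_union, Set.image_image, Set.image_singleton, step_bdc, step_bdc',
        b_ap_rho V4.b rfl, d_ap_rho, cons_rho]
      ext z
      simp only [Set.mem_union, Set.mem_singleton_iff, Set.mem_image]
      constructor
      · rintro (h | h | h | h | h)
        · exact Or.inl (Or.inl h)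
        · exact Or.inr (Or.inl h)
        · exact Or.inl (Or.inl h)
        · exact Or.inr (Or.inr h)
        · exact Or.inl (Or.inr h)
      · rintro ((h | h) | h | h)
        · exact Or.inl h
        · exact Or.inr (Or.inr (Or.inr (Or.inr h)))
        · exact Or.inr (Or.inl h)
        · exact Or.inr (Or.inr (Or.inr (Or.inl h)))

lemma ncard_Vm_zeta (w : List V4) (hw : ∀ x ∈ w, x ≠ V4.e) :
    (Vm (zeta w)).ncard = 2 * (Vm w).ncard := by
  have hdis : Disjoint (consX true '' Vm w) ((fun v => consX false (ap v)) '' Vm w) := by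
    rw [Set.disjoint_left]
    rintro z ⟨v, -, rfl⟩ ⟨v', -, h⟩
    have := congrFun h 0
    change false = true at this
    exact absurd this (by decide)
  have hinj : Function.Injective (fun v => consX false (ap v)) := by
    intro v v' h
    exact ap.injective (cons_injective false h)
  rw [Vm_zeta w hw, Set.ncard_union_eq hdis ((Vm_finite w).image _) ((Vm_finite w).image _),
    Set.ncard_image_of_injective _ (cons_injective true), Set.ncard_image_of_injective _ hinj]
  ring

lemma zeta_ne (w : List V4) : ∀ x ∈ zeta w, x ≠ V4.e := by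
  induction w with
  | nil => simp [zeta]
  | cons y w ih =>
    cases y with
    | e => exact ih
    | b =>
      intro x hx
      change x ∈ V4.b :: V4.d :: V4.c :: zeta w at hx
      simp only [List.mem_cons] at hx
      rcases hx with rfl | rfl | rfl | hx
      · decide
      · decide
      · decide
      · exact ih x hx
    | c =>
      intro x hx
      change x ∈ V4.b :: V4.b :: zeta w at hx
      simp only [List.mem_cons] at hx
      rcases hx with rfl | rfl | hx
      · decide
      · decide
      · exact ih x hx
    | d =>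
      intro x hx
      change x ∈ V4.c :: V4.c :: zeta w at hx
      simp only [List.mem_cons] at hx
      rcases hx with rfl | rfl | hx
      · decide
      · decide
      · exact ih x hx

/-- the weights of `a x` -/
def vv (η : ℝ) : V4 → ℝ
  | V4.e => 0
  | V4.b => 1
  | V4.c => η
  | V4.d => η ^ 2

def nz (η : ℝ) : List V4 → ℝ
  | [] => 0
  | x :: w => vv η x + nz η w

lemma nz_zeta {η : ℝ} (h2 : η ^ 3 + η ^ 2 + η = 2) (w : List V4) :
    η * nz η (zeta w) = 2 * nz η w := by
  induction w with
  | nil => simp [zeta, nz]
  | cons y w ih =>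
    cases y with
    | e =>
      change η * nz η (zeta w) = 2 * (0 + nz η w)
      rw [zero_add]
      exact ih
    | b =>
      change η * (1 + (η ^ 2 + (η + nz η (zeta w)))) = 2 * (1 + nz η w)
      linear_combination ih + h2
    | c =>
      change η * (1 + (1 + nz η (zeta w))) = 2 * (η + nz η w)
      linear_combination ih
    | d =>
      change η * (η + (η + nz η (zeta w))) = 2 * (η ^ 2 + nz η w)
      linear_combination ih

lemma length_le_nz {η : ℝ} (h0 : 0 < η) (h1 : η < 1) (w : List V4) (hw : ∀ x ∈ w, x ≠ V4.e) :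
    η ^ 2 * w.length ≤ nz η w := by
  have h4 : η ^ 2 ≤ 1 := by nlinarith
  have h5 : η ^ 2 ≤ η := by nlinarith
  induction w with
  | nil => simp [nz]
  | cons y w ih =>
    have ih' := ih fun x hx => hw x (List.mem_cons_of_mem _ hx)
    have hy := hw y List.mem_cons_self
    have hv : η ^ 2 ≤ vv η y := by
      cases y with
      | e => exact absurd rfl hy
      | b => exact h4
      | c => exact h5
      | d => exact le_refl _
    change η ^ 2 * ((y :: w).length : ℝ) ≤ vv η y + nz η w
    rw [List.length_cons]
    push_cast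
    linarith

/-- the iterated substitution -/
def Zk : ℕ → List V4
  | 0 => [V4.b]
  | k + 1 => zeta (Zk k)

lemma Zk_ne (k : ℕ) : ∀ x ∈ Zk k, x ≠ V4.e := by
  cases k with
  | zero =>
    intro x hx
    have : x = V4.b := by simpa [Zk] using hx
    rw [this]
    decide
  | succ k => exact zeta_ne _

lemma ncard_Zk (k : ℕ) : (Vm (Zk k)).ncard = 2 ^ k := by
  induction k with
  | zero =>
    change ({rho} ∪ (fun v => bp V4.b (ap v)) '' (∅ : Set XX)).ncard = 1
    rw [Set.image_empty, Set.union_empty, Set.ncard_singleton]
  | succ k ih =>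
    change (Vm (zeta (Zk k))).ncard = _
    rw [ncard_Vm_zeta _ (Zk_ne k), ih, pow_succ, mul_comm]

lemma nz_Zk {η : ℝ} (h0 : 0 < η) (h2 : η ^ 3 + η ^ 2 + η = 2) (k : ℕ) :
    nz η (Zk k) = (2 / η) ^ k := by
  induction k with
  | zero =>
    change 1 + 0 = _
    rw [pow_zero, add_zero]
  | succ k ih =>
    have h := nz_zeta h2 (Zk k)
    change nz η (zeta (Zk k)) = _
    rw [ih] at h
    rw [pow_succ, mul_div_assoc', eq_div_iff h0.ne', mul_comm]
    linarith

/-- the word in the generators -/
def fl : List V4 → List (Equiv.Perm XX)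
  | [] => []
  | x :: w => bp x :: ap :: fl w

lemma fl_length (w : List V4) : (fl w).length = 2 * w.length := by
  induction w with
  | nil => rfl
  | cons x w ih =>
    change (fl w).length + 1 + 1 = 2 * (w.length + 1)
    rw [ih]
    ring

lemma fl_mem (w : List V4) (hw : ∀ x ∈ w, x ≠ V4.e) : ∀ s ∈ fl w, s ∈ SG ∨ s⁻¹ ∈ SG := by
  induction w with
  | nil => simp [fl]
  | cons y w ih =>
    have ih' := ih fun x hx => hw x (List.mem_cons_of_mem _ hx)
    have hy := hw y List.mem_cons_self
    intro s hs
    change s ∈ bp y :: ap :: fl w at hs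
    simp only [List.mem_cons] at hs
    rcases hs with rfl | rfl | hs
    · left
      unfold SG
      cases y with
      | e => exact absurd rfl hy
      | b => simp
      | c => simp
      | d => simp
    · left
      unfold SG
      simp
    · exact ih' s hs

variable [DecidableEq XX]

lemma Vm_subset_visit (w : List V4) : Vm w ⊆ ((visit rho (fl w) : Finset XX) : Set XX) := by
  induction w with
  | nil => exact Set.empty_subset _
  | cons x w ih =>
    rintro z (hz | ⟨v, hv, rfl⟩)
    · have : z = rho := hz
      rw [this]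
      exact Finset.mem_coe.2 (start_mem_visit _ _)
    · have h1 : v ∈ visit rho (fl w) := Finset.mem_coe.1 (ih hv)
      change bp x (ap v) ∈ ((insert rho ((insert rho ((visit rho (fl w)).image
        fun x => ap • x)).image fun y => bp x • y) : Finset XX) : Set XX)
      refine Finset.mem_coe.2 (Finset.mem_insert_of_mem (Finset.mem_image.2
        ⟨ap v, Finset.mem_insert_of_mem (Finset.mem_image.2 ⟨v, h1, rfl⟩), rfl⟩))

lemma reach_Zk (k : ℕ) : ∃ (Y : Finset XX) (γ : Equiv.Perm XX), Y.card = 2 ^ k ∧
    Reach rho SG Y γ (2 * (Zk k).length) := by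
  refine ⟨(Vm_finite (Zk k)).toFinset, (fl (Zk k)).prod, ?_, fl (Zk k), ?_, ?_, rfl, ?_⟩
  · rw [← Set.ncard_eq_toFinset_card _ (Vm_finite (Zk k))]
    exact ncard_Zk k
  · rw [fl_length]
  · exact fl_mem _ (Zk_ne k)
  · intro z hz
    rw [Set.Finite.mem_toFinset] at hz
    exact Finset.mem_coe.1 (Vm_subset_visit _ hz)

/-- the lower bound -/
theorem reach_lower {η : ℝ} (h0 : 0 < η) (h1 : η < 1) (h2 : η ^ 3 + η ^ 2 + η = 2) :
    ∃ c : ℝ, 0 < c ∧ ∀ n : ℕ, 1 ≤ n → ∃ (Y : Finset XX) (γ : Equiv.Perm XX),
      Reach rho SG Y γ n ∧ c * (n : ℝ) ^ alph η ≤ Y.card := by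
  have hα0 := alph_pos h0 h1
  set B : ℝ := 2 / η ^ 2 with hB
  have hB0 : 0 < B := by positivity
  have hBα : 0 < B ^ alph η := Real.rpow_pos_of_pos hB0 _
  refine ⟨1 / (2 * B ^ alph η), by positivity, fun n hn => ?_⟩
  have hn0 : (0:ℝ) ≤ n := Nat.cast_nonneg _
  by_cases hnB : (n:ℝ) < B
  · refine ⟨{rho}, 1, ⟨[], Nat.zero_le _, by simp, rfl, ?_⟩, ?_⟩
    · intro z hz
      rw [Finset.mem_singleton] at hz
      rw [hz]
      exact start_mem_visit _ _
    · rw [Finset.card_singleton, Nat.cast_one]
      have h3 : (n:ℝ) ^ alph η ≤ B ^ alph η := Real.rpow_le_rpow hn0 hnB.le hα0.le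
      rw [one_div_mul_eq_div, div_le_one (by positivity)]
      linarith
  · push Not at hnB
    have h3 : 1 ≤ (n:ℝ) / B := (one_le_div hB0).2 hnB
    have h4 : 1 < 2 / η := by
      rw [lt_div_iff₀ h0]
      linarith
    obtain ⟨k, hk1, hk2⟩ := exists_nat_pow_near h3 h4
    obtain ⟨Y, γ, hY, hr⟩ := reach_Zk k
    refine ⟨Y, γ, hr.mono (le_refl _) ?_, ?_⟩
    · have h5 := length_le_nz h0 h1 (Zk k) (Zk_ne k)
      rw [nz_Zk h0 h2] at h5
      have h6 : (2:ℝ) * (Zk k).length ≤ n := by
        have h7 : ((Zk k).length : ℝ) ≤ (2 / η) ^ k / η ^ 2 := by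
          rw [le_div_iff₀ (by positivity)]
          linarith
        calc (2:ℝ) * (Zk k).length ≤ 2 * ((2 / η) ^ k / η ^ 2) := by gcongr
          _ = (2 / η) ^ k * B := by
              rw [hB]
              ring
          _ ≤ ((n:ℝ) / B) * B := by gcongr
          _ = n := div_mul_cancel₀ _ hB0.ne'
      exact_mod_cast h6
    · rw [hY]
      push_cast
      have h5 : ((n:ℝ) / B) ^ alph η ≤ 2 ^ (k + 1) := by
        calc ((n:ℝ) / B) ^ alph η ≤ ((2 / η) ^ (k + 1)) ^ alph η :=
              Real.rpow_le_rpow (by positivity) hk2.le hα0.le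
          _ = ((2 / η) ^ alph η) ^ (k + 1) := by
              rw [← Real.rpow_natCast, ← Real.rpow_natCast, ← Real.rpow_mul (by positivity),
                ← Real.rpow_mul (by positivity), mul_comm]
          _ = 2 ^ (k + 1) := by rw [two_div_rpow h0 h1]
      rw [Real.div_rpow hn0 hB0.le, pow_succ] at h5
      rw [one_div_mul_eq_div, div_le_iff₀ (by positivity)]
      rw [div_le_iff₀ hBα] at h5
      linarith

end MP799c44
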