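import Mathlib
import Pool.Agent.Lib.MP_799c44_al.AZ

set_option autoImplicit false

/-!
Moving length from the first components of the lamps to the integer components.
-/

namespace MP799c44

open Finset SemidirectProduct

variable {Γ X A : Type*} [Group Γ] [MulAction Γ X] [DecidableEq X] [Group A]

omit [Group Γ] [MulAction Γ X] [Group A] in
lemma exists_le_sum (Y : Finset X) (v : X → ℕ) {q : ℕ} (hq : q ≤ ∑ x ∈ Y, v x) :
    ∃ u : X → ℕ, (∀ x ∈ Y, u x ≤ v x) ∧ ∑ x ∈ Y, u x = q := by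
  induction Y using Finset.induction_on generalizing q with
  | empty =>
    refine ⟨fun _ => 0, by simp, ?_⟩
    rw [Finset.sum_empty] at hq ⊢
    omega
  | insert x Y hx ih =>
    rw [Finset.sum_insert hx] at hq
    obtain ⟨u, hu1, hu2⟩ := ih (q := min q (∑ x ∈ Y, v x)) (min_le_right _ _)
    refine ⟨Function.update u x (q - ∑ x ∈ Y, v x), ?_, ?_⟩
    · intro y hy
      by_cases hyx : y = x
      · subst hyx
        rw [Function.update_self]
        omega
      · rw [Function.update_of_ne hyx]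
        exact hu1 y ((Finset.mem_insert.1 hy).resolve_left hyx)
    · rw [Finset.sum_insert hx, Function.update_self]
      have : ∑ y ∈ Y, Function.update u x (q - ∑ x ∈ Y, v x) y = ∑ y ∈ Y, u y := by
        refine Finset.sum_congr rfl fun y hy => ?_
        rw [Function.update_of_ne]
        exact fun h => hx (h ▸ hy)
      rw [this, hu2]
      omega

omit [Group Γ] [MulAction Γ X] in
lemma exists_reduce {U : Set A} (hU : Subgroup.closure U = ⊤) {k : ℕ} (hk : 1 ≤ k)
    (Y : Finset X) (f : X → A) (q : ℕ)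
    (hq : k * q + k * Y.card ≤ ∑ x ∈ Y, len U (f x)) :
    ∃ a b : X → A, (∀ x, x ∉ Y → b x = 1) ∧
      (∀ x ∈ Y, f x = a x * b x ∧ len U (a x) + len U (b x) = len U (f x) ∧ k ∣ len U (b x)) ∧
      ∑ x ∈ Y, len U (b x) = k * q := by
  have h1 : q ≤ ∑ x ∈ Y, len U (f x) / k := by
    have h2 : ∑ x ∈ Y, len U (f x) ≤ ∑ x ∈ Y, (k * (len U (f x) / k) + k) := by
      refine Finset.sum_le_sum fun x _ => ?_
      have := Nat.div_add_mod (len U (f x)) k
      have h3 := Nat.mod_lt (len U (f x)) hk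
      omega
    rw [Finset.sum_add_distrib, ← Finset.mul_sum, Finset.sum_const, smul_eq_mul,
      Nat.mul_comm Y.card k] at h2
    have h4 : k * q ≤ k * ∑ x ∈ Y, len U (f x) / k := by omega
    exact Nat.le_of_mul_le_mul_left h4 hk
  obtain ⟨u, hu1, hu2⟩ := exists_le_sum Y _ h1
  have h5 : ∀ x, ∃ a b : A, x ∈ Y → (f x = a * b ∧ len U a + len U b = len U (f x) ∧
      len U b = k * u x) := by
    intro x
    by_cases hx : x ∈ Y
    · have h6 : k * u x ≤ len U (f x) := by
        have := hu1 x hx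
        calc k * u x ≤ k * (len U (f x) / k) := Nat.mul_le_mul_left _ this
          _ ≤ len U (f x) := Nat.mul_div_le _ _
      obtain ⟨a, b, ha, hb, hab⟩ := exists_split hU (g := f x) (i := len U (f x) - k * u x)
        (j := k * u x) (by omega)
      exact ⟨a, b, fun _ => ⟨hab, by omega, hb⟩⟩
    · exact ⟨1, 1, fun h => absurd h hx⟩
  choose a b hab using h5
  refine ⟨a, fun x => if x ∈ Y then b x else 1, ?_, ?_, ?_⟩
  · intro x hx
    dsimp only
    rw [if_neg hx]
  · intro x hx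
    dsimp only
    rw [if_pos hx]
    obtain ⟨h1, h2, h3⟩ := hab x hx
    exact ⟨h1, h2, ⟨u x, h3⟩⟩
  · rw [← hu2, Finset.mul_sum]
    refine Finset.sum_congr rfl fun x hx => ?_
    dsimp only
    rw [if_pos hx]
    exact (hab x hx).2.2

lemma transfer_fiber {x₀ : X} {S : Set Γ} {U : Set A} (hU : Subgroup.closure U = ⊤)
    (hf : U.Finite) {k : ℕ} (hk : 1 ≤ k)
    {lam : ℝ} (hlam : sph U k ≤ Real.exp (lam * k) / 2) (Y : Finset X) (hY : 1 ≤ Y.card)
    (γ : Γ) (n q P R : ℕ) (hPq : (P + 1) * Y.card ≤ k * q)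
    (A₁ B₁ : Finset ((X → A × Multiplicative ℤ) ⋊[mulAutArrow] Γ))
    (hA : ∀ w ∈ A₁, w.right = γ ∧ sp w.left = Y ∧ w ∈ WB (WG x₀ S (TA U)) (n + 1) ∧
      ∑ x ∈ Y, zz (w.left x).2 ≤ R * Y.card ∧
      k * q + k * Y.card ≤ ∑ x ∈ Y, len U (w.left x).1)
    (hB : ∀ w, w ∈ WB (WG x₀ S (TA U)) n → w.right = γ → sp w.left = Y → w ∈ B₁) :
    (A₁.card : ℝ) * P ^ Y.card ≤ B₁.card * ((2 ^ Y.card * Real.exp (lam * (k * q))) *
      (3 ^ Y.card * 2 ^ (R * Y.card))) := by
  classical
  have hTA := TA_closure hU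
  have hred : ∀ w ∈ A₁, ∃ a b : X → A, (∀ x, x ∉ Y → b x = 1) ∧
      (∀ x ∈ Y, (w.left x).1 = a x * b x ∧ len U (a x) + len U (b x) = len U (w.left x).1 ∧
        k ∣ len U (b x)) ∧ ∑ x ∈ Y, len U (b x) = k * q :=
    fun w hw => exists_reduce hU hk Y (fun x => (w.left x).1) q (hA w hw).2.2.2.2
  choose! a b hb1 hab hb2 using hred
  -- the elements are trivial off `Y`
  have hoff : ∀ w ∈ A₁, ∀ x, w.left x ≠ 1 ↔ x ∈ Y := by
    intro w hw x
    obtain ⟨-, h2, h3, -⟩ := hA w hw
    obtain ⟨⟨Y', hY'⟩, -⟩ := (mem_ball_iff hTA).1 h3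
    rw [← h2]
    exact (mem_sp hY').symm
  set Eb : Finset (X → A) := A₁.image b with hEb
  set Ez : Finset (X → Multiplicative ℤ) := A₁.image fun w x => (w.left x).2 with hEz
  have hEbc : (Eb.card : ℝ) ≤ 2 ^ Y.card * Real.exp (lam * (k * q)) := by
    refine card_b_le hU hf hk hlam Y q Eb ?_
    intro g hg
    obtain ⟨w, hw, rfl⟩ := Finset.mem_image.1 hg
    exact ⟨hb1 w hw, fun x hx => (hab w hw x hx).2.2, hb2 w hw⟩
  have hEzc : (Ez.card : ℝ) ≤ 3 ^ Y.card * 2 ^ (R * Y.card) := by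
    refine card_z_le Y _ Ez ?_
    intro g hg
    obtain ⟨w, hw, rfl⟩ := Finset.mem_image.1 hg
    refine ⟨fun x hx => ?_, (hA w hw).2.2.2.1⟩
    have : w.left x = 1 := by
      by_contra hne
      exact hx ((hoff w hw x).1 hne)
    dsimp only
    rw [this]
    rfl
  set G : Finset (Y → ℕ) := Fintype.piFinset fun _ : Y => Finset.Icc 1 P with hG
  have hGc : G.card = P ^ Y.card := by
    rw [hG, Fintype.card_piFinset]
    simp
  set f' : (X → A × Multiplicative ℤ) ⋊[mulAutArrow] Γ → (Y → ℕ) → X → A × Multiplicative ℤ :=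
    fun w g x => if h : x ∈ Y then (a w x, Multiplicative.ofAdd ((g ⟨x, h⟩ : ℕ) : ℤ)) else 1
    with hf'
  have hf'in : ∀ w g x, ∀ h : x ∈ Y, f' w g x =
      (a w x, Multiplicative.ofAdd ((g ⟨x, h⟩ : ℕ) : ℤ)) := by
    intro w g x h
    rw [hf']
    dsimp only
    rw [dif_pos h]
  have hf'out : ∀ w g x, x ∉ Y → f' w g x = 1 := by
    intro w g x h
    rw [hf']
    dsimp only
    rw [dif_neg h]
  have hzzg : ∀ m : ℕ, zz (Multiplicative.ofAdd ((m : ℕ) : ℤ)) = m := fun m => by
    unfold zz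
    rw [toAdd_ofAdd, Int.natAbs_natCast]
  have hcard : (A₁ ×ˢ G).card ≤ (B₁ ×ˢ (Eb ×ˢ Ez)).card := by
    refine Finset.card_le_card_of_injOn
      (fun p => (⟨f' p.1 p.2, γ⟩, (b p.1, fun x => (p.1.left x).2))) ?_ ?_
    · rintro ⟨w, g⟩ hp
      obtain ⟨hw, hg⟩ := Finset.mem_product.1 (Finset.mem_coe.1 hp)
      dsimp only at hw hg ⊢
      obtain ⟨h1, h2, h3, h4, h5⟩ := hA w hw
      have hg' : ∀ x : Y, 1 ≤ g x ∧ g x ≤ P := fun x =>
        Finset.mem_Icc.1 (Fintype.mem_piFinset.1 hg x)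
      have hne : ∀ x, f' w g x ≠ 1 ↔ x ∈ Y := by
        intro x
        constructor
        · intro h
          by_contra hx
          exact h (hf'out w g x hx)
        · intro hx h
          rw [hf'in w g x hx] at h
          have e1 := congrArg (fun p : A × Multiplicative ℤ => zz p.2) h
          dsimp only at e1
          rw [hzzg] at e1
          have e2 : zz (1 : A × Multiplicative ℤ).2 = 0 := rfl
          have := (hg' ⟨x, hx⟩).1
          omega
      have hsp : sp (f' w g) = Y := by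
        ext x
        rw [mem_sp (Y := Y) fun x hx => (hne x).1 hx, hne]
      refine Finset.mem_coe.2 (Finset.mem_product.2 ⟨hB _ ?_ rfl hsp, Finset.mem_product.2
        ⟨Finset.mem_image_of_mem _ hw, Finset.mem_image.2 ⟨w, hw, rfl⟩⟩⟩)
      obtain ⟨hfin, j, hj, hjn⟩ := (mem_ball_iff hTA).1 h3
      rw [mem_ball_iff hTA]
      refine ⟨⟨Y, fun x hx => (hne x).1 hx⟩, j, ?_, ?_⟩
      · dsimp only
        rw [hsp, ← h2, ← h1]
        exact hj
      · dsimp only
        have e1 : tot (TA U) (f' w g) ≤ ∑ x ∈ Y, len U (a w x) + P * Y.card := by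
          unfold tot
          rw [hsp]
          calc ∑ x ∈ Y, len (TA U) (f' w g x) ≤ ∑ x ∈ Y, (len U (a w x) + P) := by
                refine Finset.sum_le_sum fun x hx => ?_
                rw [hf'in w g x hx, len_TA hU]
                dsimp only
                rw [hzzg]
                have := (hg' ⟨x, hx⟩).2
                omega
            _ = _ := by
                rw [Finset.sum_add_distrib, Finset.sum_const, smul_eq_mul, Nat.mul_comm P]
        have e2 : ∑ x ∈ Y, len U (a w x) + k * q = ∑ x ∈ Y, len U (w.left x).1 := by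
          rw [← hb2 w hw, ← Finset.sum_add_distrib]
          exact Finset.sum_congr rfl fun x hx => (hab w hw x hx).2.1
        have e3 : ∑ x ∈ Y, len U (w.left x).1 ≤ tot (TA U) w.left := by
          unfold tot
          rw [h2]
          refine Finset.sum_le_sum fun x _ => ?_
          rw [len_TA hU]
          omega
        have e4 : (P + 1) * Y.card = P * Y.card + Y.card := by ring
        omega
    · rintro ⟨w, g⟩ hp ⟨w', g'⟩ hp' h
      obtain ⟨hw, hg⟩ := Finset.mem_product.1 (Finset.mem_coe.1 hp)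
      obtain ⟨hw', hg'⟩ := Finset.mem_product.1 (Finset.mem_coe.1 hp')
      dsimp only at hw hg hw' hg' h
      rw [Prod.mk.injEq, Prod.mk.injEq] at h
      obtain ⟨h1, h2, h3⟩ := h
      have hl : f' w g = f' w' g' := congrArg SemidirectProduct.left h1
      have hgg : g = g' := by
        funext x
        have e1 := congrFun hl x
        rw [hf'in w g x x.2, hf'in w' g' x x.2, Prod.mk.injEq] at e1
        have e2 := congrArg zz e1.2
        rwa [hzzg, hzzg] at e2
      have hleft : w.left = w'.left := by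
        funext x
        by_cases hx : x ∈ Y
        · have e1 := congrFun hl x
          rw [hf'in w g x hx, hf'in w' g' x hx, Prod.mk.injEq] at e1
          refine Prod.ext ?_ (congrFun h3 x)
          rw [(hab w hw x hx).1, (hab w' hw' x hx).1, e1.1, h2]
        · have e1 : w.left x = 1 := by
            by_contra hne
            exact hx ((hoff w hw x).1 hne)
          have e2 : w'.left x = 1 := by
            by_contra hne
            exact hx ((hoff w' hw' x).1 hne)
          rw [e1, e2]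
      have hww : w = w' := SemidirectProduct.ext hleft
        ((hA w hw).1.trans (hA w' hw').1.symm)
      rw [hww, hgg]
  rw [Finset.card_product, Finset.card_product, Finset.card_product, hGc] at hcard
  have hcard' : (A₁.card : ℝ) * P ^ Y.card ≤ B₁.card * (Eb.card * Ez.card) := by
    exact_mod_cast hcard
  refine hcard'.trans ?_
  gcongr

/-- summation over the fibres of a map -/
lemma card_of_fibers {α β : Type*} [DecidableEq β] (A₁ B₁ : Finset α) (κ : α → β) (P : ℕ)
    (h : ∀ y ∈ A₁.image κ,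
      P * (A₁.filter fun w => κ w = y).card ≤ (B₁.filter fun w => κ w = y).card) :
    P * A₁.card ≤ B₁.card := by
  have h1 : A₁.card = ∑ y ∈ A₁.image κ, (A₁.filter fun w => κ w = y).card :=
    Finset.card_eq_sum_card_fiberwise fun w hw => Finset.mem_image_of_mem _ hw
  have h2 : ∑ y ∈ A₁.image κ, (B₁.filter fun w => κ w = y).card =
      (B₁.filter fun w => κ w ∈ A₁.image κ).card := by
    rw [Finset.card_eq_sum_card_fiberwise (f := κ) (t := A₁.image κ)
      (s := B₁.filter fun w => κ w ∈ A₁.image κ)]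
    · refine Finset.sum_congr rfl fun y hy => ?_
      congr 1
      ext w
      simp only [Finset.mem_filter]
      constructor
      · rintro ⟨hw, rfl⟩
        exact ⟨⟨hw, hy⟩, rfl⟩
      · rintro ⟨⟨hw, -⟩, hwy⟩
        exact ⟨hw, hwy⟩
    · intro w hw
      exact (Finset.mem_filter.1 (Finset.mem_coe.1 hw)).2
  rw [h1, Finset.mul_sum]
  exact (Finset.sum_le_sum h).trans (h2.le.trans (Finset.card_filter_le _ _))

/-- the elements of the sphere with long first components and short integer components -/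
theorem transfer {x₀ : X} {S : Set Γ} {U : Set A} (hS : S.Finite)
    (hU : Subgroup.closure U = ⊤) (hf : U.Finite)
    (hsub : ∀ α : ℝ, 0 < α → ∃ y₀ : ℕ, ∀ y ≥ y₀, sph U y ≤ Real.exp (α * y)) (R P' : ℕ) :
    ∃ k M₂ : ℕ, 1 ≤ k ∧ ∀ n, ∀ A₁ : Finset ((X → A × Multiplicative ℤ) ⋊[mulAutArrow] Γ),
      (∀ w ∈ A₁, w ∈ WB (WG x₀ S (TA U)) (n + 1) ∧ k ≤ (sp w.left).card ∧
        ∑ x ∈ sp w.left, zz (w.left x).2 ≤ R * (sp w.left).card ∧
        M₂ * (sp w.left).card ≤ ∑ x ∈ sp w.left, len U (w.left x).1) →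
      P' * A₁.card ≤ (WB (WG x₀ S (TA U)) n).ncard := by
  classical
  set P : ℕ := 18 * 2 ^ R * P' with hP
  set lam : ℝ := 1 / (P + 2) with hlam
  have hlam0 : 0 < lam := by positivity
  obtain ⟨y₀, hy₀⟩ := hsub (lam / 2) (by positivity)
  obtain ⟨y₁, hy₁⟩ := exists_nat_gt (2 * Real.log 2 / lam)
  set k : ℕ := max (max y₀ y₁) 1 with hk
  have hk1 : 1 ≤ k := le_max_right _ _
  have hky0 : y₀ ≤ k := le_trans (le_max_left _ _) (le_max_left _ _)
  have hky1 : y₁ ≤ k := le_trans (le_max_right _ _) (le_max_left _ _)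
  have hsk : sph U k ≤ Real.exp (lam * k) / 2 := by
    have h1 := hy₀ k hky0
    have h2 : Real.exp (lam / 2 * k) * 2 ≤ Real.exp (lam * k) := by
      have h3 : Real.log 2 ≤ lam / 2 * k := by
        have h4 : 2 * Real.log 2 / lam < k := lt_of_lt_of_le hy₁ (by exact_mod_cast hky1)
        rw [div_lt_iff₀ hlam0] at h4
        linarith
      calc Real.exp (lam / 2 * k) * 2 = Real.exp (lam / 2 * k) * Real.exp (Real.log 2) := by
            rw [Real.exp_log (by norm_num)]
        _ = Real.exp (lam / 2 * k + Real.log 2) := (Real.exp_add _ _).symm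
        _ ≤ Real.exp (lam * k) := Real.exp_le_exp.2 (by linarith)
    rw [le_div_iff₀ (by norm_num)]
    linarith
  refine ⟨k, P + 2 + k, hk1, fun n A₁ hA => ?_⟩
  have hfin := WB_finite (WG_finite (x₀ := x₀) hS (TA_finite hf)) n
  rw [Set.ncard_eq_toFinset_card _ hfin]
  refine card_of_fibers A₁ hfin.toFinset (fun w => (sp w.left, w.right)) P' ?_
  rintro ⟨Y, γ⟩ hYγ
  obtain ⟨w₀, hw₀, hw₀Y⟩ := Finset.mem_image.1 hYγ
  rw [Prod.mk.injEq] at hw₀Y
  obtain ⟨hw₀1, hw₀2⟩ := hw₀Y
  have hYk : k ≤ Y.card := by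
    rw [← hw₀1]
    exact (hA w₀ hw₀).2.1
  have hY1 : 1 ≤ Y.card := hk1.trans hYk
  set q : ℕ := (P + 1) * Y.card / k + 1 with hq
  have hkq1 : (P + 1) * Y.card ≤ k * q := by
    rw [hq, Nat.mul_add, Nat.mul_one]
    have := Nat.div_add_mod ((P + 1) * Y.card) k
    have h3 := Nat.mod_lt ((P + 1) * Y.card) hk1
    omega
  have hkq2 : k * q ≤ (P + 2) * Y.card := by
    rw [hq, Nat.mul_add, Nat.mul_one]
    have h1 : k * ((P + 1) * Y.card / k) ≤ (P + 1) * Y.card := Nat.mul_div_le _ _
    have h2 : (P + 2) * Y.card = (P + 1) * Y.card + Y.card := by ring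
    omega
  have h := transfer_fiber (x₀ := x₀) (S := S) hU hf hk1 hsk Y hY1 γ n q P R hkq1
    (A₁.filter fun w => (sp w.left, w.right) = (Y, γ))
    (hfin.toFinset.filter fun w => (sp w.left, w.right) = (Y, γ)) (by
      intro w hw
      obtain ⟨hw1, hw2⟩ := Finset.mem_filter.1 hw
      rw [Prod.mk.injEq] at hw2
      obtain ⟨hw3, hw4⟩ := hw2
      obtain ⟨h1, -, h2, h3⟩ := hA w hw1
      rw [hw3] at h2 h3
      refine ⟨hw4, hw3, h1, h2, ?_⟩
      have e1 : (P + 2 + k) * Y.card = (P + 2) * Y.card + k * Y.card := by ring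
      omega) (by
      intro w hw1 hw2 hw3
      rw [Finset.mem_filter, Set.Finite.mem_toFinset]
      exact ⟨hw1, by rw [hw2, hw3]⟩)
  set a := (A₁.filter fun w => (sp w.left, w.right) = (Y, γ)).card with ha
  set b := (hfin.toFinset.filter fun w => (sp w.left, w.right) = (Y, γ)).card with hb
  set d := Y.card with hd
  have hexp : Real.exp (lam * (k * q)) ≤ 3 ^ d := by
    have h1 : lam * (k * q) ≤ d := by
      have h2 : ((k * q : ℕ) : ℝ) ≤ (((P + 2) * d : ℕ) : ℝ) := by exact_mod_cast hkq2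
      push_cast at h2
      calc lam * (k * q) ≤ lam * ((P + 2) * d) := by gcongr
        _ = d := by
            rw [hlam]
            field_simp
    calc Real.exp (lam * (k * q)) ≤ Real.exp d := Real.exp_le_exp.2 h1
      _ = (Real.exp 1) ^ d := by rw [← Real.exp_nat_mul, mul_one]
      _ ≤ 3 ^ d := by
          refine pow_le_pow_left₀ (Real.exp_pos _).le ?_ _
          have := Real.exp_one_lt_d9
          linarith
  have h1 : (a : ℝ) * P ^ d ≤ b * (18 * 2 ^ R) ^ d := by
    calc (a : ℝ) * P ^ d ≤ b * ((2 ^ d * Real.exp (lam * (k * q))) * (3 ^ d * 2 ^ (R * d))) := h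
      _ ≤ b * ((2 ^ d * 3 ^ d) * (3 ^ d * 2 ^ (R * d))) := by gcongr
      _ = b * (18 * 2 ^ R) ^ d := by
          rw [mul_pow, ← pow_mul, show (18:ℝ) = 2 * 3 * 3 by norm_num, mul_pow, mul_pow]
          ring
  have h2 : (P : ℝ) ^ d = (18 * 2 ^ R) ^ d * P' ^ d := by
    rw [hP, ← mul_pow]
    push_cast
    rfl
  have h3 : (a : ℝ) * P' ^ d ≤ b := by
    rw [h2] at h1
    have h4 : (0:ℝ) < (18 * 2 ^ R) ^ d := by positivity
    have h5 : (18 * 2 ^ R : ℝ) ^ d * (a * P' ^ d) ≤ (18 * 2 ^ R : ℝ) ^ d * b := by linarith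
    exact le_of_mul_le_mul_left h5 h4
  have h4 : (P' : ℝ) * a ≤ b := by
    rcases Nat.eq_zero_or_pos P' with h0 | hpos
    · rw [h0]
      simp
    · have h5 : (1:ℝ) ≤ P' := by exact_mod_cast hpos
      have h6 : (P' : ℝ) ≤ P' ^ d := by
        calc (P' : ℝ) = P' ^ 1 := (pow_one _).symm
          _ ≤ P' ^ d := pow_le_pow_right₀ h5 hY1
      have h7 : (0:ℝ) ≤ a := Nat.cast_nonneg _
      nlinarith
  exact_mod_cast h4

end MP799c44
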