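import Mathlib
import Pool.Agent.Lib.MP_799c44_al.Tr1

set_option autoImplicit false

/-!
Lighting a new lamp.
-/

namespace MP799c44

open Finset SemidirectProduct

variable {Γ X H : Type*} [Group Γ] [MulAction Γ X] [DecidableEq X] [Group H]

lemma Reach.word {x₀ : X} {S : Set Γ} {Y : Finset X} {γ g : Γ} {j m : ℕ}
    (hg : g ∈ WB S m) (h : Reach x₀ S Y γ j) :
    Reach x₀ S (Y.image fun x => g • x) (g * γ) (j + m) := by
  obtain ⟨l, hl, hl2, rfl⟩ := hg
  have key : ∀ l : List Γ, (∀ x ∈ l, x ∈ S ∨ x⁻¹ ∈ S) →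
      Reach x₀ S (Y.image fun x => l.prod • x) (l.prod * γ) (j + l.length) := by
    intro l
    induction l with
    | nil =>
      intro _
      have e : (Y.image fun x => ([] : List Γ).prod • x) = Y := by
        rw [List.prod_nil]
        simp
      rw [e, List.prod_nil, one_mul]
      exact h
    | cons s l ih =>
      intro hl
      have h1 := (ih fun y hy => hl y (List.mem_cons_of_mem _ hy)).cons (hl s List.mem_cons_self)
      rw [Finset.image_image] at h1
      have e : ((fun x => s • x) ∘ fun x => l.prod • x) = fun x : X => (s :: l).prod • x := by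
        funext x
        simp [mul_smul]
      rw [e, ← mul_assoc] at h1
      rw [List.prod_cons] at h1 ⊢
      rw [List.length_cons]
      exact h1
  exact (key l hl2).mono (le_refl _) (by omega)

lemma Reach.excursion {x₀ : X} {S : Set Γ} {Y : Finset X} {γ g : Γ} {j m : ℕ}
    (hg : g ∈ WB S m) (h : Reach x₀ S Y γ j) :
    Reach x₀ S (insert (g • x₀) Y) γ (j + (m + m)) := by
  have h1 := ((h.word (inv_mem_WB hg)).start).word hg
  rw [mul_inv_cancel_left] at h1
  refine h1.mono ?_ (by omega)
  intro y hy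
  rcases Finset.mem_insert.1 hy with rfl | hy
  · exact Finset.mem_image.2 ⟨x₀, Finset.mem_insert_self _ _, rfl⟩
  · exact Finset.mem_image.2 ⟨g⁻¹ • y, Finset.mem_insert_of_mem
      (Finset.mem_image.2 ⟨y, hy, rfl⟩), smul_inv_smul g y⟩

lemma exists_excursions {x₀ : X} {S : Set Γ} (hS : Subgroup.closure S = ⊤)
    (horb : (MulAction.orbit Γ x₀).Infinite) (m : ℕ) :
    ∃ Z₀ : Finset X, Z₀.card = m ∧ ∃ j₀ : ℕ, ∀ (Y : Finset X) (γ : Γ) (j : ℕ), ∀ y ∈ Z₀,
      Reach x₀ S Y γ j → Reach x₀ S (insert y Y) γ (j + j₀) := by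
  obtain ⟨Z₀, hZ1, hZ2⟩ := horb.exists_subset_card_eq m
  refine ⟨Z₀, hZ2, ?_⟩
  have h1 : ∀ y : X, ∃ g : Γ, y ∈ Z₀ → g • x₀ = y := by
    intro y
    by_cases hy : y ∈ Z₀
    · obtain ⟨g, hg⟩ := hZ1 (Finset.mem_coe.2 hy)
      exact ⟨g, fun _ => hg⟩
    · exact ⟨1, fun h => absurd h hy⟩
  choose g hg using h1
  refine ⟨∑ y ∈ Z₀, (len S (g y) + len S (g y)), fun Y γ j y hy h => ?_⟩
  have h2 := h.excursion (len_mem hS (g y))
  rw [hg y hy] at h2
  refine h2.mono (le_refl _) ?_
  have := Finset.single_le_sum (f := fun y => len S (g y) + len S (g y))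
    (fun y _ => Nat.zero_le _) hy
  omega

/-- lighting a lamp -/
lemma sp_light {f : X → H} {y : X} {g : H} (hf : ∃ Y : Finset X, ∀ x, f x ≠ 1 → x ∈ Y)
    (hg : g ≠ 1) : sp (Function.update f y g) = insert y (sp f) := by
  obtain ⟨Y, hY⟩ := hf
  ext x
  rw [mem_sp (Y := insert y Y), Finset.mem_insert, mem_sp hY]
  · by_cases hx : x = y
    · subst hx
      rw [Function.update_self]
      simp [hg]
    · rw [Function.update_of_ne hx]
      simp [hx]
  · intro x hx
    by_cases hxy : x = y
    · exact hxy ▸ Finset.mem_insert_self _ _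
    · rw [Function.update_of_ne hxy] at hx
      exact Finset.mem_insert_of_mem (hY x hx)

lemma tot_light {T : Set H} {f : X → H} {y : X} {g : H}
    (hf : ∃ Y : Finset X, ∀ x, f x ≠ 1 → x ∈ Y) (hy : f y = 1) (hg : g ≠ 1) :
    tot T (Function.update f y g) = len T g + tot T f := by
  have hys : y ∉ sp f := by
    obtain ⟨Y, hY⟩ := hf
    rw [mem_sp hY]
    exact fun h => h hy
  unfold tot
  rw [sp_light hf hg, Finset.sum_insert hys, Function.update_self]
  congr 1
  refine Finset.sum_congr rfl fun x hx => ?_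
  rw [Function.update_of_ne]
  exact fun h => hys (h ▸ hx)

lemma sum_card_fibers_le {α : Type*} (Q : Finset α) (φ : α → ℕ) (t : Finset ℕ) :
    ∑ j ∈ t, (Q.filter fun a => φ a = j).card ≤ Q.card := by
  classical
  have h2 : ∑ j ∈ t, (Q.filter fun a => φ a = j).card = (Q.filter fun a => φ a ∈ t).card := by
    rw [Finset.card_eq_sum_card_fiberwise (f := φ) (t := t) (s := Q.filter fun a => φ a ∈ t)]
    · refine Finset.sum_congr rfl fun y hy => ?_
      congr 1
      ext w
      simp only [Finset.mem_filter]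
      constructor
      · rintro ⟨hw, rfl⟩
        exact ⟨⟨hw, hy⟩, rfl⟩
      · rintro ⟨⟨hw, -⟩, hwy⟩
        exact ⟨hw, hwy⟩
    · intro w hw
      exact (Finset.mem_filter.1 (Finset.mem_coe.1 hw)).2
  rw [h2]
  exact Finset.card_filter_le _ _

/-- there are arbitrarily many points which can be visited at bounded extra cost -/
def Excur (x₀ : X) (S : Set Γ) : Prop :=
  ∀ m : ℕ, ∃ Z₀ : Finset X, Z₀.card = m ∧ ∃ j₀ : ℕ, ∀ (Y : Finset X) (γ : Γ) (j : ℕ), ∀ y ∈ Z₀,
      Reach x₀ S Y γ j → Reach x₀ S (insert y Y) γ (j + j₀)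

theorem new_lamp {x₀ : X} {S : Set Γ} {T : Set H} (hS : S.Finite)
    (hexc : Excur x₀ S)
    (hT : Subgroup.closure T = ⊤) (hf : T.Finite) (hpos : ∀ j, 0 < sph T j) (d₁ J' : ℕ) :
    ∃ L₀ : ℕ, ∀ n, ∀ A₁ : Finset ((X → H) ⋊[mulAutArrow] Γ),
      (∀ w ∈ A₁, w ∈ WB (WG x₀ S T) (n + 1) ∧ (sp w.left).card < d₁ ∧
        L₀ < tot T w.left) →
      J' * A₁.card ≤ (WB (WG x₀ S T) n).ncard := by
  classical
  have : Nonempty X := ⟨x₀⟩
  obtain ⟨Z₀, hZ, j₀, hex⟩ := hexc d₁
  obtain ⟨J, hJ⟩ := exists_nat_ge ((J' : ℝ) * (sph T (j₀ + 1) * (d₁ * d₁ : ℕ)))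
  refine ⟨d₁ * (J + j₀ + 2), fun n A₁ hA => ?_⟩
  have hfin := WB_finite (WG_finite (x₀ := x₀) hS hf) n
  have hfinH : ∀ j, {h : H | len T h = j}.Finite := fun j => sphere_finite hT hf j
  set Sp : ℕ → Finset H := fun j => (hfinH j).toFinset with hSp
  have hSpmem : ∀ j h, h ∈ Sp j ↔ len T h = j := by
    intro j h
    rw [hSp]
    simp
  have hSpc : ∀ j, ((Sp j).card : ℝ) = sph T j := by
    intro j
    unfold sph
    rw [Set.ncard_eq_toFinset_card _ (hfinH j)]
  -- the choice of the new and of the old lamp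
  have hy : ∀ w ∈ A₁, ∃ y, y ∈ Z₀ ∧ y ∉ sp w.left := by
    intro w hw
    obtain ⟨-, h2, -⟩ := hA w hw
    by_contra hcon
    push Not at hcon
    have := Finset.card_le_card (fun y hy => hcon y hy : Z₀ ⊆ sp w.left)
    omega
  choose! y hy1 hy2 using hy
  have hx : ∀ w ∈ A₁, ∃ x, x ∈ sp w.left ∧ J + j₀ + 2 ≤ len T (w.left x) := by
    intro w hw
    obtain ⟨-, h2, h3⟩ := hA w hw
    by_contra hcon
    push Not at hcon
    have h4 : tot T w.left ≤ ∑ _x ∈ sp w.left, (J + j₀ + 2) :=
      Finset.sum_le_sum fun x hx => (hcon x hx).le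
    rw [Finset.sum_const, smul_eq_mul] at h4
    have h5 := Nat.mul_le_mul_right (J + j₀ + 2) h2.le
    omega
  choose! x hx1 hx2 using hx
  set Q : Finset (Σ _ : (X → H) ⋊[mulAutArrow] Γ, X × X) :=
    (hfin.toFinset.filter fun w => (sp w.left).card ≤ d₁).sigma
      fun w => sp w.left ×ˢ sp w.left with hQ
  have hQcard : Q.card ≤ (d₁ * d₁) * hfin.toFinset.card := by
    rw [hQ, Finset.card_sigma]
    calc ∑ w ∈ hfin.toFinset.filter (fun w => (sp w.left).card ≤ d₁),
          (sp w.left ×ˢ sp w.left).card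
        ≤ ∑ w ∈ hfin.toFinset.filter (fun w => (sp w.left).card ≤ d₁), d₁ * d₁ := by
          refine Finset.sum_le_sum fun w hw => ?_
          have h1 := (Finset.mem_filter.1 hw).2
          rw [Finset.card_product]
          exact Nat.mul_le_mul h1 h1
      _ ≤ _ := by
          rw [Finset.sum_const, smul_eq_mul, Nat.mul_comm]
          exact Nat.mul_le_mul_left _ (Finset.card_filter_le _ _)
  -- the injection for a fixed length of the new lamp
  have hmain : ∀ j ∈ Finset.Icc 1 J, A₁.card * (Sp j).card ≤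
      (Q.filter fun p => len T (p.1.left p.2.1) = j).card * (Sp (j + (j₀ + 1))).card := by
    intro j hj
    obtain ⟨hj1, hj2⟩ := Finset.mem_Icc.1 hj
    have hsplit : ∀ w ∈ A₁, ∃ h b : H, len T h = len T (w.left (x w)) - (j + (j₀ + 1)) ∧
        len T b = j + (j₀ + 1) ∧ w.left (x w) = h * b := by
      intro w hw
      have := hx2 w hw
      exact exists_split hT (by omega)
    choose! h b hh hb hhb using hsplit
    rw [← Finset.card_product, ← Finset.card_product]
    refine Finset.card_le_card_of_injOn (fun p =>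
      (⟨⟨Function.update (Function.update p.1.left (x p.1) (h p.1)) (y p.1) p.2, p.1.right⟩,
        (y p.1, x p.1)⟩, b p.1)) ?_ ?_
    · rintro ⟨w, g⟩ hp
      obtain ⟨hw, hg⟩ := Finset.mem_product.1 (Finset.mem_coe.1 hp)
      dsimp only at hw hg ⊢
      rw [hSpmem] at hg
      obtain ⟨hb1, hcard, htot⟩ := hA w hw
      obtain ⟨hfs, j₁, hj₁, hjn⟩ := (mem_ball_iff hT).1 hb1
      have hxs := hx1 w hw
      have hlx := hx2 w hw
      have hys := hy2 w hw
      have hxne : w.left (x w) ≠ 1 := by
        obtain ⟨Y, hY⟩ := hfs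
        exact (mem_sp hY).1 hxs
      have hyone : w.left (y w) = 1 := by
        by_contra hne
        obtain ⟨Y, hY⟩ := hfs
        exact hys ((mem_sp hY).2 hne)
      have hxy : y w ≠ x w := fun h => hys (h ▸ hxs)
      have hhne : h w ≠ 1 := by
        intro h0
        have := hh w hw
        rw [h0, len_one] at this
        omega
      have hgne : g ≠ 1 := by
        intro h0
        rw [h0, len_one] at hg
        omega
      have hfs' : ∃ Y : Finset X, ∀ z, Function.update w.left (x w) (h w) z ≠ 1 → z ∈ Y := by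
        obtain ⟨Y, hY⟩ := hfs
        refine ⟨Y, fun z hz => ?_⟩
        by_cases hzx : z = x w
        · exact hzx ▸ hY _ hxne
        · rw [Function.update_of_ne hzx] at hz
          exact hY z hz
      have e1 := sp_update hfs hxne hhne
      have e2 := tot_update (T := T) hfs hxne hhne
      have e3 := sp_light (y := y w) hfs' hgne
      have e4 := tot_light (T := T) (y := y w) hfs'
        (by rw [Function.update_of_ne hxy]; exact hyone) hgne
      rw [e1] at e3
      have e5 := hh w hw
      refine Finset.mem_coe.2 (Finset.mem_product.2 ⟨Finset.mem_filter.2 ⟨?_, ?_⟩, ?_⟩)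
      · rw [hQ, Finset.mem_sigma]
        dsimp only
        refine ⟨Finset.mem_filter.2 ⟨?_, ?_⟩, ?_⟩
        · rw [Set.Finite.mem_toFinset, mem_ball_iff hT]
          dsimp only
          refine ⟨?_, j₁ + j₀, ?_, ?_⟩
          · obtain ⟨Y, hY⟩ := hfs'
            refine ⟨insert (y w) Y, fun z hz => ?_⟩
            by_cases hzy : z = y w
            · exact hzy ▸ Finset.mem_insert_self _ _
            · rw [Function.update_of_ne hzy] at hz
              exact Finset.mem_insert_of_mem (hY z hz)
          · rw [e3]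
            exact hex _ _ _ _ (hy1 w hw) hj₁
          · omega
        · dsimp only
          rw [e3, Finset.card_insert_of_notMem hys]
          omega
        · rw [e3]
          exact Finset.mem_product.2 ⟨Finset.mem_insert_self _ _, Finset.mem_insert_of_mem hxs⟩
      · dsimp only
        rw [Function.update_self]
        exact hg
      · rw [hSpmem]
        exact hb w hw
    · rintro ⟨w, g⟩ hp ⟨w', g'⟩ hp' he
      obtain ⟨hw, hg⟩ := Finset.mem_product.1 (Finset.mem_coe.1 hp)
      obtain ⟨hw', hg'⟩ := Finset.mem_product.1 (Finset.mem_coe.1 hp')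
      dsimp only at hw hg hw' hg' he
      rw [Prod.mk.injEq, Sigma.mk.injEq] at he
      obtain ⟨⟨he1, he2⟩, he3⟩ := he
      have he2' := eq_of_heq he2
      rw [Prod.mk.injEq] at he2'
      obtain ⟨hyy, hxx⟩ := he2'
      have hleft := congrArg SemidirectProduct.left he1
      have hright := congrArg SemidirectProduct.right he1
      dsimp only at hleft hright
      rw [← hyy, ← hxx] at hleft
      have hxy : ∀ v ∈ A₁, x v ≠ y v := fun v hv h0 => hy2 v hv (h0 ▸ hx1 v hv)
      have hgg : g = g' := by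
        have := congrFun hleft (y w)
        rwa [Function.update_self, Function.update_self] at this
      have hhh : h w = h w' := by
        have := congrFun hleft (x w)
        rwa [Function.update_of_ne (hxy w hw), Function.update_self,
          Function.update_of_ne (hxy w hw), Function.update_self] at this
      have hone : ∀ v ∈ A₁, v.left (y v) = 1 := by
        intro v hv
        obtain ⟨⟨Y, hY⟩, -⟩ := (mem_ball_iff hT).1 (hA v hv).1
        by_contra hne
        exact hy2 v hv ((mem_sp hY).2 hne)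
      have hll : w.left = w'.left := by
        funext z
        by_cases hzy : z = y w
        · rw [hzy, hone w hw, hyy, hone w' hw']
        · by_cases hzx : z = x w
          · rw [hzx, hhb w hw, hxx, hhb w' hw', hhh, he3]
          · have := congrFun hleft z
            rwa [Function.update_of_ne hzy, Function.update_of_ne hzx,
              Function.update_of_ne hzy, Function.update_of_ne hzx] at this
      have hww : w = w' := SemidirectProduct.ext hll hright
      rw [hww, hgg]
  have hmain' : ∀ j ∈ Finset.Icc 1 J, (A₁.card : ℝ) ≤ sph T (j₀ + 1) *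
      (Q.filter fun p => len T (p.1.left p.2.1) = j).card := by
    intro j hj
    have h1 : (A₁.card : ℝ) * sph T j ≤
        (Q.filter fun p => len T (p.1.left p.2.1) = j).card * sph T (j + (j₀ + 1)) := by
      rw [← hSpc, ← hSpc]
      exact_mod_cast hmain j hj
    have h2 := sph_add_le hT hf j (j₀ + 1)
    have h3 : (0:ℝ) ≤ (Q.filter fun p => len T (p.1.left p.2.1) = j).card := Nat.cast_nonneg _
    have h4 : sph T j * A₁.card ≤ sph T j * (sph T (j₀ + 1) *
        (Q.filter fun p => len T (p.1.left p.2.1) = j).card) := by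
      have := mul_le_mul_of_nonneg_left h2 h3
      linarith
    exact le_of_mul_le_mul_left h4 (hpos j)
  have hsum : (J : ℝ) * A₁.card ≤ sph T (j₀ + 1) * ((d₁ * d₁ : ℕ) * hfin.toFinset.card) := by
    calc (J : ℝ) * A₁.card = ∑ _j ∈ Finset.Icc 1 J, (A₁.card : ℝ) := by
          rw [Finset.sum_const, Nat.card_Icc, nsmul_eq_mul]
          simp
      _ ≤ ∑ j ∈ Finset.Icc 1 J, sph T (j₀ + 1) *
          (Q.filter fun p => len T (p.1.left p.2.1) = j).card := Finset.sum_le_sum hmain'
      _ = sph T (j₀ + 1) * ((∑ j ∈ Finset.Icc 1 J,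
          (Q.filter fun p => len T (p.1.left p.2.1) = j).card : ℕ) : ℝ) := by
          rw [← Finset.mul_sum]
          push_cast
          rfl
      _ ≤ sph T (j₀ + 1) * ((d₁ * d₁ : ℕ) * hfin.toFinset.card) := by
          refine mul_le_mul_of_nonneg_left ?_ (sph_nonneg _ _)
          have h1 := (sum_card_fibers_le Q (fun p => len T (p.1.left p.2.1))
            (Finset.Icc 1 J)).trans hQcard
          exact_mod_cast h1
  rw [Set.ncard_eq_toFinset_card _ hfin]
  rcases Nat.eq_zero_or_pos d₁ with h0 | hd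
  · have : A₁ = ∅ := by
      rw [Finset.eq_empty_iff_forall_notMem]
      intro w hw
      have := (hA w hw).2.1
      omega
    rw [this, Finset.card_empty, Nat.mul_zero]
    exact Nat.zero_le _
  · have h1 : (0:ℝ) < sph T (j₀ + 1) * (d₁ * d₁ : ℕ) :=
      mul_pos (hpos _) (by exact_mod_cast Nat.mul_pos hd hd)
    have h2 : (sph T (j₀ + 1) * (d₁ * d₁ : ℕ)) * ((J' : ℝ) * A₁.card) ≤
        (sph T (j₀ + 1) * (d₁ * d₁ : ℕ)) * (hfin.toFinset.card : ℝ) := by
      have h3 : (0:ℝ) ≤ A₁.card := Nat.cast_nonneg _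
      have h4 := mul_le_mul_of_nonneg_right hJ h3
      linarith
    have h5 := le_of_mul_le_mul_left h2 h1
    exact_mod_cast h5

end MP799c44
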