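import Mathlib
import Pool.Agent.Lib.MP_799c44_al.Tr2

set_option autoImplicit false

/-!
Permutational wreath products with lamps in `A × ℤ`.
-/

namespace MP799c44

open Finset SemidirectProduct

variable {Γ X A : Type*} [Group Γ] [MulAction Γ X] [DecidableEq X] [Group A]

lemma sph_TA_pos {U : Set A} (hU : Subgroup.closure U = ⊤) (hf : U.Finite) (j : ℕ) :
    0 < sph (TA U) j := by
  have h1 : ((1, Multiplicative.ofAdd (j : ℤ)) : A × Multiplicative ℤ) ∈
      {h : A × Multiplicative ℤ | len (TA U) h = j} := by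
    change len (TA U) _ = j
    rw [len_TA hU]
    dsimp only
    rw [len_one]
    unfold zz
    rw [toAdd_ofAdd, Int.natAbs_natCast, zero_add]
  unfold sph
  have h2 := Set.ncard_ne_zero_of_mem h1 (sphere_finite (TA_closure hU) (TA_finite hf) j)
  exact_mod_cast Nat.pos_of_ne_zero h2

theorem wreath_AZ {x₀ : X} {S : Set Γ} {U : Set A} (hS : S.Finite)
    (hexc : Excur x₀ S) (hU : Subgroup.closure U = ⊤) (hf : U.Finite)
    (hsub : ∀ α : ℝ, 0 < α → ∃ y₀ : ℕ, ∀ y ≥ y₀, sph U y ≤ Real.exp (α * y))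
    (hyp : ∀ C : ℕ, ∀ᶠ n in Filter.atTop,
      ((WB (WG x₀ S T2) n).ncard : ℝ) ^ C ≤ ((WB (WG x₀ S (TA U)) n).ncard : ℝ)) :
    Filter.Tendsto (fun n : ℕ =>
      ((WB (WG x₀ S (TA U)) (n + 1) \ WB (WG x₀ S (TA U)) n).ncard : ℝ) /
        ((WB (WG x₀ S (TA U)) n).ncard : ℝ)) Filter.atTop (nhds 0) := by
  classical
  have hT2 : (T2).Finite := Set.finite_singleton _
  have hTA := TA_closure hU
  have hTAf := TA_finite hf
  refine ratio_tendsto (fun n => ((WB (WG x₀ S (TA U)) n).ncard : ℝ))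
    (fun n => ((WB (WG x₀ S (TA U)) (n + 1) \ WB (WG x₀ S (TA U)) n).ncard : ℝ))
    (fun n => ((WB (WG x₀ S T2) n).ncard : ℝ)) (fun n => Nat.cast_nonneg _)
    (fun n => by
      have := one_le_ball (WG_finite (x₀ := x₀) hS hTAf) n
      exact_mod_cast this)
    (fun n hn => by exact_mod_cast two_le_ball_F hS hn)
    (c₁ := ((WB (WG x₀ S T2) 1).ncard : ℝ))
    (fun n => by exact_mod_cast ball_succ_le (WG_finite hS hT2) n) ?_ hyp
  intro δ hδ
  obtain ⟨N, hN⟩ := exists_nat_gt (3 / δ)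
  have hN0 : (0:ℝ) < N := lt_trans (by positivity) hN
  obtain ⟨k, M₂, hk, htr⟩ := transfer (x₀ := x₀) hS hU hf hsub (N + 1) N
  obtain ⟨L₀, hnew⟩ := new_lamp hS hexc hTA hTAf (sph_TA_pos hU hf) k N
  obtain ⟨p, hp⟩ := card_bad_le (x₀ := x₀) (S := S) hS hTA hTAf (N + 1 + M₂ + L₀)
  refine ⟨p, fun n => ?_⟩
  have hfin := (WB_finite (WG_finite (x₀ := x₀) hS hTAf) (n + 1)).subset
    (Set.sdiff_subset (s := WB (WG x₀ S (TA U)) (n + 1)) (t := WB (WG x₀ S (TA U)) n))
  set A₀ := hfin.toFinset with hA₀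
  have hAmem : ∀ w, w ∈ A₀ ↔ w ∈ WB (WG x₀ S (TA U)) (n + 1) ∧
      w ∉ WB (WG x₀ S (TA U)) n := by
    intro w
    rw [hA₀, Set.Finite.mem_toFinset]
    rfl
  have hcard : ((WB (WG x₀ S (TA U)) (n + 1) \ WB (WG x₀ S (TA U)) n).ncard : ℝ) =
      A₀.card := by
    rw [Set.ncard_eq_toFinset_card _ hfin]
  set D : ℕ := Nat.log 2 (WB (WG x₀ S T2) (n + 1)).ncard with hD
  set P1 : (X → A × Multiplicative ℤ) ⋊[mulAutArrow] Γ → Prop := fun w =>
    1 ≤ (sp w.left).card ∧
      (N:ℝ) * (sp w.left).card ≤ ∑ x ∈ sp w.left, ((zz (w.left x).2 - 1 : ℕ) : ℝ) with hP1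
  set P2 : (X → A × Multiplicative ℤ) ⋊[mulAutArrow] Γ → Prop := fun w =>
    k ≤ (sp w.left).card ∧
        ∑ x ∈ sp w.left, zz (w.left x).2 ≤ (N + 1) * (sp w.left).card ∧
        M₂ * (sp w.left).card ≤ ∑ x ∈ sp w.left, len U (w.left x).1 with hP2
  set P3 : (X → A × Multiplicative ℤ) ⋊[mulAutArrow] Γ → Prop := fun w =>
    (sp w.left).card < k ∧ L₀ < tot (TA U) w.left with hP3
  set P4 : (X → A × Multiplicative ℤ) ⋊[mulAutArrow] Γ → Prop := fun w =>
    tot (TA U) w.left ≤ (N + 1 + M₂ + L₀) * D with hP4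
  have hcover : A₀ ⊆ ((A₀.filter P1 ∪ A₀.filter P2) ∪ A₀.filter P3) ∪ A₀.filter P4 := by
    intro w hw
    simp only [Finset.mem_union, Finset.mem_filter]
    by_cases h4 : P4 w
    · exact Or.inr ⟨hw, h4⟩
    by_cases h1 : P1 w
    · exact Or.inl (Or.inl (Or.inl ⟨hw, h1⟩))
    obtain ⟨hw1, -⟩ := (hAmem w).1 hw
    have hlog := card_le_log hS hTA hw1
    rw [← hD] at hlog
    obtain ⟨⟨Y, hY⟩, -⟩ := (mem_ball_iff hTA).1 hw1
    have htot : tot (TA U) w.left = ∑ x ∈ sp w.left, len U (w.left x).1 +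
        ∑ x ∈ sp w.left, zz (w.left x).2 := by
      unfold tot
      rw [← Finset.sum_add_distrib]
      exact Finset.sum_congr rfl fun x _ => len_TA hU _
    have hd : 1 ≤ (sp w.left).card := by
      by_contra hd
      have e1 : sp w.left = ∅ := Finset.card_eq_zero.1 (by omega)
      apply h4
      rw [hP4]
      dsimp only
      rw [htot, e1]
      simp
    have hz : ∑ x ∈ sp w.left, zz (w.left x).2 ≤ (N + 1) * (sp w.left).card := by
      have e1 : ∑ x ∈ sp w.left, zz (w.left x).2 ≤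
          ∑ x ∈ sp w.left, (zz (w.left x).2 - 1) + (sp w.left).card := by
        rw [Finset.card_eq_sum_ones, ← Finset.sum_add_distrib]
        refine Finset.sum_le_sum fun x _ => ?_
        omega
      have e5 : ¬ ((N:ℝ) * (sp w.left).card ≤
          ∑ x ∈ sp w.left, ((zz (w.left x).2 - 1 : ℕ) : ℝ)) := fun h => h1 ⟨hd, h⟩
      have e6 : ∑ x ∈ sp w.left, (zz (w.left x).2 - 1) < N * (sp w.left).card := by
        rw [← Nat.cast_sum, ← Nat.cast_mul, Nat.cast_le] at e5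
        omega
      have e7 : (N + 1) * (sp w.left).card = N * (sp w.left).card + (sp w.left).card := by ring
      omega
    have h4' : (N + 1 + M₂ + L₀) * D < tot (TA U) w.left := by
      rw [hP4] at h4
      dsimp only at h4
      omega
    have e8 : (N + 1 + M₂ + L₀) * D = (N + 1) * D + M₂ * D + L₀ * D := by ring
    have e9 : (N + 1) * (sp w.left).card ≤ (N + 1) * D := Nat.mul_le_mul_left _ hlog
    have e10 : M₂ * (sp w.left).card ≤ M₂ * D := Nat.mul_le_mul_left _ hlog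
    have e11 : L₀ * 1 ≤ L₀ * D := Nat.mul_le_mul_left _ (hd.trans hlog)
    by_cases hkd : k ≤ (sp w.left).card
    · exact Or.inl (Or.inl (Or.inr ⟨hw, hkd, hz, by omega⟩))
    · exact Or.inl (Or.inr ⟨hw, by omega, by omega⟩)
  have h1 : (N:ℝ) * (A₀.filter P1).card ≤ ((WB (WG x₀ S (TA U)) n).ncard : ℝ) := by
    refine card_long_le hS hTA hTAf n (fun p => zz p.2) (fun p j => (p.1, mm p.2 j))
      ?_ ?_ ?_ ?_ ?_ _ ?_
    · intro h j h1 h2 h3
      have e1 := zz_mm h2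
      have e2 := congrArg (fun p : A × Multiplicative ℤ => zz p.2) h3
      dsimp only at e2
      rw [e1] at e2
      have h4 : zz (1 : A × Multiplicative ℤ).2 = 0 := rfl
      omega
    · intro h j h1 h2
      rw [len_TA hU, len_TA hU]
      dsimp only at h2 ⊢
      rw [zz_mm h2]
      omega
    · intro h j h1 _
      dsimp only
      rw [mm_mm h1]
    · intro h j _ h2
      exact zz_mm h2
    · rfl
    · intro w hw
      obtain ⟨hw1, hw2, hw3⟩ := Finset.mem_filter.1 hw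
      obtain ⟨hw4, hw5⟩ := (hAmem w).1 hw1
      exact ⟨hw4, hw5, hw2, hw3⟩
  have h2 : N * (A₀.filter P2).card ≤ (WB (WG x₀ S (TA U)) n).ncard := by
    refine htr n _ fun w hw => ?_
    obtain ⟨hw1, hw2⟩ := Finset.mem_filter.1 hw
    exact ⟨((hAmem w).1 hw1).1, hw2⟩
  have h3 : N * (A₀.filter P3).card ≤ (WB (WG x₀ S (TA U)) n).ncard := by
    refine hnew n _ fun w hw => ?_
    obtain ⟨hw1, hw2, hw3⟩ := Finset.mem_filter.1 hw
    exact ⟨((hAmem w).1 hw1).1, hw2, hw3⟩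
  have h4 : ((A₀.filter P4).card : ℝ) ≤ ((WB (WG x₀ S T2) (n + 1)).ncard : ℝ) ^ p := by
    refine hp (n + 1) _ fun w hw => ?_
    obtain ⟨hw1, hw2⟩ := Finset.mem_filter.1 hw
    exact ⟨((hAmem w).1 hw1).1, hw2⟩
  have h5 : A₀.card ≤ (A₀.filter P1).card + (A₀.filter P2).card + (A₀.filter P3).card +
      (A₀.filter P4).card := by
    refine (Finset.card_le_card hcover).trans ((Finset.card_union_le _ _).trans ?_)
    gcongr
    refine (Finset.card_union_le _ _).trans ?_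
    gcongr
    exact Finset.card_union_le _ _
  have h5' : (A₀.card : ℝ) ≤ (A₀.filter P1).card + (A₀.filter P2).card +
      (A₀.filter P3).card + (A₀.filter P4).card := by exact_mod_cast h5
  have h2' : (N:ℝ) * (A₀.filter P2).card ≤ ((WB (WG x₀ S (TA U)) n).ncard : ℝ) := by
    exact_mod_cast h2
  have h3' : (N:ℝ) * (A₀.filter P3).card ≤ ((WB (WG x₀ S (TA U)) n).ncard : ℝ) := by
    exact_mod_cast h3
  set b : ℝ := ((WB (WG x₀ S (TA U)) n).ncard : ℝ) with hb
  have hb0 : 0 ≤ b := Nat.cast_nonneg _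
  have h6 : ((A₀.filter P1).card : ℝ) + (A₀.filter P2).card + (A₀.filter P3).card ≤ δ * b := by
    have h7 : (N:ℝ) * ((A₀.filter P1).card + (A₀.filter P2).card + (A₀.filter P3).card) ≤
        3 * b := by linarith
    have h8 : 3 * b ≤ N * (δ * b) := by
      rw [div_lt_iff₀ hδ] at hN
      nlinarith
    exact le_of_mul_le_mul_left (h7.trans h8) hN0
  rw [hcard]
  linarith

end MP799c44
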