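import Mathlib
import Pool.Agent.Lib.MP_799c44_al.GriL
import Pool.Agent.Lib.MP_799c44_al.WrA

set_option autoImplicit false

/-!
The growth of the wreath products over the Grigorchuk group.
-/

namespace MP799c44

open SemidirectProduct

section general
variable {Γ X H : Type*} [Group Γ] [MulAction Γ X] [DecidableEq X] [Group H]

lemma mem_visit {x₀ : X} {S : Set Γ} (l : List Γ) (hl : ∀ s ∈ l, s ∈ S ∨ s⁻¹ ∈ S) {y : X}
    (hy : y ∈ visit x₀ l) : ∃ g ∈ WB S l.length, g • x₀ = y := by
  induction l generalizing y with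
  | nil =>
    have : y = x₀ := by simpa [visit] using hy
    exact ⟨1, one_mem_WB _ _, by rw [this, one_smul]⟩
  | cons s l ih =>
    have hy' : y ∈ insert x₀ ((visit x₀ l).image fun x => s • x) := hy
    rcases Finset.mem_insert.1 hy' with rfl | hy'
    · exact ⟨1, one_mem_WB _ _, one_smul _ _⟩
    · obtain ⟨z, hz, rfl⟩ := Finset.mem_image.1 hy'
      obtain ⟨g, hg, rfl⟩ := ih (fun t ht => hl t (List.mem_cons_of_mem _ ht)) hz
      refine ⟨s * g, ?_, mul_smul _ _ _⟩
      rw [List.length_cons, Nat.add_comm]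
      exact mul_mem_WB (gen_mem_WB (hl s List.mem_cons_self)) hg

lemma Reach.mem {x₀ : X} {S : Set Γ} {Y : Finset X} {γ : Γ} {j : ℕ} (h : Reach x₀ S Y γ j)
    {y : X} (hy : y ∈ Y) : ∃ g ∈ WB S j, g • x₀ = y := by
  obtain ⟨l, hl, hl2, -, hl4⟩ := h
  obtain ⟨g, hg, hgy⟩ := mem_visit l hl2 (hl4 hy)
  exact ⟨g, WB_mono _ hl hg, hgy⟩

/-- the two-state ball injects into the pairs -/
lemma ball_F_le {x₀ : X} {S : Set Γ} (hS : S.Finite) (n : ℕ) :
    ∃ P : Finset (Finset X × Γ), (∀ p ∈ P, Reach x₀ S p.1 p.2 n) ∧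
      (WB (WG x₀ S T2) n).ncard ≤ P.card := by
  classical
  have hT2 : (T2).Finite := Set.finite_singleton _
  have hfin := WB_finite (WG_finite (x₀ := x₀) hS hT2) n
  refine ⟨hfin.toFinset.image fun w => (sp w.left, w.right), ?_, ?_⟩
  · intro p hp
    obtain ⟨w, hw, rfl⟩ := Finset.mem_image.1 hp
    rw [Set.Finite.mem_toFinset, mem_ball_iff T2_closure] at hw
    obtain ⟨-, j, hj, hjn⟩ := hw
    exact hj.mono (le_refl _) (by omega)
  · rw [Set.ncard_eq_toFinset_card _ hfin, Finset.card_image_of_injOn]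
    intro w hw w' hw' h
    rw [Finset.mem_coe, Set.Finite.mem_toFinset, mem_ball_iff T2_closure] at hw hw'
    obtain ⟨⟨Y, hY⟩, -⟩ := hw
    obtain ⟨⟨Y', hY'⟩, -⟩ := hw'
    rw [Prod.mk.injEq] at h
    refine SemidirectProduct.ext ?_ h.2
    funext x
    have h1 : w.left x ≠ 1 ↔ w'.left x ≠ 1 := by
      rw [← mem_sp hY, ← mem_sp hY', h.1]
    rcases two_cases (w.left x) with e | e <;> rcases two_cases (w'.left x) with e' | e'
    · rw [e, e']
    · exfalso
      exact (h1.2 (by rw [e']; decide)) e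
    · exfalso
      exact (h1.1 (by rw [e]; decide)) e'
    · rw [e, e']

/-- integer lamps on given points -/
lemma pow_le_ball {A : Type*} [Group A] {U : Set A} (hU : Subgroup.closure U = ⊤)
    (hf : U.Finite) {x₀ : X} {S : Set Γ} (hS : S.Finite) {Y : Finset X} {γ : Γ} {j m n : ℕ}
    (h : Reach x₀ S Y γ j) (hn : j + Y.card * m ≤ n) :
    m ^ Y.card ≤ (WB (WG x₀ S (TA U)) n).ncard := by
  classical
  have hfin := WB_finite (WG_finite (x₀ := x₀) hS (TA_finite hf)) n
  rw [Set.ncard_eq_toFinset_card _ hfin]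
  have hG : (Fintype.piFinset fun _ : Y => Finset.Icc 1 m).card = m ^ Y.card := by
    rw [Fintype.card_piFinset]
    simp
  rw [← hG]
  have hzzg : ∀ m : ℕ, zz (Multiplicative.ofAdd ((m : ℕ) : ℤ)) = m := fun m => by
    unfold zz
    rw [toAdd_ofAdd, Int.natAbs_natCast]
  refine Finset.card_le_card_of_injOn (fun g => (⟨fun x => if h : x ∈ Y then
    (1, Multiplicative.ofAdd ((g ⟨x, h⟩ : ℕ) : ℤ)) else 1, γ⟩ :
      (X → A × Multiplicative ℤ) ⋊[mulAutArrow] Γ)) ?_ ?_
  · intro g hg
    rw [Finset.mem_coe, Fintype.mem_piFinset] at hg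
    rw [Finset.mem_coe, Set.Finite.mem_toFinset]
    refine mem_WB_of_cost (TA_closure hU) ⟨Y, j, ?_, h, ?_⟩
    · intro x hx
      by_contra hxY
      dsimp only at hx
      rw [dif_neg hxY] at hx
      exact hx rfl
    · refine le_trans ?_ hn
      refine Nat.add_le_add_left ?_ _
      rw [← smul_eq_mul, ← Finset.sum_const]
      refine Finset.sum_le_sum fun x hx => ?_
      dsimp only
      rw [dif_pos hx, len_TA hU]
      dsimp only
      rw [len_one, hzzg, zero_add]
      exact (Finset.mem_Icc.1 (hg ⟨x, hx⟩)).2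
  · intro g _ g' _ h
    have hl := congrArg SemidirectProduct.left h
    funext x
    have := congrFun hl x
    dsimp only at this
    rw [dif_pos x.2, dif_pos x.2, Prod.mk.injEq] at this
    have e := congrArg zz this.2
    rwa [hzzg, hzzg] at e

lemma ball_subexp {G : Type*} [Group G] {S : Set G}
    (hsub : Filter.Tendsto (fun n : ℕ => ((WB S n).ncard : ℝ) ^ ((1 : ℝ) / (n : ℝ)))
      Filter.atTop (nhds 1)) (α : ℝ) (hα : 0 < α) :
    ∃ x₀ : ℕ, ∀ x ≥ x₀, ((WB S x).ncard : ℝ) ≤ Real.exp (α * x) := by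
  have h1 : (1:ℝ) < Real.exp α := by
    have := Real.add_one_le_exp α
    linarith
  have h2 := hsub.eventually (gt_mem_nhds h1)
  obtain ⟨x₀, hx₀⟩ := Filter.eventually_atTop.1 h2
  refine ⟨max x₀ 1, fun x hx => ?_⟩
  have hx1 : 1 ≤ x := le_trans (le_max_right _ _) hx
  have hx1' : (x:ℝ) ≠ 0 := by
    have : (1:ℝ) ≤ x := by exact_mod_cast hx1
    linarith
  have h3 := hx₀ x (le_trans (le_max_left _ _) hx)
  have hb0 : (0:ℝ) ≤ ((WB S x).ncard : ℝ) := Nat.cast_nonneg _
  have h4 : (((WB S x).ncard : ℝ) ^ ((1 : ℝ) / (x : ℝ))) ^ (x : ℝ) ≤ (Real.exp α) ^ (x : ℝ) :=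
    Real.rpow_le_rpow (Real.rpow_nonneg hb0 _) h3.le (Nat.cast_nonneg _)
  rwa [← Real.rpow_mul hb0, one_div_mul_cancel hx1', Real.rpow_one, ← Real.exp_mul] at h4

lemma linear_le_exp (α : ℝ) (hα : 0 < α) :
    ∃ x₀ : ℕ, ∀ x ≥ x₀, 2 * ((x : ℝ) + 1) ≤ Real.exp (α * x) := by
  obtain ⟨x₀, hx₀⟩ := exists_nat_gt (16 / α ^ 2)
  refine ⟨max x₀ 1, fun x hx => ?_⟩
  have hx1 : (1:ℝ) ≤ x := by exact_mod_cast le_trans (le_max_right _ _) hx
  have hx2 : 16 / α ^ 2 < (x : ℝ) := lt_of_lt_of_le hx₀ (by
    exact_mod_cast le_trans (le_max_left _ _) hx)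
  rw [div_lt_iff₀ (by positivity)] at hx2
  have h1 : (α * x / 2) ^ 2 ≤ Real.exp (α * x) := by
    have h2 : α * x / 2 ≤ Real.exp (α * x / 2) := by
      have := Real.add_one_le_exp (α * x / 2)
      linarith
    have h3 := pow_le_pow_left₀ (by positivity) h2 2
    rw [← Real.exp_nat_mul] at h3
    refine h3.trans (le_of_eq ?_)
    congr 1
    push_cast
    ring
  have h4 : 16 * (x:ℝ) ≤ (x * α ^ 2) * x := mul_le_mul_of_nonneg_right hx2.le (by linarith)
  have h5 : (α * x / 2) ^ 2 = (x * α ^ 2) * x / 4 := by ring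
  linarith

lemma card_zz_le (x : ℕ) (F : Finset (Multiplicative ℤ)) (hF : ∀ z ∈ F, zz z ≤ x) :
    F.card ≤ (x + 1) * 2 := by
  classical
  have h : F.card ≤ ((Finset.range (x + 1)) ×ˢ (Finset.univ : Finset Bool)).card := by
    refine Finset.card_le_card_of_injOn
      (fun h => (zz h, decide (0 ≤ Multiplicative.toAdd h))) ?_ ?_
    · intro z hz
      have := hF z hz
      exact Finset.mem_coe.2 (Finset.mem_product.2
        ⟨Finset.mem_range.2 (by dsimp only; omega), Finset.mem_univ _⟩)
    · intro h _ h' _ he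
      rw [Prod.mk.injEq] at he
      obtain ⟨e1, e2⟩ := he
      unfold zz at e1
      have e3 : (0 ≤ Multiplicative.toAdd h) ↔ (0 ≤ Multiplicative.toAdd h') :=
        decide_eq_decide.1 e2
      have e4 : Multiplicative.toAdd h = Multiplicative.toAdd h' := by omega
      exact Multiplicative.toAdd.injective e4
  rwa [Finset.card_product, Finset.card_range, Finset.card_univ, Fintype.card_bool] at h

lemma sph_TA_subexp {A : Type*} [Group A] {U : Set A} (hU : Subgroup.closure U = ⊤)
    (hf : U.Finite)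
    (hsub : Filter.Tendsto (fun n : ℕ => ((WB U n).ncard : ℝ) ^ ((1 : ℝ) / (n : ℝ)))
      Filter.atTop (nhds 1)) (α : ℝ) (hα : 0 < α) :
    ∃ x₀ : ℕ, ∀ x ≥ x₀, sph (TA U) x ≤ Real.exp (α * x) := by
  classical
  obtain ⟨x₁, hx₁⟩ := ball_subexp hsub (α / 2) (by positivity)
  obtain ⟨x₂, hx₂⟩ := linear_le_exp (α / 2) (by positivity)
  refine ⟨max x₁ x₂, fun x hx => ?_⟩
  have h1 := hx₁ x (le_trans (le_max_left _ _) hx)
  have h2 := hx₂ x (le_trans (le_max_right _ _) hx)
  have hfin := sphere_finite (TA_closure hU) (TA_finite hf) x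
  have hfin1 := WB_finite hf x
  have hTZ : (TZ).Finite := Set.finite_singleton _
  have hfin2 := WB_finite hTZ x
  have h3 : hfin.toFinset.card ≤ hfin1.toFinset.card * ((x + 1) * 2) := by
    calc hfin.toFinset.card ≤ (hfin1.toFinset ×ˢ hfin2.toFinset).card := by
          refine Finset.card_le_card fun p hp => ?_
          rw [Set.Finite.mem_toFinset] at hp
          have hp' : len (TA U) p = x := hp
          rw [len_TA hU] at hp'
          rw [Finset.mem_product, Set.Finite.mem_toFinset, Set.Finite.mem_toFinset,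
            mem_WB_iff hU, mem_WB_iff TZ_closure, len_TZ]
          unfold zz at hp'
          omega
      _ = hfin1.toFinset.card * hfin2.toFinset.card := Finset.card_product _ _
      _ ≤ _ := by
          refine Nat.mul_le_mul_left _ (card_zz_le x _ fun z hz => ?_)
          rw [Set.Finite.mem_toFinset, mem_WB_iff TZ_closure, len_TZ] at hz
          exact hz
  have h4 : sph (TA U) x ≤ ((WB U x).ncard : ℝ) * (2 * ((x:ℝ) + 1)) := by
    unfold sph
    rw [Set.ncard_eq_toFinset_card _ hfin, Set.ncard_eq_toFinset_card _ hfin1]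
    have : ((hfin.toFinset.card : ℕ) : ℝ) ≤ ((hfin1.toFinset.card * ((x + 1) * 2) : ℕ) : ℝ) := by
      exact_mod_cast h3
    push_cast at this
    linarith
  calc sph (TA U) x ≤ ((WB U x).ncard : ℝ) * (2 * ((x:ℝ) + 1)) := h4
    _ ≤ Real.exp (α / 2 * x) * Real.exp (α / 2 * x) := by gcongr
    _ = Real.exp (α * x) := by
        rw [← Real.exp_add]
        congr 1
        ring

/-- the weighted sum over a ball -/
lemma sum_exp_le {T : Set H} (hT : Subgroup.closure T = ⊤) (hf : T.Finite)
    (hsub : ∀ α : ℝ, 0 < α → ∃ x₀ : ℕ, ∀ x ≥ x₀, sph T x ≤ Real.exp (α * x))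
    {δ : ℝ} (hδ : 0 < δ) :
    ∃ K : ℝ, 1 ≤ K ∧ ∀ n : ℕ, ∑ h ∈ (WB_finite hf n).toFinset, Real.exp (-(δ * len T h)) ≤ K := by
  classical
  obtain ⟨x₀, hx₀⟩ := hsub (δ / 2) (by positivity)
  set r : ℝ := Real.exp (-(δ / 2)) with hr
  have hr0 : 0 < r := Real.exp_pos _
  have hr1 : r < 1 := by
    rw [hr, Real.exp_lt_one_iff]
    linarith
  have hK1 : 0 ≤ ∑ k ∈ Finset.range x₀, sph T k := Finset.sum_nonneg fun k _ => sph_nonneg _ _
  have hinv : 0 < 1 / (1 - r) := by
    have : 0 < 1 - r := by linarith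
    positivity
  refine ⟨1 + ∑ k ∈ Finset.range x₀, sph T k + 1 / (1 - r), by linarith, fun n => ?_⟩
  have h1 : ∑ h ∈ (WB_finite hf n).toFinset, Real.exp (-(δ * len T h)) =
      ∑ k ∈ Finset.range (n + 1), ∑ h ∈ (WB_finite hf n).toFinset with len T h = k,
        Real.exp (-(δ * len T h)) := by
    rw [← Finset.sum_fiberwise_of_maps_to (s := (WB_finite hf n).toFinset)
      (t := Finset.range (n + 1)) (g := fun h => len T h)]
    intro h hh
    rw [Set.Finite.mem_toFinset, mem_WB_iff hT] at hh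
    exact Finset.mem_range.2 (by omega)
  have h2 : ∀ k ∈ Finset.range (n + 1), ∑ h ∈ (WB_finite hf n).toFinset with len T h = k,
        Real.exp (-(δ * len T h)) ≤ (if k < x₀ then sph T k else 0) + r ^ k := by
    intro k _
    have h3 : ∑ h ∈ (WB_finite hf n).toFinset with len T h = k, Real.exp (-(δ * len T h)) =
        ((WB_finite hf n).toFinset.filter fun h => len T h = k).card * Real.exp (-(δ * k)) := by
      rw [← nsmul_eq_mul, ← Finset.sum_const]
      refine Finset.sum_congr rfl fun h hh => ?_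
      rw [(Finset.mem_filter.1 hh).2]
    have h4 : (((WB_finite hf n).toFinset.filter fun h => len T h = k).card : ℝ) ≤ sph T k := by
      unfold sph
      rw [← Set.ncard_coe_finset]
      refine Nat.cast_le.2 (Set.ncard_le_ncard ?_ (sphere_finite hT hf _))
      intro h hh
      exact (Finset.mem_filter.1 (Finset.mem_coe.1 hh)).2
    rw [h3]
    by_cases hk : k < x₀
    · rw [if_pos hk]
      have h5 : Real.exp (-(δ * k)) ≤ 1 := by
        rw [Real.exp_le_one_iff]
        have : 0 ≤ δ * k := by positivity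
        linarith
      have h6 : 0 ≤ r ^ k := by positivity
      have h7 := sph_nonneg T k
      calc (((WB_finite hf n).toFinset.filter fun h => len T h = k).card : ℝ) *
            Real.exp (-(δ * k)) ≤ sph T k * 1 := by gcongr
        _ ≤ _ := by linarith
    · rw [if_neg hk, zero_add]
      have h5 := hx₀ k (by omega)
      calc (((WB_finite hf n).toFinset.filter fun h => len T h = k).card : ℝ) *
            Real.exp (-(δ * k)) ≤ Real.exp (δ / 2 * k) * Real.exp (-(δ * k)) := by
              gcongr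
              exact h4.trans h5
        _ = r ^ k := by
            rw [hr, ← Real.exp_nat_mul, ← Real.exp_add]
            congr 1
            ring
  rw [h1]
  refine (Finset.sum_le_sum h2).trans ?_
  rw [Finset.sum_add_distrib]
  have h3 : ∑ k ∈ Finset.range (n + 1), (if k < x₀ then sph T k else 0) ≤
      ∑ k ∈ Finset.range x₀, sph T k := by
    rw [← Finset.sum_filter]
    refine Finset.sum_le_sum_of_subset_of_nonneg ?_ fun k _ _ => sph_nonneg _ _
    intro k hk
    exact Finset.mem_range.2 (Finset.mem_filter.1 hk).2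
  have h4 : ∑ k ∈ Finset.range (n + 1), r ^ k ≤ 1 / (1 - r) := by
    rw [geom_sum_eq hr1.ne]
    have h5 : 0 < 1 - r := by linarith
    have h6 : 0 ≤ r ^ (n + 1) := by positivity
    rw [show (r ^ (n + 1) - 1) / (r - 1) = (1 - r ^ (n + 1)) / (1 - r) by
      rw [← neg_div_neg_eq]
      ring_nf]
    gcongr
    linarith
  linarith

/-- subexponential growth of the wreath product -/
theorem wreath_subexp {x₀ : X} {S : Set Γ} (hS : S.Finite) {T : Set H}
    (hT : Subgroup.closure T = ⊤) (hf : T.Finite)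
    (hsub : ∀ α : ℝ, 0 < α → ∃ x₀ : ℕ, ∀ x ≥ x₀, sph T x ≤ Real.exp (α * x))
    {C α : ℝ} (hC : 0 < C) (hα0 : 0 < α) (hα1 : α < 1)
    (hP : ∀ n : ℕ, 1 ≤ n → ∀ P : Finset (Finset X × Γ),
      (∀ p ∈ P, Reach x₀ S p.1 p.2 n) → (P.card : ℝ) ≤ Real.exp (C * (n : ℝ) ^ α)) :
    Filter.Tendsto (fun n : ℕ => ((WB (WG x₀ S T) n).ncard : ℝ) ^ ((1 : ℝ) / (n : ℝ)))
      Filter.atTop (nhds 1) := by
  classical
  have hlog2 : 0 < Real.log 2 := Real.log_pos (by norm_num)
  -- the bound for a fixed delta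
  have hbound : ∀ δ : ℝ, 0 < δ → ∃ n₀ : ℕ, ∀ n ≥ n₀,
      ((WB (WG x₀ S T) n).ncard : ℝ) ≤ Real.exp (δ * n) := by
    intro δ hδ
    obtain ⟨K, hK1, hK⟩ := sum_exp_le hT hf hsub (show 0 < δ / 2 by positivity)
    have hK0 : 0 ≤ Real.log K := Real.log_nonneg hK1
    set C' : ℝ := C + C / Real.log 2 * Real.log K with hC'
    have hC'0 : 0 < C' := by positivity
    -- n ^ α is eventually small against n
    have hlim : Filter.Tendsto (fun n : ℕ => ((n : ℝ)) ^ (α - 1)) Filter.atTop (nhds 0) := by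
      have h1 : 0 < 1 - α := by linarith
      have h2 := (tendsto_rpow_neg_atTop h1).comp tendsto_natCast_atTop_atTop
      refine h2.congr fun n => ?_
      change (n:ℝ) ^ (-(1 - α)) = _
      congr 1
      ring
    have h3 := hlim.eventually (gt_mem_nhds (show 0 < δ / (2 * C') by positivity))
    obtain ⟨n₁, hn₁⟩ := Filter.eventually_atTop.1 h3
    refine ⟨max n₁ 1, fun n hn => ?_⟩
    have hn1 : 1 ≤ n := le_trans (le_max_right _ _) hn
    have hn1' : (0:ℝ) < n := by exact_mod_cast hn1
    have h4 : C' * (n : ℝ) ^ α ≤ δ / 2 * n := by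
      have h5 := hn₁ n (le_trans (le_max_left _ _) hn)
      have h6 : (n : ℝ) ^ α = (n:ℝ) ^ (α - 1) * n := by
        nth_rw 3 [← Real.rpow_one (n:ℝ)]
        rw [← Real.rpow_add hn1']
        congr 1
        ring
      rw [h6]
      calc C' * ((n:ℝ) ^ (α - 1) * n) ≤ C' * (δ / (2 * C') * n) := by gcongr
        _ = δ / 2 * n := by field_simp
    have hfin := WB_finite (WG_finite (x₀ := x₀) hS hf) n
    set B := hfin.toFinset with hB
    set P := B.image fun w => (sp w.left, w.right) with hPdef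
    have hreach : ∀ p ∈ P, Reach x₀ S p.1 p.2 n := by
      intro p hp
      obtain ⟨w, hw, rfl⟩ := Finset.mem_image.1 hp
      rw [hB, Set.Finite.mem_toFinset, mem_ball_iff hT] at hw
      obtain ⟨-, j, hj, hjn⟩ := hw
      exact hj.mono (le_refl _) (by omega)
    have hPc := hP n hn1 P hreach
    -- the number of lamps
    have hcard : ∀ p ∈ P, (p.1.card : ℝ) ≤ C / Real.log 2 * (n : ℝ) ^ α := by
      intro p hp
      have h5 := hP n hn1 (p.1.powerset.image fun Y => (Y, p.2)) (by
        intro q hq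
        obtain ⟨Y, hY, rfl⟩ := Finset.mem_image.1 hq
        exact (hreach p hp).mono (Finset.mem_powerset.1 hY) (le_refl _))
      rw [Finset.card_image_of_injective _ (by
        intro Y Y' h
        exact (Prod.mk.injEq .. ▸ h).1), Finset.card_powerset] at h5
      push_cast at h5
      have h6 : (p.1.card : ℝ) * Real.log 2 ≤ C * (n : ℝ) ^ α := by
        have h7 := Real.log_le_log (by positivity) h5
        rwa [Real.log_exp, Real.log_pow] at h7
      rw [div_mul_eq_mul_div, le_div_iff₀ hlog2]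
      exact h6
    -- the fibres
    have hfib : ∀ p ∈ P, ((B.filter fun w => (sp w.left, w.right) = p).card : ℝ) ≤
        Real.exp (C / Real.log 2 * Real.log K * (n : ℝ) ^ α + δ / 2 * n) := by
      intro p hp
      set F := (B.filter fun w => (sp w.left, w.right) = p).image fun w => w.left with hF
      have hFc : (B.filter fun w => (sp w.left, w.right) = p).card = F.card := by
        rw [hF, Finset.card_image_of_injOn]
        intro w hw w' hw' h
        have e1 := (Finset.mem_filter.1 (Finset.mem_coe.1 hw)).2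
        have e2 := (Finset.mem_filter.1 (Finset.mem_coe.1 hw')).2
        rw [← e2, Prod.mk.injEq] at e1
        exact SemidirectProduct.ext h e1.2
      have h5 := card_fun_weight (H := H) p.1 F (WB_finite hf n).toFinset
        (fun h => Real.exp (-(δ / 2 * len T h))) (fun h => (Real.exp_pos _).le)
        (θ := Real.exp (-(δ / 2 * n))) (hK n) (by
          intro f hf'
          obtain ⟨w, hw, rfl⟩ := Finset.mem_image.1 hf'
          obtain ⟨hw1, hw2⟩ := Finset.mem_filter.1 hw
          rw [hB, Set.Finite.mem_toFinset, mem_ball_iff hT] at hw1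
          obtain ⟨⟨Y, hY⟩, j, hj, hjn⟩ := hw1
          have hsp : sp w.left = p.1 := by rw [← hw2]
          have htot : ∑ x ∈ p.1, len T (w.left x) ≤ n := by
            rw [← hsp]
            unfold tot at hjn
            omega
          refine ⟨fun x hx => ?_, fun x hx => ?_, ?_⟩
          · by_contra hne
            rw [← hsp] at hx
            exact hx ((mem_sp hY).2 hne)
          · rw [Set.Finite.mem_toFinset, mem_WB_iff hT]
            exact (Finset.single_le_sum (f := fun x => len T (w.left x))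
              (fun x _ => Nat.zero_le _) hx).trans htot
          · rw [← Real.exp_sum]
            refine Real.exp_le_exp.2 ?_
            rw [Finset.sum_neg_distrib, ← Finset.mul_sum, ← Nat.cast_sum]
            have : ((∑ x ∈ p.1, len T (w.left x) : ℕ) : ℝ) ≤ n := by exact_mod_cast htot
            have h7 : δ / 2 * ((∑ x ∈ p.1, len T (w.left x) : ℕ) : ℝ) ≤ δ / 2 * n := by gcongr
            linarith)
      rw [hFc]
      rw [Real.exp_neg, ← div_eq_mul_inv, div_le_iff₀ (Real.exp_pos _)] at h5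
      refine h5.trans ?_
      rw [Real.exp_add]
      refine mul_le_mul_of_nonneg_right ?_ (Real.exp_pos _).le
      have h6 : K = Real.exp (Real.log K) := (Real.exp_log (by linarith)).symm
      rw [h6, ← Real.exp_nat_mul, Real.log_exp]
      refine Real.exp_le_exp.2 ?_
      have h7 := hcard p hp
      calc (p.1.card : ℝ) * Real.log K ≤ (C / Real.log 2 * (n : ℝ) ^ α) * Real.log K := by
            gcongr
        _ = _ := by ring
    have hsum : (B.card : ℝ) = ∑ p ∈ P, ((B.filter fun w => (sp w.left, w.right) = p).card : ℝ) := by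
      rw [Finset.card_eq_sum_card_fiberwise (f := fun w => (sp w.left, w.right)) (t := P)
        fun w hw => Finset.mem_image_of_mem _ hw]
      push_cast
      rfl
    rw [Set.ncard_eq_toFinset_card _ hfin, ← hB, hsum]
    refine (Finset.sum_le_sum hfib).trans ?_
    rw [Finset.sum_const, nsmul_eq_mul]
    calc (P.card : ℝ) * Real.exp (C / Real.log 2 * Real.log K * (n : ℝ) ^ α + δ / 2 * n)
        ≤ Real.exp (C * (n : ℝ) ^ α) *
          Real.exp (C / Real.log 2 * Real.log K * (n : ℝ) ^ α + δ / 2 * n) := by gcongr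
      _ = Real.exp (C' * (n : ℝ) ^ α + δ / 2 * n) := by
          rw [← Real.exp_add, hC']
          congr 1
          ring
      _ ≤ Real.exp (δ * n) := Real.exp_le_exp.2 (by linarith)
  rw [Metric.tendsto_atTop]
  intro ε hε
  set δ : ℝ := Real.log (1 + ε / 2) with hδ
  have hδ0 : 0 < δ := Real.log_pos (by linarith)
  obtain ⟨n₀, hn₀⟩ := hbound δ hδ0
  refine ⟨max n₀ 1, fun n hn => ?_⟩
  have hn1 : 1 ≤ n := le_trans (le_max_right _ _) hn
  have hn1' : (0:ℝ) < n := by exact_mod_cast hn1
  have h1 := hn₀ n (le_trans (le_max_left _ _) hn)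
  have h2 : (1:ℝ) ≤ ((WB (WG x₀ S T) n).ncard : ℝ) := by
    exact_mod_cast one_le_ball (WG_finite (x₀ := x₀) hS hf) n
  have h3 : ((WB (WG x₀ S T) n).ncard : ℝ) ^ ((1 : ℝ) / (n : ℝ)) ≤ 1 + ε / 2 := by
    calc ((WB (WG x₀ S T) n).ncard : ℝ) ^ ((1 : ℝ) / (n : ℝ)) ≤
          (Real.exp (δ * n)) ^ ((1 : ℝ) / (n : ℝ)) :=
          Real.rpow_le_rpow (by linarith) h1 (by positivity)
      _ = Real.exp δ := by
          rw [← Real.exp_mul]
          congr 1
          field_simp
      _ = 1 + ε / 2 := Real.exp_log (by linarith)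
  have h4 : (1:ℝ) ≤ ((WB (WG x₀ S T) n).ncard : ℝ) ^ ((1 : ℝ) / (n : ℝ)) :=
    Real.one_le_rpow h2 (by positivity)
  rw [Real.dist_eq, abs_of_nonneg (by linarith)]
  linarith

end general

end MP799c44
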