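import Mathlib
import Pool.Agent.Lib.MP_799c44_al.GriW

set_option autoImplicit false

/-!
The wreath products over the Grigorchuk group: all properties together.
-/

namespace MP799c44

open SemidirectProduct

/-! ### Passing to the subgroup generated by a set -/

section sub
variable {G : Type*} [Group G] (S : Set G)

/-- the generating set of the subgroup generated by `S` -/
def subGen : Set (Subgroup.closure S) := {k | (k : G) ∈ S}

lemma subGen_closure : Subgroup.closure (subGen S) = ⊤ := Subgroup.closure_closure_coe_preimage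

lemma subGen_finite (hS : S.Finite) : (subGen S).Finite :=
  Set.Finite.of_finite_image (f := fun k : Subgroup.closure S => (k : G))
    (hS.subset (by rintro _ ⟨k, hk, rfl⟩; exact hk)) (fun a _ b _ h => Subtype.ext h)

lemma coe_mem_WB {k : Subgroup.closure S} {n : ℕ} (hk : k ∈ WB (subGen S) n) :
    (k : G) ∈ WB S n := by
  obtain ⟨l, hl, hl2, rfl⟩ := hk
  refine ⟨l.map Subtype.val, by rwa [List.length_map], ?_, ?_⟩
  · intro x hx
    obtain ⟨y, hy, rfl⟩ := List.mem_map.1 hx
    exact hl2 y hy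
  · exact ((Subgroup.closure S).val_list_prod l).symm

lemma exists_coe {g : G} {n : ℕ} (hg : g ∈ WB S n) : ∃ k ∈ WB (subGen S) n, (k : G) = g := by
  obtain ⟨l, hl, hl2, rfl⟩ := hg
  have key : ∀ l : List G, (∀ x ∈ l, x ∈ S ∨ x⁻¹ ∈ S) →
      ∃ k ∈ WB (subGen S) l.length, (k : G) = l.prod := by
    intro l
    induction l with
    | nil =>
      intro _
      exact ⟨1, one_mem_WB _ _, rfl⟩
    | cons x l ih =>
      intro h
      obtain ⟨k, hk, hkl⟩ := ih fun y hy => h y (List.mem_cons_of_mem _ hy)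
      have hx := h x List.mem_cons_self
      have hxc : x ∈ Subgroup.closure S := by
        rcases hx with hx | hx
        · exact Subgroup.subset_closure hx
        · exact (Subgroup.inv_mem_iff _).1 (Subgroup.subset_closure hx)
      refine ⟨⟨x, hxc⟩ * k, ?_, ?_⟩
      · rw [List.length_cons, Nat.add_comm]
        exact mul_mem_WB (gen_mem_WB hx) hk
      · rw [List.prod_cons, ← hkl]
        rfl
  obtain ⟨k, hk, hkl⟩ := key l hl2
  exact ⟨k, WB_mono _ hl hk, hkl⟩

lemma WB_sub_image (n : ℕ) :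
    (fun k : Subgroup.closure S => (k : G)) '' WB (subGen S) n = WB S n := by
  ext g
  constructor
  · rintro ⟨k, hk, rfl⟩
    exact coe_mem_WB S hk
  · intro hg
    obtain ⟨k, hk, hkg⟩ := exists_coe S hg
    exact ⟨k, hk, hkg⟩

lemma ncard_sub (n : ℕ) : (WB (subGen S) n).ncard = (WB S n).ncard := by
  rw [← WB_sub_image S n, Set.ncard_image_of_injective _ Subtype.coe_injective]

lemma ncard_sub_diff (n : ℕ) : (WB (subGen S) (n + 1) \ WB (subGen S) n).ncard =
    (WB S (n + 1) \ WB S n).ncard := by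
  rw [← WB_sub_image S n, ← WB_sub_image S (n + 1),
    ← Set.image_sdiff Subtype.coe_injective,
    Set.ncard_image_of_injective _ Subtype.coe_injective]

end sub

/-! ### The Grigorchuk group -/

section gri
variable [DecidableEq XX]

lemma excur_gri : Excur rho SG := by
  obtain ⟨η, h0, h1, h2⟩ := exists_eta
  obtain ⟨c, hc, hlow⟩ := reach_lower h0 h1 h2
  have hα0 := alph_pos h0 h1
  intro m
  -- a radius with many visited points
  have hlim : Filter.Tendsto (fun n : ℕ => c * (n : ℝ) ^ alph η) Filter.atTop Filter.atTop :=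
    ((tendsto_rpow_atTop hα0).comp tendsto_natCast_atTop_atTop).const_mul_atTop hc
  obtain ⟨n, hn1, hn2⟩ := ((hlim.eventually_ge_atTop (m : ℝ)).and
    (Filter.eventually_ge_atTop 1)).exists
  obtain ⟨Y, γ, hY, hYc⟩ := hlow n hn2
  have hmY : m ≤ Y.card := by
    have : (m : ℝ) ≤ Y.card := hn1.trans hYc
    exact_mod_cast this
  obtain ⟨Z₀, hZ1, hZ2⟩ := Finset.exists_subset_card_eq hmY
  refine ⟨Z₀, hZ2, n + n, fun Y' γ' j y hy h => ?_⟩
  obtain ⟨g, hg, hgy⟩ := hY.mem (hZ1 hy)
  have h3 := h.excursion hg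
  rwa [hgy] at h3

/-- many lamps with large integer values -/
lemma lamps_gri {A : Type*} [Group A] {U : Set A} (hU : Subgroup.closure U = ⊤) (hf : U.Finite)
    {η : ℝ} (h0 : 0 < η) (h1 : η < 1) (h2 : η ^ 3 + η ^ 2 + η = 2) :
    ∃ c : ℝ, 0 < c ∧ ∀ M : ℕ, ∀ᶠ n : ℕ in Filter.atTop, ∃ D m : ℕ, M ≤ m ∧
      c * (n : ℝ) ^ alph η ≤ D ∧ m ^ D ≤ (WB (WG rho SG (TA U)) n).ncard := by
  obtain ⟨c, hc, hlow⟩ := reach_lower h0 h1 h2
  have hα0 := alph_pos h0 h1
  have hα1 := alph_lt_one h0 h1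
  set c' : ℝ := c * (1 / 3) ^ alph η with hc'
  have hc'0 : 0 < c' := by positivity
  refine ⟨c', hc'0, fun M => ?_⟩
  have hlim : Filter.Tendsto (fun n : ℕ => (n : ℝ) ^ (1 - alph η)) Filter.atTop Filter.atTop :=
    (tendsto_rpow_atTop (by linarith)).comp tendsto_natCast_atTop_atTop
  filter_upwards [hlim.eventually_ge_atTop (3 * (c' + 1) * (M + 1)),
    Filter.eventually_ge_atTop 2] with n hn hn2
  have hn2' : (2:ℝ) ≤ n := by exact_mod_cast hn2
  set j : ℕ := n / 2 with hj
  have hj1 : 1 ≤ j := by omega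
  have hj3 : (n:ℝ) / 3 ≤ j := by
    have : n ≤ 3 * j := by omega
    have h3 : (n:ℝ) ≤ 3 * j := by exact_mod_cast this
    linarith
  obtain ⟨Y, γ, hY, hYc⟩ := hlow j hj1
  have hnα : (1:ℝ) ≤ (n : ℝ) ^ alph η := Real.one_le_rpow (by linarith) hα0.le
  have h3 : c' * (n : ℝ) ^ alph η ≤ Y.card := by
    have h4 : ((n:ℝ) / 3) ^ alph η ≤ (j : ℝ) ^ alph η :=
      Real.rpow_le_rpow (by positivity) hj3 hα0.le
    have h5 : ((n:ℝ) / 3) ^ alph η = (1 / 3) ^ alph η * (n : ℝ) ^ alph η := by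
      rw [← Real.mul_rpow (by norm_num) (by positivity)]
      congr 1
      ring
    rw [h5] at h4
    have h6 := mul_le_mul_of_nonneg_left h4 hc.le
    calc c' * (n : ℝ) ^ alph η = c * ((1 / 3) ^ alph η * (n : ℝ) ^ alph η) := by
          rw [hc']
          ring
      _ ≤ _ := h6.trans hYc
  set D : ℕ := ⌈c' * (n : ℝ) ^ alph η⌉₊ with hD
  have hDY : D ≤ Y.card := Nat.ceil_le.2 h3
  have hDle : (D : ℝ) ≤ (c' + 1) * (n : ℝ) ^ alph η := by
    have h4 := (Nat.ceil_lt_add_one (show 0 ≤ c' * (n : ℝ) ^ alph η by positivity)).le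
    rw [← hD] at h4
    linarith
  have hD1 : 1 ≤ D := Nat.one_le_ceil_iff.2 (by positivity)
  obtain ⟨Y', hY'1, hY'2⟩ := Finset.exists_subset_card_eq hDY
  refine ⟨D, j / D, ?_, Nat.le_ceil _, ?_⟩
  · rw [Nat.le_div_iff_mul_le hD1]
    have h4 : (M:ℝ) * D ≤ j := by
      have h5 : (M:ℝ) * D ≤ (M + 1) * ((c' + 1) * (n : ℝ) ^ alph η) := by
        have : (0:ℝ) ≤ M := Nat.cast_nonneg _
        gcongr
        linarith
      have h6 : ((M:ℝ) + 1) * (c' + 1) ≤ (n : ℝ) ^ (1 - alph η) / 3 := by linarith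
      have h7 : (n : ℝ) ^ (1 - alph η) * (n : ℝ) ^ alph η = n := by
        rw [← Real.rpow_add (by linarith)]
        rw [show 1 - alph η + alph η = 1 by ring, Real.rpow_one]
      have h8 : ((M:ℝ) + 1) * ((c' + 1) * (n : ℝ) ^ alph η) ≤ n / 3 := by
        calc ((M:ℝ) + 1) * ((c' + 1) * (n : ℝ) ^ alph η) =
              (((M:ℝ) + 1) * (c' + 1)) * (n : ℝ) ^ alph η := by ring
          _ ≤ ((n : ℝ) ^ (1 - alph η) / 3) * (n : ℝ) ^ alph η := by gcongr
          _ = n / 3 := by
              rw [div_mul_eq_mul_div, h7]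
      linarith
    exact_mod_cast h4
  · have h4 := pow_le_ball hU hf (x₀ := rho) SG_finite (m := j / D) (n := n)
      (hY.mono hY'1 (le_refl _)) (by
        rw [hY'2]
        have := Nat.mul_div_le j D
        omega)
    rwa [hY'2] at h4

/-- all properties of the wreath product -/
theorem gri_all {A : Type*} [Group A] {U : Set A} (hU : Subgroup.closure U = ⊤)
    (hf : U.Finite)
    (hsub : Filter.Tendsto (fun n : ℕ => ((WB U n).ncard : ℝ) ^ ((1 : ℝ) / (n : ℝ)))
      Filter.atTop (nhds 1)) :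
    Filter.Tendsto (fun n : ℕ => ((WB (WG rho SG (TA U)) n).ncard : ℝ) ^ ((1 : ℝ) / (n : ℝ)))
      Filter.atTop (nhds 1) ∧
    (∀ k : ℕ, ∀ᶠ n : ℕ in Filter.atTop,
      (n : ℝ) ^ k ≤ ((WB (WG rho SG (TA U)) n).ncard : ℝ)) ∧
    Filter.Tendsto (fun n : ℕ =>
      ((WB (WG rho SG (TA U)) (n + 1) \ WB (WG rho SG (TA U)) n).ncard : ℝ) /
        ((WB (WG rho SG (TA U)) n).ncard : ℝ)) Filter.atTop (nhds 0) := by
  obtain ⟨η, h0, h1, h2⟩ := exists_eta
  have hα0 := alph_pos h0 h1
  have hα1 := alph_lt_one h0 h1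
  obtain ⟨C, hC, hup⟩ := reach_upper h0 h1 h2
  obtain ⟨c, hc, hlamps⟩ := lamps_gri hU hf h0 h1 h2
  refine ⟨?_, ?_, ?_⟩
  · exact wreath_subexp SG_finite (TA_closure hU) (TA_finite hf) (sph_TA_subexp hU hf hsub)
      hC hα0 hα1 hup
  · intro k
    have hlog : ∀ᶠ n : ℕ in Filter.atTop, (k : ℝ) * Real.log n ≤ c * (n : ℝ) ^ alph η := by
      have h3 := (isLittleO_log_rpow_atTop hα0).def (c := c / (k + 1)) (by positivity)
      have h4 := tendsto_natCast_atTop_atTop (R := ℝ) |>.eventually h3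
      filter_upwards [h4, Filter.eventually_ge_atTop 1] with n hn hn1
      have hn1' : (1:ℝ) ≤ n := by exact_mod_cast hn1
      have hlog0 : 0 ≤ Real.log n := Real.log_nonneg hn1'
      have hpow0 : 0 ≤ (n : ℝ) ^ alph η := by positivity
      rw [Real.norm_of_nonneg hlog0, Real.norm_of_nonneg hpow0, div_mul_eq_mul_div,
        le_div_iff₀ (by positivity)] at hn
      linarith
    filter_upwards [hlog, hlamps 3, Filter.eventually_ge_atTop 1] with n hn hD hn1
    obtain ⟨D, m, hm, hcD, hmD⟩ := hD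
    have hn1' : (1:ℝ) ≤ n := by exact_mod_cast hn1
    have h3 : (n : ℝ) ^ k ≤ (m : ℝ) ^ D := by
      calc (n : ℝ) ^ k = Real.exp (k * Real.log n) := by
            rw [Real.exp_nat_mul, Real.exp_log (by linarith)]
        _ ≤ Real.exp D := Real.exp_le_exp.2 (hn.trans hcD)
        _ = (Real.exp 1) ^ D := by rw [← Real.exp_nat_mul, mul_one]
        _ ≤ (m : ℝ) ^ D := by
            refine pow_le_pow_left₀ (Real.exp_pos _).le ?_ _
            have := Real.exp_one_lt_d9
            have hm' : (3:ℝ) ≤ m := by exact_mod_cast hm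
            linarith
    exact h3.trans (by exact_mod_cast hmD)
  · refine wreath_AZ SG_finite excur_gri hU hf (sph_subexp hU hf hsub) ?_
    intro K
    obtain ⟨M, hM⟩ := exists_nat_ge (Real.exp (K * C / c))
    filter_upwards [hlamps M, Filter.eventually_ge_atTop 1] with n hD hn1
    obtain ⟨D, m, hm, hcD, hmD⟩ := hD
    obtain ⟨P, hP1, hP2⟩ := ball_F_le (x₀ := rho) SG_finite n
    have h3 : ((WB (WG rho SG T2) n).ncard : ℝ) ≤ Real.exp (C * (n : ℝ) ^ alph η) :=
      le_trans (by exact_mod_cast hP2) (hup n hn1 P hP1)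
    have h4 : Real.exp (K * C / c) ≤ m := hM.trans (by exact_mod_cast hm)
    have h5 : ((WB (WG rho SG T2) n).ncard : ℝ) ^ K ≤ (m : ℝ) ^ D := by
      calc ((WB (WG rho SG T2) n).ncard : ℝ) ^ K ≤ (Real.exp (C * (n : ℝ) ^ alph η)) ^ K :=
            pow_le_pow_left₀ (Nat.cast_nonneg _) h3 _
        _ = Real.exp (K * (C * (n : ℝ) ^ alph η)) := (Real.exp_nat_mul _ _).symm
        _ ≤ Real.exp (D * (K * C / c)) := by
            refine Real.exp_le_exp.2 ?_
            have h6 : (n : ℝ) ^ alph η ≤ D / c := by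
              rw [le_div_iff₀ hc]
              linarith
            calc K * (C * (n : ℝ) ^ alph η) ≤ K * (C * (D / c)) := by gcongr
              _ = _ := by ring
        _ = (Real.exp (K * C / c)) ^ D := Real.exp_nat_mul _ _
        _ ≤ (m : ℝ) ^ D := pow_le_pow_left₀ (Real.exp_pos _).le h4 _
    exact h5.trans (by exact_mod_cast hmD)

end gri

/-- the embedding theorem -/
theorem embedding (A : Type) [Group A] (U : Finset A)
    (hU : Subgroup.closure (U : Set A) = ⊤)
    (hsub : Filter.Tendsto (fun n : ℕ => ((WB (U : Set A) n).ncard : ℝ) ^ ((1 : ℝ) / (n : ℝ)))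
      Filter.atTop (nhds 1)) :
    ∃ (G : Type) (_ : Group G) (S : Finset G) (ι : A →* G),
      Function.Injective ι ∧ Subgroup.closure (S : Set G) = ⊤ ∧
      Filter.Tendsto (fun n : ℕ => ((WB (S : Set G) n).ncard : ℝ) ^ ((1 : ℝ) / (n : ℝ)))
        Filter.atTop (nhds 1) ∧
      (∀ k : ℕ, ∀ᶠ n : ℕ in Filter.atTop, (n : ℝ) ^ k ≤ ((WB (S : Set G) n).ncard : ℝ)) ∧
      Filter.Tendsto (fun n : ℕ =>
        ((WB (S : Set G) (n + 1) \ WB (S : Set G) n).ncard : ℝ) /
          ((WB (S : Set G) n).ncard : ℝ)) Filter.atTop (nhds 0) := by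
  classical
  let _ : DecidableEq XX := Classical.decEq _
  have hf : (U : Set A).Finite := U.finite_toSet
  set W : Set ((XX → A × Multiplicative ℤ) ⋊[mulAutArrow] Equiv.Perm XX) :=
    WG rho SG (TA (U : Set A)) with hW
  have hWf : W.Finite := WG_finite SG_finite (TA_finite hf)
  have hfin := subGen_finite W hWf
  obtain ⟨e1, e2, e3⟩ := gri_all hU hf hsub
  set f : A →* (XX → A × Multiplicative ℤ) ⋊[mulAutArrow] Equiv.Perm XX :=
    (inl : (XX → A × Multiplicative ℤ) →* _).comp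
      ((MonoidHom.mulSingle (fun _ : XX => A × Multiplicative ℤ) rho).comp
        (MonoidHom.inl A (Multiplicative ℤ))) with hfdef
  have hfmem : ∀ a, f a ∈ Subgroup.closure W := by
    intro a
    exact mem_closure_of_mem_WB (inl_mem_WB (fst_mem_WB (len_mem hU a)))
  refine ⟨Subgroup.closure W, inferInstance, hfin.toFinset, f.codRestrict _ hfmem, ?_, ?_, ?_,
    ?_, ?_⟩
  · intro a b hab
    have h1 : f a = f b := congrArg Subtype.val hab
    have h2 := congrFun (congrArg SemidirectProduct.left h1) rho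
    have h3 : ∀ a, (f a).left rho = (a, 1) := by
      intro a
      change (Pi.mulSingle rho ((a, 1) : A × Multiplicative ℤ) : XX → A × Multiplicative ℤ) rho = _
      rw [Pi.mulSingle_eq_same]
    rw [h3, h3] at h2
    exact congrArg Prod.fst h2
  · rw [Set.Finite.coe_toFinset]
    exact subGen_closure W
  · rw [Set.Finite.coe_toFinset]
    simp_rw [ncard_sub W]
    exact e1
  · rw [Set.Finite.coe_toFinset]
    simp_rw [ncard_sub W]
    exact e2
  · rw [Set.Finite.coe_toFinset]
    simp_rw [ncard_sub_diff W, ncard_sub W]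
    exact e3

end MP799c44
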